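import Mathlib

/-!
Ternary digits omitting the digit 2, and the counting function `NN A m`.
-/

namespace Pool.Agent.Lib_ca68af

/-- The first `m` ternary digits of `x` are all different from `2`. -/
def IsC (m x : ℕ) : Prop := ∀ i < m, x / 3 ^ i % 3 ≠ 2

instance (m x : ℕ) : Decidable (IsC m x) := by unfold IsC; infer_instance

theorem digit_mod (m x i : ℕ) (hi : i < m) : x % 3 ^ m / 3 ^ i % 3 = x / 3 ^ i % 3 := by
  obtain ⟨k, rfl⟩ : ∃ k, m = i + 1 + k := ⟨m - (i + 1), by omega⟩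
  have h : 3 ^ (i + 1 + k) = 3 ^ i * (3 * 3 ^ k) := by ring
  rw [h, Nat.mod_mul_right_div_self, Nat.mod_mul_right_mod]

theorem isC_mod (m x : ℕ) : IsC m (x % 3 ^ m) ↔ IsC m x := by
  unfold IsC
  constructor
  · intro h i hi
    rw [← digit_mod m x i hi]
    exact h i hi
  · intro h i hi
    rw [digit_mod m x i hi]
    exact h i hi

theorem isC_congr {m x y : ℕ} (h : x ≡ y [MOD 3 ^ m]) : IsC m x ↔ IsC m y := by
  rw [← isC_mod m x, ← isC_mod m y]
  have : x % 3 ^ m = y % 3 ^ m := h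
  rw [this]

theorem isC_add (m m' x : ℕ) : IsC (m + m') x ↔ IsC m x ∧ IsC m' (x / 3 ^ m) := by
  unfold IsC
  constructor
  · intro h
    refine ⟨fun i hi => h i (by omega), fun i hi => ?_⟩
    rw [Nat.div_div_eq_div_mul, ← pow_add]
    exact h (m + i) (by omega)
  · rintro ⟨h1, h2⟩ i hi
    by_cases him : i < m
    · exact h1 i him
    · obtain ⟨k, rfl⟩ : ∃ k, i = m + k := ⟨i - m, by omega⟩
      have := h2 k (by omega)
      rw [Nat.div_div_eq_div_mul, ← pow_add] at this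
      exact this

theorem isC_mono {m m' x : ℕ} (h : m ≤ m') (hx : IsC m' x) : IsC m x :=
  fun i hi => hx i (by omega)

/-- The number of `w < 3^m` with all `c a + 2^a w` (`a ∈ A`) omitting the digit `2` in the first
`m` places. -/
def cnt (A : Finset ℕ) (c : ℕ → ℕ) (m : ℕ) : ℕ :=
  ((Finset.range (3 ^ m)).filter (fun w => ∀ a ∈ A, IsC m (c a + 2 ^ a * w))).card

theorem cnt_le (A : Finset ℕ) (c : ℕ → ℕ) (m : ℕ) : cnt A c m ≤ 3 ^ m := by
  unfold cnt
  refine (Finset.card_filter_le _ _).trans ?_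
  simp

/-- The maximum of `cnt A c m` over all `c`. -/
noncomputable def NN (A : Finset ℕ) (m : ℕ) : ℕ := sSup (Set.range fun c : ℕ → ℕ => cnt A c m)

theorem bdd (A : Finset ℕ) (m : ℕ) : BddAbove (Set.range fun c : ℕ → ℕ => cnt A c m) :=
  ⟨3 ^ m, by rintro _ ⟨c, rfl⟩; exact cnt_le A c m⟩

theorem cnt_le_NN (A : Finset ℕ) (c : ℕ → ℕ) (m : ℕ) : cnt A c m ≤ NN A m :=
  le_csSup (bdd A m) ⟨c, rfl⟩

theorem exists_cnt_eq (A : Finset ℕ) (m : ℕ) : ∃ c : ℕ → ℕ, cnt A c m = NN A m := by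
  have := Nat.sSup_mem (Set.range_nonempty fun c : ℕ → ℕ => cnt A c m) (bdd A m)
  obtain ⟨c, hc⟩ := this
  exact ⟨c, hc⟩

theorem NN_le {A : Finset ℕ} {m B : ℕ} (h : ∀ c, cnt A c m ≤ B) : NN A m ≤ B := by
  obtain ⟨c, hc⟩ := exists_cnt_eq A m
  rw [← hc]; exact h c

theorem NN_mono {A B : Finset ℕ} (h : A ⊆ B) (m : ℕ) : NN B m ≤ NN A m := by
  refine NN_le fun c => ?_
  refine le_trans ?_ (cnt_le_NN A c m)
  unfold cnt
  refine Finset.card_le_card ?_
  intro w hw
  rw [Finset.mem_filter] at hw ⊢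
  exact ⟨hw.1, fun a ha => hw.2 a (h ha)⟩

theorem NN_add (A : Finset ℕ) (m m' : ℕ) : NN A (m + m') ≤ NN A m * NN A m' := by
  refine NN_le fun c => ?_
  set S := (Finset.range (3 ^ (m + m'))).filter (fun w => ∀ a ∈ A, IsC (m + m') (c a + 2 ^ a * w))
    with hS
  set S₀ := (Finset.range (3 ^ m)).filter (fun w => ∀ a ∈ A, IsC m (c a + 2 ^ a * w)) with hS₀
  have hmaps : ∀ w ∈ S, w % 3 ^ m ∈ S₀ := by
    intro w hw
    rw [hS, Finset.mem_filter] at hw
    rw [hS₀, Finset.mem_filter, Finset.mem_range]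
    refine ⟨Nat.mod_lt _ (by positivity), fun a ha => ?_⟩
    have h1 := ((isC_add m m' _).1 (hw.2 a ha)).1
    refine (isC_congr ?_).1 h1
    exact (Nat.ModEq.refl _).add ((Nat.ModEq.refl _).mul (Nat.mod_modEq w (3 ^ m)).symm)
  have hcard : S.card ≤ S₀.card * NN A m' := by
    rw [Finset.card_eq_sum_card_fiberwise hmaps]
    refine (Finset.sum_le_card_nsmul _ _ (NN A m') ?_).trans (by rw [smul_eq_mul])
    intro w₀ hw₀
    refine le_trans ?_ (cnt_le_NN A (fun a => (c a + 2 ^ a * w₀) / 3 ^ m) m')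
    unfold cnt
    refine Finset.card_le_card_of_injOn (fun w => w / 3 ^ m) ?_ ?_
    · intro w hw
      rw [Finset.mem_coe, Finset.mem_filter, hS, Finset.mem_filter, Finset.mem_range] at hw
      obtain ⟨⟨hw1, hw2⟩, hw3⟩ := hw
      rw [Finset.mem_coe, Finset.mem_filter, Finset.mem_range]
      refine ⟨?_, fun a ha => ?_⟩
      · rw [Nat.div_lt_iff_lt_mul (by positivity), ← pow_add, add_comm m' m]
        exact hw1
      · have h1 := ((isC_add m m' _).1 (hw2 a ha)).2
        have h2 : w = w₀ + 3 ^ m * (w / 3 ^ m) := by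
          rw [← hw3]; exact (Nat.mod_add_div w (3 ^ m)).symm
        have h3 : (c a + 2 ^ a * w) / 3 ^ m = (c a + 2 ^ a * w₀) / 3 ^ m + 2 ^ a * (w / 3 ^ m) := by
          conv_lhs => rw [h2]
          have : c a + 2 ^ a * (w₀ + 3 ^ m * (w / 3 ^ m)) =
              (c a + 2 ^ a * w₀) + 3 ^ m * (2 ^ a * (w / 3 ^ m)) := by ring
          rw [this, Nat.add_mul_div_left _ _ (by positivity)]
        rw [h3] at h1
        exact h1
    · intro w hw w' hw' heq
      simp only [Finset.mem_coe, Finset.mem_filter] at hw hw'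
      have h1 : w % 3 ^ m = w' % 3 ^ m := by rw [hw.2, hw'.2]
      have h2 : w / 3 ^ m = w' / 3 ^ m := heq
      rw [← Nat.mod_add_div w (3 ^ m), ← Nat.mod_add_div w' (3 ^ m), h1, h2]
  have h0 : S₀.card ≤ NN A m := cnt_le_NN A c m
  calc cnt A c (m + m') = S.card := rfl
    _ ≤ S₀.card * NN A m' := hcard
    _ ≤ NN A m * NN A m' := by gcongr

theorem NN_zero (A : Finset ℕ) : NN A 0 ≤ 1 := by
  refine NN_le fun c => ?_
  have := cnt_le A c 0
  simpa using this

theorem NN_mul (A : Finset ℕ) (m k : ℕ) : NN A (m * k) ≤ NN A m ^ k := by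
  induction k with
  | zero => simpa using NN_zero A
  | succ k ih =>
    rw [Nat.mul_succ, pow_succ]
    exact (NN_add A (m * k) m).trans (by gcongr)

theorem two_pow_mod_three (a : ℕ) : 2 ^ a % 3 = 1 ∨ 2 ^ a % 3 = 2 := by
  induction a with
  | zero => left; rfl
  | succ a ih => rw [pow_succ]; omega

theorem NN_one_le (a : ℕ) : NN {a} 1 ≤ 2 := by
  refine NN_le fun c => ?_
  unfold cnt
  have hsub : (Finset.range (3 ^ 1)).filter (fun w => ∀ b ∈ ({a} : Finset ℕ), IsC 1 (c b + 2 ^ b * w))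
      ⊆ (Finset.range 3).filter (fun w => (c a + 2 ^ a * w) % 3 ≠ 2) := by
    intro w hw
    rw [Finset.mem_filter] at hw ⊢
    refine ⟨by simpa using hw.1, ?_⟩
    have := hw.2 a (Finset.mem_singleton_self a) 0 (by norm_num)
    simpa using this
  refine (Finset.card_le_card hsub).trans ?_
  have h2 := two_pow_mod_three a
  have key : ∀ w, (c a + 2 ^ a * w) % 3 = (c a % 3 + (2 ^ a % 3) * w) % 3 := by
    intro w
    conv_lhs => rw [Nat.add_mod, Nat.mul_mod]
    conv_rhs => rw [Nat.add_mod, Nat.mul_mod]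
    simp
  simp only [key]
  have h3 : c a % 3 < 3 := Nat.mod_lt _ (by norm_num)
  generalize c a % 3 = x at h3
  rcases h2 with h2 | h2 <;> rw [h2] <;> interval_cases x <;> decide

end Pool.Agent.Lib_ca68af
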