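import Mathlib

/-!
A box lemma: a dense subset of a product of `r` finite sets contains many `T × ... × T` boxes.
-/

namespace Pool.Agent.Lib_ca68af

open Finset

/-- The boxes contained in `S`: all `w` (with `w k c ∈ Ω k`) such that every choice
`k ↦ w k (σ k)` lies in `S`. -/
def boxes {r : ℕ} (T : ℕ) (Ω : Fin r → Finset ℕ) (S : Finset (Fin r → ℕ)) :
    Finset (Fin r → Fin T → ℕ) :=
  (Fintype.piFinset fun k => Fintype.piFinset fun _ : Fin T => Ω k).filter
    (fun w => ∀ σ : Fin r → Fin T, (fun k => w k (σ k)) ∈ S)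

theorem pow_sum_le_aux {ι : Type*} (s : Finset ι) (f : ι → ℕ) (K T : ℕ) (hs : s.card ≤ K)
    (hT : 1 ≤ T) : (∑ i ∈ s, f i) ^ T * K ≤ K ^ T * ∑ i ∈ s, f i ^ T := by
  obtain ⟨n, rfl⟩ : ∃ n, T = n + 1 := ⟨T - 1, by omega⟩
  have h := pow_sum_le_card_mul_sum_pow (α := ℤ) (s := s) (f := fun i => (f i : ℤ))
    (fun i _ => by positivity) n
  have h' : (∑ i ∈ s, f i) ^ (n + 1) ≤ s.card ^ n * ∑ i ∈ s, f i ^ (n + 1) := by exact_mod_cast h
  calc (∑ i ∈ s, f i) ^ (n + 1) * K ≤ (s.card ^ n * ∑ i ∈ s, f i ^ (n + 1)) * K := by gcongr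
    _ ≤ (K ^ n * ∑ i ∈ s, f i ^ (n + 1)) * K := by gcongr
    _ = K ^ (n + 1) * ∑ i ∈ s, f i ^ (n + 1) := by ring

/-- slice of `S` : all tails `y` such that `cons (u c) y ∈ S` for every `c` -/
def slice {r T : ℕ} (Ω : Fin (r + 1) → Finset ℕ) (S : Finset (Fin (r + 1) → ℕ)) (u : Fin T → ℕ) :
    Finset (Fin r → ℕ) :=
  (Fintype.piFinset (Fin.tail Ω)).filter
    (fun y => ∀ c : Fin T, (Fin.cons (u c) y : Fin (r + 1) → ℕ) ∈ S)

theorem sum_slice {r T : ℕ} (Ω : Fin (r + 1) → Finset ℕ) (S : Finset (Fin (r + 1) → ℕ)) :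
    ∑ u ∈ Fintype.piFinset (fun _ : Fin T => Ω 0), (slice Ω S u).card
      = ∑ y ∈ Fintype.piFinset (Fin.tail Ω),
          ((Ω 0).filter (fun x => (Fin.cons x y : Fin (r + 1) → ℕ) ∈ S)).card ^ T := by
  have h1 : ∀ y : Fin r → ℕ,
      ((Ω 0).filter (fun x => (Fin.cons x y : Fin (r + 1) → ℕ) ∈ S)).card ^ T
        = ((Fintype.piFinset (fun _ : Fin T => Ω 0)).filter
            (fun u => ∀ c : Fin T, (Fin.cons (u c) y : Fin (r + 1) → ℕ) ∈ S)).card := by
    intro y
    have : (Fintype.piFinset (fun _ : Fin T => Ω 0)).filter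
            (fun u => ∀ c : Fin T, (Fin.cons (u c) y : Fin (r + 1) → ℕ) ∈ S)
        = Fintype.piFinset (fun _ : Fin T =>
            (Ω 0).filter (fun x => (Fin.cons x y : Fin (r + 1) → ℕ) ∈ S)) := by
      ext u
      simp only [Finset.mem_filter, Fintype.mem_piFinset]
      exact forall_and.symm
    rw [this, Fintype.card_piFinset]
    simp
  rw [Finset.sum_congr rfl (fun y _ => h1 y)]
  simp only [slice, Finset.card_filter]
  exact Finset.sum_comm

theorem sum_deg {r : ℕ} (Ω : Fin (r + 1) → Finset ℕ) (S : Finset (Fin (r + 1) → ℕ))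
    (hS : S ⊆ Fintype.piFinset Ω) :
    ∑ y ∈ Fintype.piFinset (Fin.tail Ω),
          ((Ω 0).filter (fun x => (Fin.cons x y : Fin (r + 1) → ℕ) ∈ S)).card = S.card := by
  have hmaps : ∀ s ∈ S, Fin.tail s ∈ Fintype.piFinset (Fin.tail Ω) := by
    intro s hs
    have := hS hs
    rw [Fintype.mem_piFinset] at this ⊢
    intro k
    exact this k.succ
  rw [Finset.card_eq_sum_card_fiberwise hmaps]
  refine Finset.sum_congr rfl fun y _ => ?_
  refine Finset.card_bij (fun x _ => (Fin.cons x y : Fin (r + 1) → ℕ)) ?_ ?_ ?_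
  · intro x hx
    rw [Finset.mem_filter] at hx ⊢
    refine ⟨hx.2, ?_⟩
    exact Fin.tail_cons (α := fun _ => ℕ) x y
  · intro x _ x' _ h
    have := congrFun h 0
    simpa using this
  · intro s hs
    rw [Finset.mem_filter] at hs
    obtain ⟨hs1, hs2⟩ := hs
    have hcons : (Fin.cons (s 0) y : Fin (r + 1) → ℕ) = s := by
      rw [← hs2]; exact Fin.cons_self_tail s
    refine ⟨s 0, ?_, hcons⟩
    rw [Finset.mem_filter]
    refine ⟨?_, by rw [hcons]; exact hs1⟩
    have := hS hs1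
    rw [Fintype.mem_piFinset] at this
    exact this 0

theorem sum_boxes_slice {r T : ℕ} (Ω : Fin (r + 1) → Finset ℕ) (S : Finset (Fin (r + 1) → ℕ)) :
    ∑ u ∈ Fintype.piFinset (fun _ : Fin T => Ω 0), (boxes T (Fin.tail Ω) (slice Ω S u)).card
      ≤ (boxes T Ω S).card := by
  have hmaps : ∀ w ∈ boxes T Ω S, w 0 ∈ Fintype.piFinset (fun _ : Fin T => Ω 0) := by
    intro w hw
    rw [boxes, Finset.mem_filter, Fintype.mem_piFinset] at hw
    exact hw.1 0
  rw [Finset.card_eq_sum_card_fiberwise hmaps]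
  refine Finset.sum_le_sum fun u hu => ?_
  refine Finset.card_le_card_of_injOn (fun w => (Fin.cons u w : Fin (r + 1) → Fin T → ℕ)) ?_ ?_
  · intro w hw
    rw [Finset.mem_coe, boxes, Finset.mem_filter, Fintype.mem_piFinset] at hw
    obtain ⟨hw1, hw2⟩ := hw
    rw [Finset.mem_coe, Finset.mem_filter, boxes, Finset.mem_filter, Fintype.mem_piFinset]
    refine ⟨⟨?_, ?_⟩, by simp⟩
    · intro k
      refine Fin.cases ?_ (fun k => ?_) k
      · simpa using hu
      · have h := hw1 k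
        simp only [Fin.tail] at h
        simpa using h
    · intro σ
      have h := hw2 (fun k => σ k.succ)
      rw [slice, Finset.mem_filter] at h
      have h2 := h.2 (σ 0)
      have heq : (fun k => (Fin.cons u w : Fin (r + 1) → Fin T → ℕ) k (σ k))
          = (Fin.cons (u (σ 0)) (fun k => w k (σ k.succ)) : Fin (r + 1) → ℕ) := by
        funext k
        refine Fin.cases ?_ (fun k => ?_) k <;> simp
      rw [heq]
      exact h2
  · intro w _ w' _ h
    exact Fin.cons_right_injective _ h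

/-- The box lemma. -/
theorem box_lemma (T Q : ℕ) (hT : 1 ≤ T) (hQ : 1 ≤ Q) : ∀ (r : ℕ) (Ω : Fin r → Finset ℕ)
    (S : Finset (Fin r → ℕ)), S ⊆ Fintype.piFinset Ω → (∀ k, (Ω k).card ≤ Q) →
    S.card ^ (T ^ r) * Q ^ (r * T) ≤ (boxes T Ω S).card * Q ^ (r * T ^ r) := by
  intro r
  induction r with
  | zero =>
    intro Ω S hS hΩ
    simp only [pow_zero, pow_one, zero_mul, mul_one]
    refine Finset.card_le_card_of_injOn (fun _ => fun k => k.elim0) ?_ ?_
    · intro s hs
      rw [Finset.mem_coe, boxes, Finset.mem_filter, Fintype.mem_piFinset]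
      refine ⟨fun k => k.elim0, fun σ => ?_⟩
      have : (fun k : Fin 0 => (k.elim0 : Fin T → ℕ) (σ k)) = s := by
        funext k; exact k.elim0
      rw [this]; exact hs
    · intro s _ s' _ _
      funext k; exact k.elim0
  | succ r ih =>
    intro Ω S hS hΩ
    set p := T ^ r with hp
    have hp1 : 1 ≤ p := Nat.one_le_pow _ _ hT
    set X := ∑ u ∈ Fintype.piFinset (fun _ : Fin T => Ω 0), (slice Ω S u).card with hX
    set Y := ∑ u ∈ Fintype.piFinset (fun _ : Fin T => Ω 0), (slice Ω S u).card ^ p with hY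
    set B := (boxes T Ω S).card with hB
    -- step 1
    have s1 : S.card ^ T * Q ^ r ≤ (Q ^ r) ^ T * X := by
      rw [hX, sum_slice, ← sum_deg Ω S hS]
      refine pow_sum_le_aux _ _ _ _ ?_ hT
      rw [Fintype.card_piFinset]
      calc ∏ i, (Fin.tail Ω i).card ≤ ∏ _i : Fin r, Q :=
            Finset.prod_le_prod' fun i _ => hΩ i.succ
        _ = Q ^ r := by simp
    -- step 2
    have s2 : X ^ p * Q ^ T ≤ (Q ^ T) ^ p * Y := by
      refine pow_sum_le_aux _ _ _ _ ?_ hp1
      rw [Fintype.card_piFinset]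
      calc ∏ _i : Fin T, (Ω 0).card ≤ ∏ _i : Fin T, Q :=
            Finset.prod_le_prod' fun i _ => hΩ 0
        _ = Q ^ T := by simp
    -- step 3
    have s3 : Y * Q ^ (r * T) ≤ B * Q ^ (r * p) := by
      have h := fun u (_ : u ∈ Fintype.piFinset (fun _ : Fin T => Ω 0)) =>
        ih (Fin.tail Ω) (slice Ω S u) (by unfold slice; exact Finset.filter_subset _ _)
          (fun k => hΩ k.succ)
      calc Y * Q ^ (r * T)
          = ∑ u ∈ Fintype.piFinset (fun _ : Fin T => Ω 0),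
              (slice Ω S u).card ^ p * Q ^ (r * T) := by rw [hY, Finset.sum_mul]
        _ ≤ ∑ u ∈ Fintype.piFinset (fun _ : Fin T => Ω 0),
              (boxes T (Fin.tail Ω) (slice Ω S u)).card * Q ^ (r * p) := Finset.sum_le_sum h
        _ = (∑ u ∈ Fintype.piFinset (fun _ : Fin T => Ω 0),
              (boxes T (Fin.tail Ω) (slice Ω S u)).card) * Q ^ (r * p) := by
              rw [Finset.sum_mul]
        _ ≤ B * Q ^ (r * p) := by
              gcongr
              exact sum_boxes_slice Ω S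
    -- combine
    have s1' : (S.card ^ T * Q ^ r) ^ p ≤ ((Q ^ r) ^ T * X) ^ p := by gcongr
    have hpos : 0 < Q ^ (r * p) := by positivity
    have key : (S.card ^ (T ^ (r + 1)) * Q ^ ((r + 1) * T)) * Q ^ (r * p)
        ≤ (B * Q ^ ((r + 1) * T ^ (r + 1))) * Q ^ (r * p) := by
      calc (S.card ^ (T ^ (r + 1)) * Q ^ ((r + 1) * T)) * Q ^ (r * p)
          = (S.card ^ T * Q ^ r) ^ p * Q ^ T * Q ^ (r * T) := by
            rw [pow_succ T r, ← hp, mul_pow, ← pow_mul, ← pow_mul]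
            rw [show (r + 1) * T = T + r * T by ring, pow_add, mul_comm p T]
            ring
        _ ≤ ((Q ^ r) ^ T * X) ^ p * Q ^ T * Q ^ (r * T) := by gcongr
        _ = ((Q ^ r) ^ T) ^ p * (X ^ p * Q ^ T) * Q ^ (r * T) := by rw [mul_pow]; ring
        _ ≤ ((Q ^ r) ^ T) ^ p * ((Q ^ T) ^ p * Y) * Q ^ (r * T) := by gcongr
        _ = ((Q ^ r) ^ T) ^ p * (Q ^ T) ^ p * (Y * Q ^ (r * T)) := by ring
        _ ≤ ((Q ^ r) ^ T) ^ p * (Q ^ T) ^ p * (B * Q ^ (r * p)) := by gcongr
        _ = (B * Q ^ ((r + 1) * T ^ (r + 1))) * Q ^ (r * p) := by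
            rw [pow_succ T r, ← hp, ← pow_mul, ← pow_mul, ← pow_mul]
            rw [show (r + 1) * (p * T) = r * T * p + T * p by ring, pow_add]
            ring
    exact Nat.le_of_mul_le_mul_right key hpos

end Pool.Agent.Lib_ca68af
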