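import Pool.Agent.Lib_ca68af.Basic

/-!
Cells, buffers and blocks of ternary digits.
-/

namespace Pool.Agent.Lib_ca68af

open Finset

theorem sum_base (b M x : ℕ) : ∑ q ∈ range M, (x / b ^ q % b) * b ^ q = x % b ^ M := by
  induction M with
  | zero => simp [Nat.mod_one]
  | succ M ih =>
    rw [Finset.sum_range_succ, ih, pow_succ, Nat.mod_mul]
    ring

/-- block number `q` -/
def blk (g l q x : ℕ) : ℕ := x / 3 ^ (q * (g + l) + g) % 3 ^ l

/-- buffer number `q` -/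
def buf (g l q x : ℕ) : ℕ := x / 3 ^ (q * (g + l)) % 3 ^ g

theorem blk_lt (g l q x : ℕ) : blk g l q x < 3 ^ l := Nat.mod_lt _ (by positivity)

theorem buf_lt (g l q x : ℕ) : buf g l q x < 3 ^ g := Nat.mod_lt _ (by positivity)

theorem cell_eq (g l q x : ℕ) :
    x / 3 ^ (q * (g + l)) % 3 ^ (g + l) = buf g l q x + 3 ^ g * blk g l q x := by
  unfold buf blk
  rw [pow_add 3 g l, Nat.mod_mul, Nat.div_div_eq_div_mul, ← pow_add]

theorem sum_cells (g l M x : ℕ) :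
    ∑ q ∈ range M, (buf g l q x + 3 ^ g * blk g l q x) * 3 ^ (q * (g + l))
      = x % 3 ^ (M * (g + l)) := by
  have h := sum_base (3 ^ (g + l)) M x
  rw [← pow_mul, mul_comm (g + l) M] at h
  rw [← h]
  refine Finset.sum_congr rfl fun q _ => ?_
  rw [← pow_mul, mul_comm (g + l) q, cell_eq]

theorem diff_cells (g l r x x' : ℕ) (hx : x < 3 ^ (2 * r * (g + l)))
    (hx' : x' < 3 ^ (2 * r * (g + l))) (hbuf : ∀ q < 2 * r, buf g l q x = buf g l q x')
    (hblk : ∀ q, r ≤ q → q < 2 * r → blk g l q x = blk g l q x') :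
    (x : ℤ) - x' = ∑ k : Fin r, ((blk g l k x : ℤ) - blk g l k x') * 3 ^ ((k : ℕ) * (g + l) + g) := by
  have h1 := sum_cells g l (2 * r) x
  have h2 := sum_cells g l (2 * r) x'
  rw [Nat.mod_eq_of_lt hx] at h1
  rw [Nat.mod_eq_of_lt hx'] at h2
  have h3 : (x : ℤ) - x' = ∑ q ∈ range (2 * r),
      ((blk g l q x : ℤ) - blk g l q x') * 3 ^ (q * (g + l) + g) := by
    have e1 : (x : ℤ) = ∑ q ∈ range (2 * r), (((buf g l q x : ℤ) + 3 ^ g * blk g l q x)
        * 3 ^ (q * (g + l))) := by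
      conv_lhs => rw [← h1]
      push_cast
      rfl
    have e2 : (x' : ℤ) = ∑ q ∈ range (2 * r), (((buf g l q x' : ℤ) + 3 ^ g * blk g l q x')
        * 3 ^ (q * (g + l))) := by
      conv_lhs => rw [← h2]
      push_cast
      rfl
    rw [e1, e2, ← Finset.sum_sub_distrib]
    refine Finset.sum_congr rfl fun q hq => ?_
    rw [hbuf q (Finset.mem_range.1 hq), pow_add]
    ring
  rw [h3, two_mul, Finset.sum_range_add]
  have h4 : ∑ q ∈ range r, ((blk g l (r + q) x : ℤ) - blk g l (r + q) x')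
      * 3 ^ ((r + q) * (g + l) + g) = 0 := by
    refine Finset.sum_eq_zero fun q hq => ?_
    have := Finset.mem_range.1 hq
    rw [hblk (r + q) (by omega) (by omega), sub_self, zero_mul]
  rw [h4, add_zero, Finset.sum_range]

/-- shift lemma -/
theorem shift_card (A : Finset ℕ) (s m : ℕ) (hs : ∀ a ∈ A, s ≤ a) (c : ℕ → ℕ) :
    ((range (3 ^ m)).filter (fun w => ∀ a ∈ A, IsC m (c a + 2 ^ (a - s) * w))).card
      ≤ NN A m := by
  have hcop : Nat.Coprime (2 ^ s) (3 ^ m) := Nat.Coprime.pow _ _ (by norm_num)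
  obtain ⟨v, hv⟩ : ∃ v, 2 ^ s * v ≡ 1 [MOD 3 ^ m] := by
    rcases Nat.eq_zero_or_pos m with h0 | hpos
    · exact ⟨0, by rw [h0, pow_zero]; exact Nat.modEq_one⟩
    · obtain ⟨v, hv⟩ := Nat.exists_mul_mod_eq_one_of_coprime hcop
        (Nat.one_lt_pow (by omega) (by norm_num))
      refine ⟨v, ?_⟩
      rw [Nat.ModEq, hv.2, Nat.mod_eq_of_lt (Nat.one_lt_pow (by omega) (by norm_num))]
  refine le_trans ?_ (cnt_le_NN A c m)
  unfold cnt
  refine Finset.card_le_card_of_injOn (fun w => v * w % 3 ^ m) ?_ ?_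
  · intro w hw
    rw [Finset.mem_coe, Finset.mem_filter] at hw
    rw [Finset.mem_coe, Finset.mem_filter, Finset.mem_range]
    refine ⟨Nat.mod_lt _ (by positivity), fun a ha => ?_⟩
    have h1 := hw.2 a ha
    refine (isC_congr ?_).1 h1
    have h2 : 2 ^ a * (v * w % 3 ^ m) ≡ 2 ^ (a - s) * w [MOD 3 ^ m] := by
      have h3 : 2 ^ a * (v * w % 3 ^ m) ≡ 2 ^ a * (v * w) [MOD 3 ^ m] :=
        (Nat.ModEq.refl _).mul (Nat.mod_modEq _ _)
      have h4 : 2 ^ a * (v * w) = 2 ^ (a - s) * w * (2 ^ s * v) := by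
        have h5 : 2 ^ a = 2 ^ (a - s) * 2 ^ s := by
          rw [← pow_add]; congr 1; have := hs a ha; omega
        rw [h5]; ring
      rw [h4] at h3
      refine h3.trans ?_
      have h6 := (Nat.ModEq.refl (2 ^ (a - s) * w)).mul hv
      rwa [mul_one] at h6
    exact ((Nat.ModEq.refl _).add h2).symm
  · intro w hw w' hw' heq
    rw [Finset.mem_coe, Finset.mem_filter, Finset.mem_range] at hw hw'
    have h1 : v * w ≡ v * w' [MOD 3 ^ m] := heq
    have h2 : 2 ^ s * (v * w) ≡ 2 ^ s * (v * w') [MOD 3 ^ m] := (Nat.ModEq.refl _).mul h1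
    have h3 : ∀ z, 2 ^ s * (v * z) ≡ z [MOD 3 ^ m] := by
      intro z
      have h6 := hv.mul (Nat.ModEq.refl z)
      rw [one_mul, mul_assoc] at h6
      exact h6
    have h4 := ((h3 w).symm.trans h2).trans (h3 w')
    exact Nat.ModEq.eq_of_lt_of_lt h4 hw.1 hw'.1

/-- Possible blocks, with carry ambiguity. -/
def Om (A : Finset ℕ) (s l : ℕ) (κ : ℕ → ℕ) : Finset ℕ :=
  (range (3 ^ l)).filter (fun w => ∀ a ∈ A,
    IsC l (κ a + 2 ^ (a - s) * w) ∨ IsC l (κ a + 1 + 2 ^ (a - s) * w))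

theorem Om_card (A : Finset ℕ) (s l : ℕ) (hs : ∀ a ∈ A, s ≤ a) (κ : ℕ → ℕ) :
    (Om A s l κ).card ≤ 2 ^ A.card * NN A l := by
  have hsub : Om A s l κ ⊆ A.powerset.biUnion (fun B =>
      (range (3 ^ l)).filter (fun w => ∀ a ∈ A,
        IsC l ((κ a + if a ∈ B then 1 else 0) + 2 ^ (a - s) * w))) := by
    intro w hw
    rw [Om, Finset.mem_filter] at hw
    rw [Finset.mem_biUnion]
    refine ⟨A.filter (fun a => ¬ IsC l (κ a + 2 ^ (a - s) * w)), by simp, ?_⟩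
    rw [Finset.mem_filter]
    refine ⟨hw.1, fun a ha => ?_⟩
    by_cases h : IsC l (κ a + 2 ^ (a - s) * w)
    · rw [if_neg (by rw [Finset.mem_filter]; exact fun h2 => h2.2 h), add_zero]
      exact h
    · rw [if_pos (by rw [Finset.mem_filter]; exact ⟨ha, h⟩)]
      exact (hw.2 a ha).resolve_left h
  refine (Finset.card_le_card hsub).trans ?_
  refine (Finset.card_biUnion_le).trans ?_
  refine (Finset.sum_le_card_nsmul _ _ (NN A l) ?_).trans ?_
  · intro B _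
    exact shift_card A s l hs (fun a => κ a + if a ∈ B then 1 else 0)
  · rw [Finset.card_powerset, smul_eq_mul]

theorem two_pow_le_three_pow (g : ℕ) : 2 ^ g ≤ 3 ^ g := Nat.pow_le_pow_left (by norm_num) g

/-- the block of an admissible point belongs to `Om` -/
theorem blk_mem_Om (A : Finset ℕ) (s g l q n : ℕ) (c' : ℕ → ℕ) (u : ℕ)
    (hg : ∀ a ∈ A, a - s ≤ g) (hn : q * (g + l) + g + l ≤ n)
    (hu : ∀ a ∈ A, IsC n (c' a + 2 ^ (a - s) * u)) :
    blk g l q u ∈ Om A s l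
      (fun a => (c' a + 2 ^ (a - s) * (3 ^ (q * (g + l)) * buf g l q u)) / 3 ^ (q * (g + l) + g)) := by
  set p0 := q * (g + l) with hp0
  rw [Om, Finset.mem_filter, Finset.mem_range]
  refine ⟨blk_lt g l q u, fun a ha => ?_⟩
  have h1 := isC_mono hn (hu a ha)
  have h2 := ((isC_add (p0 + g) l _).1 h1).2
  -- decomposition of `u`
  have hdec : u = u % 3 ^ p0 + 3 ^ p0 * buf g l q u + 3 ^ (p0 + g) * (blk g l q u
      + 3 ^ l * (u / 3 ^ (p0 + g) / 3 ^ l)) := by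
    have e1 : blk g l q u + 3 ^ l * (u / 3 ^ (p0 + g) / 3 ^ l) = u / 3 ^ (p0 + g) := by
      unfold blk
      rw [← hp0]
      exact Nat.mod_add_div _ _
    rw [e1]
    have e2 : 3 ^ (p0 + g) * (u / 3 ^ (p0 + g)) = 3 ^ p0 * (3 ^ g * (u / 3 ^ p0 / 3 ^ g)) := by
      rw [Nat.div_div_eq_div_mul, ← pow_add, pow_add]; ring
    rw [e2, add_assoc, ← mul_add]
    unfold buf
    rw [← hp0, Nat.mod_add_div, Nat.mod_add_div]
  set ulo := u % 3 ^ p0 with hulo
  set be := buf g l q u with hbe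
  set bl := blk g l q u with hbl
  set uh := u / 3 ^ (p0 + g) / 3 ^ l with huh
  have hpos : 0 < 3 ^ (p0 + g) := by positivity
  have hval : (c' a + 2 ^ (a - s) * u) / 3 ^ (p0 + g)
      = (c' a + 2 ^ (a - s) * (3 ^ p0 * be) + 2 ^ (a - s) * ulo) / 3 ^ (p0 + g)
        + 2 ^ (a - s) * (bl + 3 ^ l * uh) := by
    conv_lhs => rw [hdec]
    have : c' a + 2 ^ (a - s) * (ulo + 3 ^ p0 * be + 3 ^ (p0 + g) * (bl + 3 ^ l * uh))
        = (c' a + 2 ^ (a - s) * (3 ^ p0 * be) + 2 ^ (a - s) * ulo)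
          + 3 ^ (p0 + g) * (2 ^ (a - s) * (bl + 3 ^ l * uh)) := by ring
    rw [this, Nat.add_mul_div_left _ _ hpos]
  have hδ : 2 ^ (a - s) * ulo < 3 ^ (p0 + g) := by
    have e1 : 2 ^ (a - s) ≤ 3 ^ g :=
      (two_pow_le_three_pow _).trans (Nat.pow_le_pow_right (by norm_num) (hg a ha))
    have e2 : ulo < 3 ^ p0 := Nat.mod_lt _ (by positivity)
    calc 2 ^ (a - s) * ulo < 2 ^ (a - s) * 3 ^ p0 := Nat.mul_lt_mul_of_pos_left e2 (by positivity)
      _ ≤ 3 ^ g * 3 ^ p0 := Nat.mul_le_mul_right _ e1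
      _ = 3 ^ (p0 + g) := by rw [pow_add]; ring
  have hcarry : (c' a + 2 ^ (a - s) * (3 ^ p0 * be) + 2 ^ (a - s) * ulo) / 3 ^ (p0 + g)
      = (c' a + 2 ^ (a - s) * (3 ^ p0 * be)) / 3 ^ (p0 + g) ∨
      (c' a + 2 ^ (a - s) * (3 ^ p0 * be) + 2 ^ (a - s) * ulo) / 3 ^ (p0 + g)
      = (c' a + 2 ^ (a - s) * (3 ^ p0 * be)) / 3 ^ (p0 + g) + 1 := by
    set x := c' a + 2 ^ (a - s) * (3 ^ p0 * be) with hx
    set y := 2 ^ (a - s) * ulo with hy
    set z := 3 ^ (p0 + g) with hz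
    have f1 : x / z ≤ (x + y) / z := Nat.div_le_div_right (by omega)
    have f2 : (x + y) / z ≤ (x + z) / z := Nat.div_le_div_right (by omega)
    rw [Nat.add_div_right _ hpos] at f2
    omega
  have hcong : ∀ κ, IsC l (κ + 2 ^ (a - s) * (bl + 3 ^ l * uh)) → IsC l (κ + 2 ^ (a - s) * bl) := by
    intro κ h
    refine (isC_congr ?_).1 h
    have e : κ + 2 ^ (a - s) * (bl + 3 ^ l * uh) = κ + 2 ^ (a - s) * bl + 3 ^ l * (2 ^ (a - s) * uh) := by
      ring
    rw [e]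
    exact Nat.ModEq.symm (by
      rw [Nat.ModEq, Nat.add_mul_mod_self_left])
  rw [hval] at h2
  rcases hcarry with h | h
  · left
    rw [h] at h2
    exact hcong _ h2
  · right
    rw [h] at h2
    exact hcong _ h2

/-- the buffers -/
def Cset (g : ℕ) : Finset ℕ := (range (3 ^ g)).filter (fun w => IsC g w)

theorem Cset_card (g : ℕ) : (Cset g).card ≤ 2 ^ g := by
  have h1 : (Cset g).card ≤ cnt {0} (fun _ => 0) g := by
    unfold Cset cnt
    refine Finset.card_le_card ?_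
    intro w hw
    rw [Finset.mem_filter] at hw ⊢
    refine ⟨hw.1, fun a ha => ?_⟩
    rw [Finset.mem_singleton] at ha
    rw [ha, pow_zero, one_mul, zero_add]
    exact hw.2
  refine h1.trans ((cnt_le_NN _ _ _).trans ?_)
  have h2 := NN_mul {0} 1 g
  rw [one_mul] at h2
  exact h2.trans (Nat.pow_le_pow_left (NN_one_le 0) g)

theorem buf_mem_Cset (g l q n u : ℕ) (hn : q * (g + l) + g ≤ n) (hu : IsC n u) :
    buf g l q u ∈ Cset g := by
  rw [Cset, Finset.mem_filter, Finset.mem_range]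
  refine ⟨buf_lt g l q u, ?_⟩
  unfold buf
  rw [isC_mod]
  exact ((isC_add (q * (g + l)) g u).1 (isC_mono hn hu)).2

end Pool.Agent.Lib_ca68af
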