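import Mathlib

/-!
Balanced digit uniqueness, window injectivity, and counting of patterns.
-/

namespace Pool.Agent.Lib_ca68af

open Finset

/-- Uniqueness of expansions with digits differences in `[-2,2]`. -/
theorem balanced (n : ℕ) : ∀ (d : ℕ → ℤ), (∀ i < n, |d i| ≤ 2) →
    ((3 : ℤ) ^ n ∣ ∑ i ∈ range n, d i * 3 ^ i) → ∀ i < n, d i = 0 := by
  induction n with
  | zero => intro d _ _ i hi; omega
  | succ n ih =>
    intro d hd h
    rw [Finset.sum_range_succ'] at h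
    have hs : ∑ i ∈ range n, d (i + 1) * 3 ^ (i + 1) = 3 * ∑ i ∈ range n, d (i + 1) * 3 ^ i := by
      rw [Finset.mul_sum]
      refine Finset.sum_congr rfl fun i _ => by ring
    rw [hs, pow_zero, mul_one] at h
    have h0 : d 0 = 0 := by
      have h3 : (3 : ℤ) ∣ 3 * ∑ i ∈ range n, d (i + 1) * 3 ^ i + d 0 :=
        (dvd_pow_self (3 : ℤ) (Nat.succ_ne_zero n)).trans h
      have h4 : (3 : ℤ) ∣ d 0 := (Int.dvd_add_right (Dvd.intro _ rfl)).1 h3
      have h5 := hd 0 (by omega)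
      rw [abs_le] at h5
      omega
    rw [h0, add_zero, pow_succ, mul_comm ((3 : ℤ) ^ n) 3] at h
    have h6 : (3 : ℤ) ^ n ∣ ∑ i ∈ range n, d (i + 1) * 3 ^ i :=
      (mul_dvd_mul_iff_left (by norm_num : (3 : ℤ) ≠ 0)).1 h
    have h7 := ih (fun i => d (i + 1)) (fun i hi => hd (i + 1) (by omega)) h6
    intro i hi
    rcases i with _ | i
    · exact h0
    · exact h7 i (by omega)

theorem two_mul_geom (m : ℕ) : 2 * ∑ i ∈ range m, (3 : ℤ) ^ i = 3 ^ m - 1 := by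
  induction m with
  | zero => simp
  | succ m ih => rw [Finset.sum_range_succ, mul_add, ih, pow_succ]; ring

theorem abs_sum_lt (m : ℕ) (D : ℕ → ℤ) (hD : ∀ i, |D i| ≤ 1) :
    |∑ i ∈ range m, D i * 3 ^ i| < 3 ^ m := by
  have h1 : |∑ i ∈ range m, D i * 3 ^ i| ≤ ∑ i ∈ range m, (3 : ℤ) ^ i := by
    refine (Finset.abs_sum_le_sum_abs _ _).trans (Finset.sum_le_sum fun i _ => ?_)
    rw [abs_mul, abs_of_pos (by positivity : (0 : ℤ) < 3 ^ i)]
    have := hD i
    have h3 : (0 : ℤ) < 3 ^ i := by positivity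
    nlinarith
  have h2 := two_mul_geom m
  have h3 : (0 : ℤ) ≤ ∑ i ∈ range m, (3 : ℤ) ^ i := Finset.sum_nonneg fun i _ => by positivity
  have h4 : (1 : ℤ) ≤ 3 ^ m := one_le_pow₀ (by norm_num)
  linarith

theorem window_inj (n q lo hi : ℕ) (D : ℕ → ℤ) (hD : ∀ m, |D m| ≤ 1) (α β P : ℤ)
    (hβ : IsCoprime β 3) (hα : IsCoprime α 3) (hq : q + hi ≤ n) (hlohi : lo ≤ hi)
    (hzero : ∀ m, q + lo ≤ m → m < q + hi → D m = 0)
    (h : (3 : ℤ) ^ n ∣ β * ∑ m ∈ range n, D m * 3 ^ m - α * (P * 3 ^ q))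
    (hP : |P| < 3 ^ lo)
    (hinj : ∀ R : ℤ, R ≠ 0 → P ≠ 0 → |R| < 3 ^ lo → ¬ (3 : ℤ) ^ hi ∣ β * R - α * P) : P = 0 := by
  by_contra hP0
  obtain ⟨k, rfl⟩ : ∃ k, n = q + (hi + k) := ⟨n - q - hi, by omega⟩
  obtain ⟨l, rfl⟩ : ∃ l, hi = lo + l := ⟨hi - lo, by omega⟩
  -- low digits vanish
  have hsplit : ∑ m ∈ range (q + (lo + l + k)), D m * 3 ^ m
      = ∑ m ∈ range q, D m * 3 ^ m
        + 3 ^ q * ∑ m ∈ range (lo + l + k), D (q + m) * 3 ^ m := by
    rw [Finset.sum_range_add, Finset.mul_sum]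
    congr 1
    refine Finset.sum_congr rfl fun i _ => by rw [pow_add]; ring
  have hq3 : (3 : ℤ) ^ q ∣ ∑ m ∈ range q, D m * 3 ^ m := by
    have h1 : (3 : ℤ) ^ q ∣ β * ∑ m ∈ range (q + (lo + l + k)), D m * 3 ^ m - α * (P * 3 ^ q) :=
      (pow_dvd_pow 3 (by omega)).trans h
    have h2 : (3 : ℤ) ^ q ∣ β * ∑ m ∈ range (q + (lo + l + k)), D m * 3 ^ m := by
      have h3 : (3 : ℤ) ^ q ∣ α * (P * 3 ^ q) := by
        rw [← mul_assoc]; exact Dvd.intro_left _ rfl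
      have := dvd_add h1 h3
      simpa using this
    have h3 : (3 : ℤ) ^ q ∣ ∑ m ∈ range (q + (lo + l + k)), D m * 3 ^ m :=
      (IsCoprime.pow_left hβ.symm).dvd_of_dvd_mul_left h2
    rw [hsplit] at h3
    exact (Int.dvd_add_left (Dvd.intro _ rfl)).1 h3
  have hlow : ∀ i < q, D i = 0 :=
    balanced q D (fun i _ => (hD i).trans (by norm_num)) hq3
  have hlow0 : ∑ m ∈ range q, D m * 3 ^ m = 0 :=
    Finset.sum_eq_zero fun m hm => by rw [hlow m (Finset.mem_range.1 hm), zero_mul]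
  rw [hsplit, hlow0, zero_add] at h
  set R := ∑ m ∈ range lo, D (q + m) * 3 ^ m with hR
  have hsplit2 : ∑ m ∈ range (lo + l + k), D (q + m) * 3 ^ m
      = R + 3 ^ (lo + l) * ∑ m ∈ range k, D (q + (lo + l + m)) * 3 ^ m := by
    rw [Finset.sum_range_add, Finset.sum_range_add, ← hR]
    have hz : ∑ x ∈ range l, D (q + (lo + x)) * 3 ^ (lo + x) = 0 :=
      Finset.sum_eq_zero fun m hm => by
        rw [hzero (q + (lo + m)) (by omega) (by have := Finset.mem_range.1 hm; omega), zero_mul]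
    rw [hz, add_zero, Finset.mul_sum]
    congr 1
    refine Finset.sum_congr rfl fun i _ => by rw [pow_add 3 (lo + l) i]; ring
  rw [hsplit2] at h
  have h5 : (3 : ℤ) ^ q * 3 ^ (lo + l + k) ∣ 3 ^ q * (β * (R + 3 ^ (lo + l) *
      ∑ m ∈ range k, D (q + (lo + l + m)) * 3 ^ m) - α * P) := by
    rw [← pow_add]
    convert h using 1
    ring
  have h6 := (mul_dvd_mul_iff_left (by positivity : (3 : ℤ) ^ q ≠ 0)).1 h5
  have h7 : (3 : ℤ) ^ (lo + l) ∣ β * R - α * P := by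
    have h8 : (3 : ℤ) ^ (lo + l) ∣ β * (R + 3 ^ (lo + l) *
      ∑ m ∈ range k, D (q + (lo + l + m)) * 3 ^ m) - α * P :=
      (pow_dvd_pow 3 (by omega)).trans h6
    have h9 : β * (R + 3 ^ (lo + l) * ∑ m ∈ range k, D (q + (lo + l + m)) * 3 ^ m) - α * P
        = (β * R - α * P) + 3 ^ (lo + l) * (β * ∑ m ∈ range k, D (q + (lo + l + m)) * 3 ^ m) := by
      ring
    rw [h9] at h8
    exact (Int.dvd_add_left (Dvd.intro _ rfl)).1 h8
  have hRlt : |R| < 3 ^ lo := abs_sum_lt lo (fun m => D (q + m)) (fun m => hD _)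
  by_cases hR0 : R = 0
  · rw [hR0, mul_zero, zero_sub, dvd_neg] at h7
    have h8 : (3 : ℤ) ^ (lo + l) ∣ P := (IsCoprime.pow_left hα.symm).dvd_of_dvd_mul_left h7
    have h9 : (3 : ℤ) ^ (lo + l) ≤ |P| := Int.le_of_dvd (abs_pos.2 hP0) ((dvd_abs _ _).2 h8)
    have h10 : (3 : ℤ) ^ lo ≤ 3 ^ (lo + l) := pow_le_pow_right₀ (by norm_num) (by omega)
    linarith
  · exact hinj R hR0 hP0 hRlt h7

/-- Patterns in `{-1,0,1}^n` with at most `b` nonzero entries outside `V`. -/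
def patterns (n : ℕ) (V : Finset (Fin n)) (b : ℕ) : Finset (Fin n → ℤ) :=
  (Fintype.piFinset (fun _ : Fin n => ({-1, 0, 1} : Finset ℤ))).filter
    (fun v => (univ.filter (fun m => v m ≠ 0 ∧ m ∉ V)).card ≤ b)

theorem patterns_card_le (n : ℕ) (V : Finset (Fin n)) (b : ℕ) (X : ℝ) (hX : 1 ≤ X) :
    ((patterns n V b).card : ℝ) ≤ X ^ b * 3 ^ V.card * (1 + 2 / X) ^ n := by
  have hX0 : 0 < X := by linarith
  set f : Fin n → ℤ → ℝ := fun m x => if x ≠ 0 ∧ m ∉ V then X⁻¹ else 1 with hf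
  have hfpos : ∀ m x, 0 ≤ f m x := by
    intro m x
    simp only [hf]
    split_ifs <;> positivity
  have hprod : ∑ v ∈ Fintype.piFinset (fun _ : Fin n => ({-1, 0, 1} : Finset ℤ)), ∏ m, f m (v m)
      = ∏ m, ∑ x ∈ ({-1, 0, 1} : Finset ℤ), f m x := by
    rw [Finset.prod_univ_sum]
  have hone : ∀ v ∈ patterns n V b, (X⁻¹) ^ b ≤ ∏ m, f m (v m) := by
    intro v hv
    rw [patterns, Finset.mem_filter] at hv
    have h1 : ∏ m, f m (v m) = (X⁻¹) ^ (univ.filter (fun m => v m ≠ 0 ∧ m ∉ V)).card := by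
      rw [hf, Finset.prod_ite, Finset.prod_const, Finset.prod_const_one, mul_one]
    rw [h1]
    exact pow_le_pow_of_le_one (by positivity) (inv_le_one_of_one_le₀ hX) hv.2
  have hsum : ((patterns n V b).card : ℝ) * (X⁻¹) ^ b ≤ ∏ m, ∑ x ∈ ({-1, 0, 1} : Finset ℤ), f m x := by
    rw [← hprod]
    calc ((patterns n V b).card : ℝ) * (X⁻¹) ^ b = ∑ _v ∈ patterns n V b, (X⁻¹) ^ b := by
          rw [Finset.sum_const, nsmul_eq_mul]
      _ ≤ ∑ v ∈ patterns n V b, ∏ m, f m (v m) := Finset.sum_le_sum hone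
      _ ≤ _ := Finset.sum_le_sum_of_subset_of_nonneg (Finset.filter_subset _ _)
          (fun v _ _ => Finset.prod_nonneg fun m _ => hfpos m _)
  have hfac : ∀ m, ∑ x ∈ ({-1, 0, 1} : Finset ℤ), f m x
      ≤ (if m ∈ V then 3 else 1) * (1 + 2 / X) := by
    intro m
    have h2 : 0 ≤ 2 / X := by positivity
    rw [Finset.sum_insert (by decide), Finset.sum_insert (by decide), Finset.sum_singleton]
    by_cases hm : m ∈ V
    · simp only [hf, hm, not_true_eq_false, and_false, if_false, if_true]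
      linarith
    · simp only [hf, hm, not_false_eq_true, and_true, if_false]
      norm_num
      rw [div_eq_mul_inv]
      linarith
  have hprod2 : ∏ m, ∑ x ∈ ({-1, 0, 1} : Finset ℤ), f m x ≤ 3 ^ V.card * (1 + 2 / X) ^ n := by
    calc ∏ m, ∑ x ∈ ({-1, 0, 1} : Finset ℤ), f m x
        ≤ ∏ m : Fin n, ((if m ∈ V then 3 else 1) * (1 + 2 / X)) :=
          Finset.prod_le_prod (fun m _ => Finset.sum_nonneg fun x _ => hfpos m x)
            (fun m _ => hfac m)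
      _ = 3 ^ V.card * (1 + 2 / X) ^ n := by
          rw [Finset.prod_mul_distrib, Finset.prod_const, Finset.card_univ, Fintype.card_fin]
          congr 1
          rw [Finset.prod_ite_mem, Finset.univ_inter, Finset.prod_const]
  have h3 : ((patterns n V b).card : ℝ) = ((patterns n V b).card : ℝ) * (X⁻¹) ^ b * X ^ b := by
    rw [mul_assoc, ← mul_pow, inv_mul_cancel₀ hX0.ne', one_pow, mul_one]
  rw [h3]
  calc ((patterns n V b).card : ℝ) * (X⁻¹) ^ b * X ^ b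
      ≤ (3 ^ V.card * (1 + 2 / X) ^ n) * X ^ b :=
        mul_le_mul_of_nonneg_right (hsum.trans hprod2) (by positivity)
    _ = X ^ b * 3 ^ V.card * (1 + 2 / X) ^ n := by ring

end Pool.Agent.Lib_ca68af
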