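import Pool.Agent.Lib_ca68af.Box
import Pool.Agent.Lib_ca68af.Digits

/-!
The core combinatorial lemma.
-/

namespace Pool.Agent.Lib_ca68af

open Finset

/-- The point of the box `w` chosen by `σ`. -/
def pt {r T : ℕ} (w : Fin r → Fin T → ℕ) (σ : Fin r → Fin T) : Fin r → ℕ := fun k => w k (σ k)

/-- the zero selector -/
def s0 (r t : ℕ) : Fin r → Fin (t + 1) := fun _ => 0

section

variable {r t n : ℕ} (S : Finset (Fin r → ℕ)) (Y : (Fin r → ℕ) → ℕ → ℤ)
  (α β : ℤ) (p : Fin r → ℕ)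

/-- The digit relation. -/
def DigRel (n : ℕ) : Prop :=
  ∀ w ∈ S, ∀ w' ∈ S, (3 : ℤ) ^ n ∣ β * ∑ m ∈ range n, (Y w m - Y w' m) * 3 ^ m
    - α * ∑ k, ((w k : ℤ) - w' k) * 3 ^ (p k)

theorem disj_supp (hY : ∀ w ∈ S, ∀ m, Y w m = 0 ∨ Y w m = 1) (hβ : IsCoprime β 3)
    (hrel : DigRel S Y α β p n) (w : Fin r → Fin (t + 1) → ℕ) (hw : ∀ σ, pt w σ ∈ S)
    (k k' : Fin r) (hk : k ≠ k') (c c' : Fin (t + 1)) (m : ℕ) (hm : m < n)
    (h1 : Y (pt w (Function.update (s0 r t) k c)) m ≠ Y (pt w (s0 r t)) m) :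
    Y (pt w (Function.update (s0 r t) k' c')) m = Y (pt w (s0 r t)) m := by
  set σ1 := Function.update (s0 r t) k c with hσ1
  set σ2 := Function.update (s0 r t) k' c' with hσ2
  set σ3 := Function.update σ1 k' c' with hσ3
  have hsum : ∀ i, (pt w σ3 i : ℤ) - pt w σ1 i + (pt w (s0 r t) i - pt w σ2 i) = 0 := by
    intro i
    unfold pt
    by_cases hi : i = k'
    · subst hi
      have e1 : σ3 i = c' := by rw [hσ3, Function.update_self]
      have e2 : σ2 i = c' := by rw [hσ2, Function.update_self]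
      have e3 : σ1 i = s0 r t i := by rw [hσ1, Function.update_of_ne hk.symm]
      rw [e1, e2, e3]; ring
    · have e1 : σ3 i = σ1 i := by rw [hσ3, Function.update_of_ne hi]
      have e2 : σ2 i = s0 r t i := by rw [hσ2, Function.update_of_ne hi]
      rw [e1, e2]; ring
  have ha := hrel _ (hw σ3) _ (hw σ1)
  have hb := hrel _ (hw (s0 r t)) _ (hw σ2)
  have hab := dvd_add ha hb
  have heq : β * ∑ m ∈ range n, (Y (pt w σ3) m - Y (pt w σ1) m) * 3 ^ m
      - α * ∑ k, ((pt w σ3 k : ℤ) - pt w σ1 k) * 3 ^ (p k)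
      + (β * ∑ m ∈ range n, (Y (pt w (s0 r t)) m - Y (pt w σ2) m) * 3 ^ m
      - α * ∑ k, ((pt w (s0 r t) k : ℤ) - pt w σ2 k) * 3 ^ (p k))
      = β * ∑ m ∈ range n, (Y (pt w σ3) m - Y (pt w σ1) m
          + (Y (pt w (s0 r t)) m - Y (pt w σ2) m)) * 3 ^ m := by
    have e1 : ∑ k, ((pt w σ3 k : ℤ) - pt w σ1 k) * 3 ^ (p k)
        + ∑ k, ((pt w (s0 r t) k : ℤ) - pt w σ2 k) * 3 ^ (p k) = 0 := by
      rw [← Finset.sum_add_distrib]
      refine Finset.sum_eq_zero fun i _ => ?_
      rw [← add_mul, hsum i, zero_mul]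
    have e2 : ∑ m ∈ range n, (Y (pt w σ3) m - Y (pt w σ1) m
          + (Y (pt w (s0 r t)) m - Y (pt w σ2) m)) * 3 ^ m
        = ∑ m ∈ range n, (Y (pt w σ3) m - Y (pt w σ1) m) * 3 ^ m
          + ∑ m ∈ range n, (Y (pt w (s0 r t)) m - Y (pt w σ2) m) * 3 ^ m := by
      rw [← Finset.sum_add_distrib]
      refine Finset.sum_congr rfl fun i _ => by ring
    rw [e2]
    linear_combination (-α) * e1
  rw [heq] at hab
  have hdvd : (3 : ℤ) ^ n ∣ ∑ m ∈ range n, (Y (pt w σ3) m - Y (pt w σ1) m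
          + (Y (pt w (s0 r t)) m - Y (pt w σ2) m)) * 3 ^ m :=
    (IsCoprime.pow_left hβ.symm).dvd_of_dvd_mul_left hab
  have hbal := balanced n _ (fun i _ => by
    rcases hY _ (hw σ3) i with h | h <;> rcases hY _ (hw σ1) i with h' | h' <;>
    rcases hY _ (hw σ2) i with h'' | h'' <;> rcases hY _ (hw (s0 r t)) i with h3 | h3 <;>
    rw [h, h', h'', h3] <;> norm_num) hdvd m hm
  rcases hY _ (hw σ3) m with h | h <;> rcases hY _ (hw σ1) m with h' | h' <;>
    rcases hY _ (hw σ2) m with h'' | h'' <;> rcases hY _ (hw (s0 r t)) m with h3 | h3 <;>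
    simp only [h, h', h'', h3] at h1 hbal ⊢ <;> omega

/-- union of the supports at place `k` -/
def Vset (n : ℕ) (w : Fin r → Fin (t + 1) → ℕ) (k : Fin r) : Finset ℕ :=
  (range n).filter (fun m => ∃ c : Fin (t + 1),
    Y (pt w (Function.update (s0 r t) k c)) m ≠ Y (pt w (s0 r t)) m)

/-- support points of `(k,c)` outside the other supports -/
def Xset (n : ℕ) (w : Fin r → Fin (t + 1) → ℕ) (k : Fin r) (c : Fin (t + 1)) : Finset ℕ :=
  (range n).filter (fun m =>
    Y (pt w (Function.update (s0 r t) k c)) m ≠ Y (pt w (s0 r t)) m ∧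
    ∀ c' : Fin (t + 1), c' ≠ c →
      Y (pt w (Function.update (s0 r t) k c')) m = Y (pt w (s0 r t)) m)

theorem exists_type (hY : ∀ w ∈ S, ∀ m, Y w m = 0 ∨ Y w m = 1) (hβ : IsCoprime β 3)
    (hrel : DigRel S Y α β p n) (w : Fin r → Fin (t + 1) → ℕ) (hw : ∀ σ, pt w σ ∈ S)
    (Sn a1 b1 : ℕ) (lo hi : ℕ → ℕ)
    (hdisj : ∀ s < Sn, ∀ s' < Sn, s ≠ s' → hi s ≤ lo s' ∨ hi s' ≤ lo s)
    (ha : n < (a1 + 1) * (r * Sn)) (hb : n < (b1 + 1) * t) :
    ∃ k : Fin r, ∃ s ∈ range Sn, ∃ c : Fin t,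
      (Vset Y n w k ∩ Finset.Ico (p k + lo s) (p k + hi s)).card ≤ a1 ∧
      (Xset Y n w k c.succ).card ≤ b1 := by
  have hVdisj : (Set.univ : Set (Fin r)).PairwiseDisjoint (fun k => Vset Y n w k) := by
    intro k _ k' _ hkk'
    rw [Function.onFun, Finset.disjoint_left]
    intro m hm hm'
    rw [Vset, Finset.mem_filter, Finset.mem_range] at hm hm'
    obtain ⟨hmn, c, hc⟩ := hm
    obtain ⟨_, c', hc'⟩ := hm'
    exact hc' (disj_supp S Y α β p hY hβ hrel w hw k k' hkk' c c' m hmn hc)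
  have hVsum : ∑ k, (Vset Y n w k).card ≤ n := by
    rw [← Finset.card_biUnion (fun k _ k' _ h => hVdisj (Set.mem_univ k) (Set.mem_univ k') h)]
    have : (Finset.univ.biUnion fun k => Vset Y n w k) ⊆ range n := by
      intro m hm
      rw [Finset.mem_biUnion] at hm
      obtain ⟨k, _, hm⟩ := hm
      exact (Finset.mem_filter.1 hm).1
    simpa using Finset.card_le_card this
  have h1 : ∃ k : Fin r, ∃ s ∈ range Sn,
      (Vset Y n w k ∩ Finset.Ico (p k + lo s) (p k + hi s)).card ≤ a1 := by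
    by_contra hcon
    push Not at hcon
    have h2 : ∀ k : Fin r, (a1 + 1) * Sn ≤ (Vset Y n w k).card := by
      intro k
      have hd : (range Sn : Set ℕ).PairwiseDisjoint
          (fun s => Vset Y n w k ∩ Finset.Ico (p k + lo s) (p k + hi s)) := by
        intro s hs s' hs' hss'
        rw [Function.onFun, Finset.disjoint_left]
        intro m hm hm'
        rw [Finset.mem_inter, Finset.mem_Ico] at hm hm'
        have := hdisj s (Finset.mem_range.1 hs) s' (Finset.mem_range.1 hs') hss'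
        omega
      calc (a1 + 1) * Sn = ∑ _s ∈ range Sn, (a1 + 1) := by simp [mul_comm]
        _ ≤ ∑ s ∈ range Sn, (Vset Y n w k ∩ Finset.Ico (p k + lo s) (p k + hi s)).card :=
            Finset.sum_le_sum fun s hs => hcon k s hs
        _ = ((range Sn).biUnion fun s =>
              Vset Y n w k ∩ Finset.Ico (p k + lo s) (p k + hi s)).card :=
            (Finset.card_biUnion (fun s hs s' hs' h => hd hs hs' h)).symm
        _ ≤ (Vset Y n w k).card := by
            refine Finset.card_le_card ?_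
            intro m hm
            rw [Finset.mem_biUnion] at hm
            obtain ⟨s, _, hm⟩ := hm
            exact Finset.mem_of_mem_inter_left hm
    have h3 : r * ((a1 + 1) * Sn) ≤ n := by
      calc r * ((a1 + 1) * Sn) = ∑ _k : Fin r, (a1 + 1) * Sn := by simp
        _ ≤ ∑ k, (Vset Y n w k).card := Finset.sum_le_sum fun k _ => h2 k
        _ ≤ n := hVsum
    have h4 : r * ((a1 + 1) * Sn) = (a1 + 1) * (r * Sn) := by ring
    omega
  obtain ⟨k, s, hs, hks⟩ := h1
  have h5 : ∃ c : Fin t, (Xset Y n w k c.succ).card ≤ b1 := by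
    by_contra hcon
    push Not at hcon
    have hd : (Set.univ : Set (Fin t)).PairwiseDisjoint
          (fun c => Xset Y n w k c.succ) := by
      intro c _ c' _ hcc'
      rw [Function.onFun, Finset.disjoint_left]
      intro m hm hm'
      rw [Xset, Finset.mem_filter] at hm hm'
      exact hm.2.1 (hm'.2.2 c.succ (fun h => hcc' (Fin.succ_injective _ h)))
    have h6 : (b1 + 1) * t ≤ n := by
      calc (b1 + 1) * t = ∑ _c : Fin t, (b1 + 1) := by simp [mul_comm]
        _ ≤ ∑ c : Fin t, (Xset Y n w k c.succ).card := Finset.sum_le_sum fun c _ => hcon c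
        _ = (Finset.univ.biUnion fun c : Fin t => Xset Y n w k c.succ).card :=
            (Finset.card_biUnion
              (fun c _ c' _ h => hd (Set.mem_univ c) (Set.mem_univ c') h)).symm
        _ ≤ (range n).card := by
            refine Finset.card_le_card ?_
            intro m hm
            rw [Finset.mem_biUnion] at hm
            obtain ⟨c, _, hm⟩ := hm
            exact (Finset.mem_filter.1 hm).1
        _ = n := Finset.card_range n
    omega
  obtain ⟨c, hc⟩ := h5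
  exact ⟨k, s, hs, c, hks, hc⟩

end

end Pool.Agent.Lib_ca68af
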