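import Pool.Agent.Lib_ca68af.Core

/-!
The core combinatorial lemma, second part: counting boxes.
-/

namespace Pool.Agent.Lib_ca68af

open Finset

/-- Erase the entry `(k,c)` of a box. -/
def eraseEntry {r t : ℕ} (k : Fin r) (c : Fin (t + 1)) (w : Fin r → Fin (t + 1) → ℕ) :
    Fin r → Fin (t + 1) → ℕ := Function.update w k (Function.update (w k) c 0)

/-- Target of `eraseEntry`. -/
def eraseTarget {r t : ℕ} (Ω : Fin r → Finset ℕ) (k : Fin r) (c : Fin (t + 1)) :
    Finset (Fin r → Fin (t + 1) → ℕ) :=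
  Fintype.piFinset fun k' => Fintype.piFinset fun c' => if k' = k ∧ c' = c then {0} else Ω k'

theorem eraseTarget_card {r t Q : ℕ} (Ω : Fin r → Finset ℕ) (hQ : ∀ k, (Ω k).card ≤ Q)
    (k : Fin r) (c : Fin (t + 1)) : (eraseTarget Ω k c).card * Q ≤ Q ^ (r * (t + 1)) := by
  have h1 : (eraseTarget Ω k c).card
      ≤ ∏ x : Fin r × Fin (t + 1), (if x = (k, c) then 1 else Q) := by
    unfold eraseTarget
    rw [Fintype.card_piFinset]
    simp only [Fintype.card_piFinset]
    rw [Fintype.prod_prod_type]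
    refine Finset.prod_le_prod' fun i _ => Finset.prod_le_prod' fun j _ => ?_
    by_cases h : i = k ∧ j = c
    · simp [h]
    · have h' : ¬ ((i, j) = (k, c)) := fun h2 => h (by simpa using h2)
      rw [if_neg h, if_neg h']
      exact hQ i
  have h2 : (∏ x : Fin r × Fin (t + 1), (if x = (k, c) then 1 else Q)) * Q
      = Q ^ (r * (t + 1)) := by
    rw [← Finset.mul_prod_erase (Finset.univ) _ (Finset.mem_univ (k, c)), if_pos rfl, one_mul]
    have h3 : ∏ x ∈ (Finset.univ : Finset (Fin r × Fin (t + 1))).erase (k, c),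
        (if x = (k, c) then 1 else Q)
        = ∏ x ∈ (Finset.univ : Finset (Fin r × Fin (t + 1))).erase (k, c), Q := by
      refine Finset.prod_congr rfl fun x hx => ?_
      rw [if_neg (Finset.ne_of_mem_erase hx)]
    rw [h3, mul_comm, Finset.mul_prod_erase Finset.univ (fun _ => Q) (Finset.mem_univ (k, c))]
    simp
  calc (eraseTarget Ω k c).card * Q ≤ _ * Q := Nat.mul_le_mul_right Q h1
    _ = _ := h2

section

variable {r t n : ℕ} (S : Finset (Fin r → ℕ)) (Y : (Fin r → ℕ) → ℕ → ℤ)
  (α β : ℤ) (p : Fin r → ℕ)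

theorem type_card (Ω : Fin r → Finset ℕ) (Q : ℕ) (hQ : ∀ k, (Ω k).card ≤ Q)
    (hY : ∀ w ∈ S, ∀ m, Y w m = 0 ∨ Y w m = 1)
    (hα : IsCoprime α 3) (hβ : IsCoprime β 3) (hrel : DigRel S Y α β p n)
    (a1 b1 Pat lo hi : ℕ) (k : Fin r) (c : Fin t)
    (hlohi : lo ≤ hi) (hn : p k + hi ≤ n)
    (hinj : ∀ P R : ℤ, P ≠ 0 → R ≠ 0 → |P| < 3 ^ lo → |R| < 3 ^ lo →
      ¬ (3 : ℤ) ^ hi ∣ β * R - α * P)
    (hw : ∀ w ∈ S, w k < 3 ^ lo)
    (hPat : ∀ V : Finset (Fin n), V.card ≤ a1 → (patterns n V b1).card ≤ Pat) :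
    ((boxes (t + 1) Ω S).filter (fun w =>
      (Vset Y n w k ∩ Finset.Ico (p k + lo) (p k + hi)).card ≤ a1 ∧
      (Xset Y n w k c.succ).card ≤ b1)).card * Q ≤ Pat * Q ^ (r * (t + 1)) := by
  set 𝒯 := (boxes (t + 1) Ω S).filter (fun w =>
      (Vset Y n w k ∩ Finset.Ico (p k + lo) (p k + hi)).card ≤ a1 ∧
      (Xset Y n w k c.succ).card ≤ b1) with h𝒯
  have hmaps : ∀ w ∈ 𝒯, eraseEntry k c.succ w ∈ eraseTarget Ω k c.succ := by
    intro w hwT
    rw [h𝒯, Finset.mem_filter, boxes, Finset.mem_filter, Fintype.mem_piFinset] at hwT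
    have h1 := hwT.1.1
    rw [eraseTarget, Fintype.mem_piFinset]
    intro k'
    rw [Fintype.mem_piFinset]
    intro c'
    have h2 := h1 k'
    rw [Fintype.mem_piFinset] at h2
    unfold eraseEntry
    by_cases hk : k' = k
    · subst hk
      rw [Function.update_self]
      by_cases hc : c' = c.succ
      · subst hc
        rw [Function.update_self]; simp
      · rw [Function.update_of_ne hc, if_neg (fun h => hc h.2)]
        exact h2 c'
    · rw [Function.update_of_ne hk, if_neg (fun h => hk h.1)]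
      exact h2 c'
  have hfib : ∀ w' ∈ eraseTarget Ω k c.succ,
      (𝒯.filter (fun w => eraseEntry k c.succ w = w')).card ≤ Pat := by
    intro w' _
    rcases (𝒯.filter (fun w => eraseEntry k c.succ w = w')).eq_empty_or_nonempty with he | ⟨w0, hw0⟩
    · rw [he]; simp
    -- all members agree off `(k,c)`
    have hagree : ∀ w ∈ 𝒯.filter (fun w => eraseEntry k c.succ w = w'),
        ∀ σ : Fin r → Fin (t + 1), σ k ≠ c.succ → pt w σ = pt w0 σ := by
      intro w hwF σ hσ
      rw [Finset.mem_filter] at hwF hw0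
      have h1 : eraseEntry k c.succ w = eraseEntry k c.succ w0 := by rw [hwF.2, hw0.2]
      funext i
      have h2 := congrFun (congrFun h1 i) (σ i)
      unfold eraseEntry at h2
      unfold pt
      by_cases hi : i = k
      · subst hi
        rw [Function.update_self, Function.update_self, Function.update_of_ne hσ,
          Function.update_of_ne hσ] at h2
        exact h2
      · rw [Function.update_of_ne hi, Function.update_of_ne hi] at h2
        exact h2
    have hmem : ∀ w ∈ 𝒯.filter (fun w => eraseEntry k c.succ w = w'), ∀ σ, pt w σ ∈ S := by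
      intro w hwF σ
      rw [Finset.mem_filter, h𝒯, Finset.mem_filter, boxes, Finset.mem_filter] at hwF
      exact hwF.1.1.2 σ
    have hs0 : (s0 r t) k ≠ c.succ := fun h => absurd h.symm (Fin.succ_ne_zero c)
    -- common old support
    set V : Finset (Fin n) := Finset.univ.filter (fun m : Fin n =>
      (p k + lo ≤ (m : ℕ) ∧ (m : ℕ) < p k + hi) ∧ ∃ c' : Fin (t + 1), c' ≠ c.succ ∧
        Y (pt w0 (Function.update (s0 r t) k c')) m ≠ Y (pt w0 (s0 r t)) m) with hV
    have hVcard : V.card ≤ a1 := by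
      have h0 := hw0
      rw [Finset.mem_filter, h𝒯, Finset.mem_filter] at h0
      refine le_trans ?_ h0.1.2.1
      refine Finset.card_le_card_of_injOn (fun m : Fin n => (m : ℕ)) ?_ ?_
      · intro m hm
        rw [Finset.mem_coe, hV, Finset.mem_filter] at hm
        obtain ⟨_, ⟨hm1, hm2⟩, c', _, hc'⟩ := hm
        rw [Finset.mem_coe, Finset.mem_inter, Finset.mem_Ico, Vset, Finset.mem_filter,
          Finset.mem_range]
        exact ⟨⟨m.2, c', hc'⟩, hm1, hm2⟩
      · intro m _ m' _ h
        exact Fin.ext h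
    refine le_trans ?_ (hPat V hVcard)
    refine Finset.card_le_card_of_injOn (fun w => fun m : Fin n =>
      if p k + lo ≤ (m : ℕ) ∧ (m : ℕ) < p k + hi then
        Y (pt w (Function.update (s0 r t) k c.succ)) m - Y (pt w (s0 r t)) m else 0) ?_ ?_
    · intro w hwF
      rw [Finset.mem_coe] at hwF
      rw [Finset.mem_coe, patterns, Finset.mem_filter, Fintype.mem_piFinset]
      refine ⟨fun m => ?_, ?_⟩
      · dsimp only
        split_ifs with hm
        · rcases hY _ (hmem w hwF (Function.update (s0 r t) k c.succ)) m with h | h <;>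
          rcases hY _ (hmem w hwF (s0 r t)) m with h' | h' <;> rw [h, h'] <;> decide
        · decide
      · have h0 := hwF
        rw [Finset.mem_filter, h𝒯, Finset.mem_filter] at h0
        refine le_trans ?_ h0.1.2.2
        refine Finset.card_le_card_of_injOn (fun m : Fin n => (m : ℕ)) ?_
          (fun m _ m' _ h => Fin.ext h)
        intro m hm
        rw [Finset.mem_coe, Finset.mem_filter] at hm
        obtain ⟨_, hm1, hm2⟩ := hm
        dsimp only at hm1
        rw [Finset.mem_coe, Xset, Finset.mem_filter, Finset.mem_range]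
        dsimp only
        by_cases hwin : p k + lo ≤ (m : ℕ) ∧ (m : ℕ) < p k + hi
        · rw [if_pos hwin] at hm1
          refine ⟨m.2, fun h => hm1 (by rw [h]; ring), fun c' hc' => ?_⟩
          by_contra hne
          apply hm2
          rw [hV, Finset.mem_filter]
          refine ⟨Finset.mem_univ _, hwin, c', hc', ?_⟩
          rw [← hagree w hwF _ (by rw [Function.update_self]; exact hc'),
            ← hagree w hwF _ hs0]
          exact hne
        · rw [if_neg hwin] at hm1
          exact absurd rfl hm1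
    · intro w hwF v hvF hwv
      rw [Finset.mem_coe] at hwF hvF
      set σ := Function.update (s0 r t) k c.succ with hσ
      have hσk : σ k = c.succ := by rw [hσ, Function.update_self]
      have hY0 : pt w (s0 r t) = pt v (s0 r t) := by
        rw [hagree w hwF _ hs0, hagree v hvF _ hs0]
      have hoff : ∀ i j, ¬ (i = k ∧ j = c.succ) → w i j = v i j := by
        intro i j hij
        have h1 : eraseEntry k c.succ w = eraseEntry k c.succ v := by
          rw [(Finset.mem_filter.1 hwF).2, (Finset.mem_filter.1 hvF).2]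
        have h2 := congrFun (congrFun h1 i) j
        unfold eraseEntry at h2
        by_cases hi : i = k
        · subst hi
          have hj : j ≠ c.succ := fun h => hij ⟨rfl, h⟩
          rw [Function.update_self, Function.update_self, Function.update_of_ne hj,
            Function.update_of_ne hj] at h2
          exact h2
        · rw [Function.update_of_ne hi, Function.update_of_ne hi] at h2
          exact h2
      set D : ℕ → ℤ := fun m => Y (pt w σ) m - Y (pt v σ) m with hD
      have hrel' := hrel _ (hmem w hwF σ) _ (hmem v hvF σ)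
      have hsum : ∑ i, ((pt w σ i : ℤ) - pt v σ i) * 3 ^ (p i)
          = ((w k c.succ : ℤ) - v k c.succ) * 3 ^ (p k) := by
        rw [Finset.sum_eq_single k]
        · unfold pt; rw [hσk]
        · intro i _ hi
          have : pt w σ i = pt v σ i := by
            unfold pt
            exact hoff i _ (fun h => hi h.1)
          rw [this]; ring
        · intro h; exact absurd (Finset.mem_univ k) h
      rw [hsum] at hrel'
      have hlt : ∀ u ∈ 𝒯.filter (fun w => eraseEntry k c.succ w = w'), u k c.succ < 3 ^ lo := by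
        intro u hu
        have := hw _ (hmem u hu σ)
        unfold pt at this
        rw [hσk] at this
        exact this
      have hP0 : ((w k c.succ : ℤ) - v k c.succ) = 0 := by
        refine window_inj n (p k) lo hi D (fun m => ?_) α β _ hβ hα hn hlohi ?_ hrel' ?_ ?_
        · simp only [hD]
          rcases hY _ (hmem w hwF σ) m with h | h <;>
          rcases hY _ (hmem v hvF σ) m with h' | h' <;> rw [h, h'] <;> norm_num
        · intro m hm1 hm2
          have hmn : m < n := by omega
          have h3 := congrFun hwv ⟨m, hmn⟩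
          simp only [hm1, hm2, and_self, if_true] at h3
          rw [hY0] at h3
          simp only [hD]
          linarith
        · have h1 := hlt w hwF
          have h2 := hlt v hvF
          have h1' : (w k c.succ : ℤ) < 3 ^ lo := by exact_mod_cast h1
          have h2' : (v k c.succ : ℤ) < 3 ^ lo := by exact_mod_cast h2
          have h3' : (0 : ℤ) ≤ w k c.succ := by positivity
          have h4' : (0 : ℤ) ≤ v k c.succ := by positivity
          rw [abs_lt]
          constructor <;> linarith
        · intro R hR hP hRlt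
          refine hinj _ R hP hR ?_ hRlt
          have h1 := hlt w hwF
          have h2 := hlt v hvF
          have h1' : (w k c.succ : ℤ) < 3 ^ lo := by exact_mod_cast h1
          have h2' : (v k c.succ : ℤ) < 3 ^ lo := by exact_mod_cast h2
          have h3' : (0 : ℤ) ≤ w k c.succ := by positivity
          have h4' : (0 : ℤ) ≤ v k c.succ := by positivity
          rw [abs_lt]
          constructor <;> linarith
      funext i j
      by_cases hij : i = k ∧ j = c.succ
      · rw [hij.1, hij.2]
        have : (w k c.succ : ℤ) = v k c.succ := by linarith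
        exact_mod_cast this
      · exact hoff i j hij
  have hcard := Finset.card_le_mul_card_image_of_maps_to hmaps Pat hfib
  calc 𝒯.card * Q ≤ (Pat * (eraseTarget Ω k c.succ).card) * Q := Nat.mul_le_mul_right Q hcard
    _ = Pat * ((eraseTarget Ω k c.succ).card * Q) := by ring
    _ ≤ Pat * Q ^ (r * (t + 1)) := Nat.mul_le_mul_left Pat (eraseTarget_card Ω hQ k c.succ)

/-- The core lemma. -/
theorem core_lemma (Ω : Fin r → Finset ℕ) (Q : ℕ) (hQ : ∀ k, (Ω k).card ≤ Q) (hQ1 : 1 ≤ Q)
    (hS : S ⊆ Fintype.piFinset Ω)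
    (hY : ∀ w ∈ S, ∀ m, Y w m = 0 ∨ Y w m = 1)
    (hα : IsCoprime α 3) (hβ : IsCoprime β 3) (hrel : DigRel S Y α β p n)
    (Sn a1 b1 Pat : ℕ) (lo hi : ℕ → ℕ)
    (hdisj : ∀ s < Sn, ∀ s' < Sn, s ≠ s' → hi s ≤ lo s' ∨ hi s' ≤ lo s)
    (hlohi : ∀ s < Sn, lo s ≤ hi s) (hn : ∀ k, ∀ s < Sn, p k + hi s ≤ n)
    (hinj : ∀ s < Sn, ∀ P R : ℤ, P ≠ 0 → R ≠ 0 → |P| < 3 ^ (lo s) → |R| < 3 ^ (lo s) →
      ¬ (3 : ℤ) ^ (hi s) ∣ β * R - α * P)
    (hw : ∀ w ∈ S, ∀ k, ∀ s < Sn, w k < 3 ^ (lo s))
    (ha : n < (a1 + 1) * (r * Sn)) (hb : n < (b1 + 1) * t)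
    (hPat : ∀ V : Finset (Fin n), V.card ≤ a1 → (patterns n V b1).card ≤ Pat) :
    S.card ^ ((t + 1) ^ r) * Q ≤ (r * Sn * t * Pat) * Q ^ (r * (t + 1) ^ r) := by
  have hcover : boxes (t + 1) Ω S ⊆ (Finset.univ : Finset (Fin r × Fin t)).biUnion (fun kc =>
      (range Sn).biUnion fun s => (boxes (t + 1) Ω S).filter (fun w =>
        (Vset Y n w kc.1 ∩ Finset.Ico (p kc.1 + lo s) (p kc.1 + hi s)).card ≤ a1 ∧
        (Xset Y n w kc.1 kc.2.succ).card ≤ b1)) := by
    intro w hwB
    have hwS : ∀ σ, pt w σ ∈ S := by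
      intro σ
      rw [boxes, Finset.mem_filter] at hwB
      exact hwB.2 σ
    obtain ⟨k, s, hs, c, h1, h2⟩ := exists_type S Y α β p hY hβ hrel w hwS Sn a1 b1 lo hi hdisj ha hb
    rw [Finset.mem_biUnion]
    refine ⟨(k, c), Finset.mem_univ _, ?_⟩
    rw [Finset.mem_biUnion]
    refine ⟨s, hs, ?_⟩
    rw [Finset.mem_filter]
    exact ⟨hwB, h1, h2⟩
  have hB : (boxes (t + 1) Ω S).card * Q ≤ (r * Sn * t * Pat) * Q ^ (r * (t + 1)) := by
    calc (boxes (t + 1) Ω S).card * Q
        ≤ (∑ kc : Fin r × Fin t, ∑ s ∈ range Sn, ((boxes (t + 1) Ω S).filter (fun w =>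
        (Vset Y n w kc.1 ∩ Finset.Ico (p kc.1 + lo s) (p kc.1 + hi s)).card ≤ a1 ∧
        (Xset Y n w kc.1 kc.2.succ).card ≤ b1)).card) * Q := by
          refine Nat.mul_le_mul_right Q ?_
          refine (Finset.card_le_card hcover).trans ?_
          refine Finset.card_biUnion_le.trans ?_
          refine Finset.sum_le_sum fun kc _ => Finset.card_biUnion_le
      _ = ∑ kc : Fin r × Fin t, ∑ s ∈ range Sn, ((boxes (t + 1) Ω S).filter (fun w =>
        (Vset Y n w kc.1 ∩ Finset.Ico (p kc.1 + lo s) (p kc.1 + hi s)).card ≤ a1 ∧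
        (Xset Y n w kc.1 kc.2.succ).card ≤ b1)).card * Q := by
          rw [Finset.sum_mul]
          refine Finset.sum_congr rfl fun kc _ => by rw [Finset.sum_mul]
      _ ≤ ∑ _kc : Fin r × Fin t, ∑ _s ∈ range Sn, Pat * Q ^ (r * (t + 1)) := by
          refine Finset.sum_le_sum fun kc _ => Finset.sum_le_sum fun s hs => ?_
          have hs' := Finset.mem_range.1 hs
          exact type_card S Y α β p Ω Q hQ hY hα hβ hrel a1 b1 Pat (lo s) (hi s) kc.1 kc.2
            (hlohi s hs') (hn kc.1 s hs') (hinj s hs') (fun w hwS => hw w hwS kc.1 s hs') hPat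
      _ = (r * Sn * t * Pat) * Q ^ (r * (t + 1)) := by
          rw [Finset.sum_const, Finset.sum_const, Finset.card_univ, Fintype.card_prod,
            Fintype.card_fin, Fintype.card_fin, Finset.card_range, smul_eq_mul, smul_eq_mul]
          ring
  have hbox := box_lemma (t + 1) Q (by omega) hQ1 r Ω S hS hQ
  have hpos : 0 < Q ^ (r * (t + 1)) := by positivity
  refine Nat.le_of_mul_le_mul_right ?_ hpos
  calc S.card ^ ((t + 1) ^ r) * Q * Q ^ (r * (t + 1))
      = (S.card ^ ((t + 1) ^ r) * Q ^ (r * (t + 1))) * Q := by ring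
    _ ≤ ((boxes (t + 1) Ω S).card * Q ^ (r * (t + 1) ^ r)) * Q := Nat.mul_le_mul_right Q hbox
    _ = ((boxes (t + 1) Ω S).card * Q) * Q ^ (r * (t + 1) ^ r) := by ring
    _ ≤ ((r * Sn * t * Pat) * Q ^ (r * (t + 1))) * Q ^ (r * (t + 1) ^ r) :=
        Nat.mul_le_mul_right _ hB
    _ = (r * Sn * t * Pat) * Q ^ (r * (t + 1) ^ r) * Q ^ (r * (t + 1)) := by ring

end

end Pool.Agent.Lib_ca68af
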