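import Pool.Agent.Lib_ca68af.Thue2

/-!
The Diophantine input: no non-trivial small solutions of `2^e P = Q` modulo a power of `3`.
-/

namespace Pool.Agent.Lib_ca68af

theorem three_pow_le (m : ℕ) : 3 ^ m ≤ 2 ^ (2 * m) := by
  rw [pow_mul]
  exact Nat.pow_le_pow_left (by norm_num) m

theorem succ_le_two_pow (d : ℕ) : d + 1 ≤ 2 ^ d := Nat.lt_two_pow_self

theorem ineqA (K d N L e1 m1 m2 x : ℕ) (hN : 1 ≤ N) (hLN : L < N) 
    (h1 : 32 * K * (d + 1) ≤ e1) (h2 : 4 * K * L ≤ N) (h3 : 8 * K * d ≤ N)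
    (h4 : 16 * K * (d + 1) * m1 ≤ e1) (h5 : 16 * K * d * m2 ≤ N * e1)
    (hx : N * e1 ≤ K * x) (hNe : 0 < N * e1) :
    ((d + 1) * (L + 1)) * ((d + 1) * (L + 1)) * 2 ^ (2 * ((d + 1) * N))
      * 2 ^ (e1 * (L + d)) * (3 ^ m1) ^ ((d + 1) * N) * (3 ^ m2) ^ d < 3 ^ x := by
  have hU : (d + 1) * (L + 1) ≤ 2 ^ ((d + 1) * N) := by
    calc (d + 1) * (L + 1) ≤ 2 ^ d * 2 ^ L := Nat.mul_le_mul (succ_le_two_pow d) (succ_le_two_pow L)
      _ = 2 ^ (d + L) := by rw [pow_add]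
      _ ≤ 2 ^ ((d + 1) * N) := Nat.pow_le_pow_right (by norm_num) (by nlinarith)
  have hE : 2 * ((d + 1) * N) + 2 * ((d + 1) * N) + e1 * (L + d) + 2 * m1 * ((d + 1) * N)
      + 2 * m2 * d < x := by
    have hK : 0 < K := by
      rcases Nat.eq_zero_or_pos K with h | h
      · rw [h, zero_mul] at hx; omega
      · exact h
    have key : K * (2 * ((d + 1) * N) + 2 * ((d + 1) * N) + e1 * (L + d) + 2 * m1 * ((d + 1) * N)
      + 2 * m2 * d) < K * x := by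
      refine lt_of_lt_of_le ?_ hx
      have a1 : 8 * (K * (2 * ((d + 1) * N) + 2 * ((d + 1) * N))) ≤ N * e1 := by
        calc 8 * (K * (2 * ((d + 1) * N) + 2 * ((d + 1) * N))) = N * (32 * K * (d + 1)) := by ring
          _ ≤ N * e1 := Nat.mul_le_mul_left _ h1
      have a2 : 4 * (K * (e1 * L)) ≤ N * e1 := by
        calc 4 * (K * (e1 * L)) = (4 * K * L) * e1 := by ring
          _ ≤ N * e1 := Nat.mul_le_mul_right _ h2
      have a3 : 8 * (K * (e1 * d)) ≤ N * e1 := by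
        calc 8 * (K * (e1 * d)) = (8 * K * d) * e1 := by ring
          _ ≤ N * e1 := Nat.mul_le_mul_right _ h3
      have a4 : 8 * (K * (2 * m1 * ((d + 1) * N))) ≤ N * e1 := by
        calc 8 * (K * (2 * m1 * ((d + 1) * N))) = N * (16 * K * (d + 1) * m1) := by ring
          _ ≤ N * e1 := Nat.mul_le_mul_left _ h4
      have a5 : 8 * (K * (2 * m2 * d)) ≤ N * e1 := by
        calc 8 * (K * (2 * m2 * d)) = 16 * K * d * m2 := by ring
          _ ≤ N * e1 := h5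
      have e : K * (2 * ((d + 1) * N) + 2 * ((d + 1) * N) + e1 * (L + d) + 2 * m1 * ((d + 1) * N)
        + 2 * m2 * d) = K * (2 * ((d + 1) * N) + 2 * ((d + 1) * N)) + K * (e1 * L) + K * (e1 * d)
          + K * (2 * m1 * ((d + 1) * N)) + K * (2 * m2 * d) := by ring
      rw [e]
      omega
    exact lt_of_mul_lt_mul_left key (Nat.zero_le K)
  calc ((d + 1) * (L + 1)) * ((d + 1) * (L + 1)) * 2 ^ (2 * ((d + 1) * N))
      * 2 ^ (e1 * (L + d)) * (3 ^ m1) ^ ((d + 1) * N) * (3 ^ m2) ^ d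
      ≤ 2 ^ ((d + 1) * N) * 2 ^ ((d + 1) * N) * 2 ^ (2 * ((d + 1) * N))
      * 2 ^ (e1 * (L + d)) * (2 ^ (2 * m1)) ^ ((d + 1) * N) * (2 ^ (2 * m2)) ^ d := by
        have := three_pow_le m1
        have := three_pow_le m2
        gcongr
    _ = 2 ^ (2 * ((d + 1) * N) + 2 * ((d + 1) * N) + e1 * (L + d) + 2 * m1 * ((d + 1) * N)
      + 2 * m2 * d) := by
        rw [← pow_mul, ← pow_mul, ← pow_add, ← pow_add, ← pow_add, ← pow_add, ← pow_add]
        congr 1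
        ring
    _ < 2 ^ x := Nat.pow_lt_pow_right (by norm_num) hE
    _ ≤ 3 ^ x := Nat.pow_le_pow_left (by norm_num) x

theorem ineqB (d N L e1 m1 c : ℕ) (hN : 1 ≤ N) (hLN : L < N) (h2d : 2 * d ≤ N)
    (h1 : 4 * ((3 * d + 6) * 2 ^ d) < e1) (h4 : 4 * m1 ≤ e1) (hc : 2 ^ e1 ≤ c * 3 ^ m1) :
    (4 * ((d + 1) * N) * ((L + 1) * ((d + 1) * (L + 1) * 2 ^ ((d + 1) * N)))) ^ (2 ^ d)
        < c ^ (N + 1 - d) := by
  have hc' : 2 ^ (e1 - 2 * m1) ≤ c := by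
    have h5 : 2 ^ e1 ≤ c * 2 ^ (2 * m1) :=
      hc.trans (Nat.mul_le_mul_left c (three_pow_le m1))
    have h6 : 2 ^ (e1 - 2 * m1) * 2 ^ (2 * m1) = 2 ^ e1 := by
      rw [← pow_add]; congr 1; omega
    rw [← h6] at h5
    exact Nat.le_of_mul_le_mul_right h5 (by positivity)
  have hN2 : N ≤ 2 ^ N := (Nat.lt_two_pow_self).le
  have hL2 : L + 1 ≤ 2 ^ N := (succ_le_two_pow L).trans (Nat.pow_le_pow_right (by norm_num) (by omega))
  have hd2 := succ_le_two_pow d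
  have hbase : 4 * ((d + 1) * N) * ((L + 1) * ((d + 1) * (L + 1) * 2 ^ ((d + 1) * N)))
      ≤ 2 ^ ((3 * d + 6) * N) := by
    calc 4 * ((d + 1) * N) * ((L + 1) * ((d + 1) * (L + 1) * 2 ^ ((d + 1) * N)))
        ≤ 2 ^ 2 * (2 ^ d * 2 ^ N) * (2 ^ N * (2 ^ d * 2 ^ N * 2 ^ ((d + 1) * N))) := by
          have : 4 = 2 ^ 2 := by norm_num
          rw [this]
          gcongr
      _ = 2 ^ (2 + (d + N) + (N + ((d + N) + (d + 1) * N))) := by
          simp only [pow_add]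
      _ ≤ 2 ^ ((3 * d + 6) * N) := by
          apply Nat.pow_le_pow_right (by norm_num)
          nlinarith
  calc (4 * ((d + 1) * N) * ((L + 1) * ((d + 1) * (L + 1) * 2 ^ ((d + 1) * N)))) ^ (2 ^ d)
      ≤ (2 ^ ((3 * d + 6) * N)) ^ (2 ^ d) := Nat.pow_le_pow_left hbase _
    _ = 2 ^ ((3 * d + 6) * N * 2 ^ d) := by rw [← pow_mul]
    _ < 2 ^ ((e1 - 2 * m1) * (N + 1 - d)) := by
        apply Nat.pow_lt_pow_right (by norm_num)
        have a1 : e1 ≤ 2 * (e1 - 2 * m1) := by omega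
        have a2 : N ≤ 2 * (N + 1 - d) := by omega
        have a3 : e1 * N ≤ 4 * ((e1 - 2 * m1) * (N + 1 - d)) := by
          calc e1 * N ≤ (2 * (e1 - 2 * m1)) * (2 * (N + 1 - d)) := Nat.mul_le_mul a1 a2
            _ = _ := by ring
        have a4 : 4 * ((3 * d + 6) * N * 2 ^ d) < e1 * N := by
          calc 4 * ((3 * d + 6) * N * 2 ^ d) = (4 * ((3 * d + 6) * 2 ^ d)) * N := by ring
            _ < e1 * N := Nat.mul_lt_mul_of_pos_right h1 hN
        omega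
    _ = (2 ^ (e1 - 2 * m1)) ^ (N + 1 - d) := by rw [← pow_mul]
    _ ≤ c ^ (N + 1 - d) := Nat.pow_le_pow_left hc' _

/-- The Diophantine input. -/
theorem dioph (y : ℕ) : ∃ y' > y, ∃ n0 : ℕ, ∀ n ≥ n0, 2 ^ y' ∣ n → ∀ e : ℕ, n ≤ 2 * e → e ≤ 4 * n →
    ∀ P Q : ℤ, P ≠ 0 → Q ≠ 0 → |P| < 3 ^ (n / 2 ^ y') → |Q| < 3 ^ (n / 2 ^ y') →
      ¬ (3 : ℤ) ^ (n / 2 ^ y) ∣ 2 ^ e * P - Q := by
  refine ⟨2 * y + 15, by omega, ?_⟩
  by_contra hcon
  push Not at hcon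
  set K := 2 ^ (y + 2) with hK
  set d := 16 * K with hd
  have hKpos : 1 ≤ K := Nat.one_le_two_pow
  have hy' : 64 * K * (d + 1) ≤ 2 ^ (2 * y + 15) := by
    have h1 : d + 1 ≤ 2 * (16 * K) := by omega
    calc 64 * K * (d + 1) ≤ 64 * K * (2 * (16 * K)) := Nat.mul_le_mul_left _ h1
      _ = 2 ^ (2 * y + 15) := by
        rw [hK]
        have : 2 * y + 15 = (y + 2) + (y + 2) + 11 := by ring
        rw [this, pow_add _ _ 11, pow_add 2 (y + 2) (y + 2)]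
        ring
  -- facts about a bad solution
  have facts : ∀ n e : ℕ, 2 ^ (2 * y + 15) ∣ n → n ≤ 2 * e → e ≤ 4 * n →
      e ≤ K * (n / 2 ^ y) ∧ 64 * K * (d + 1) * (n / 2 ^ (2 * y + 15)) ≤ 2 * e := by
    intro n e hdvd hne hen
    constructor
    · have h1 : 2 ^ y ∣ n := dvd_trans (pow_dvd_pow 2 (by omega)) hdvd
      have h2 : n / 2 ^ y * 2 ^ y = n := Nat.div_mul_cancel h1
      calc e ≤ 4 * n := hen
        _ = 4 * (n / 2 ^ y * 2 ^ y) := by rw [h2]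
        _ = K * (n / 2 ^ y) := by rw [hK, pow_add]; ring
    · have h2 : n / 2 ^ (2 * y + 15) * 2 ^ (2 * y + 15) = n := Nat.div_mul_cancel hdvd
      calc 64 * K * (d + 1) * (n / 2 ^ (2 * y + 15))
          ≤ 2 ^ (2 * y + 15) * (n / 2 ^ (2 * y + 15)) := Nat.mul_le_mul_right _ hy'
        _ = n := by rw [mul_comm]; exact h2
        _ ≤ 2 * e := hne
  obtain ⟨n1, hn1, hdvd1, e1, hne1, hen1, P1, Q1, hP10, hQ10, hP1, hQ1, hb1⟩ :=
    hcon (2 * (32 * K * (d + 1) + 4 * ((3 * d + 6) * 2 ^ d) + 1))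
  have he1 : 32 * K * (d + 1) + 4 * ((3 * d + 6) * 2 ^ d) + 1 ≤ e1 := by omega
  obtain ⟨n2, hn2, hdvd2, e2, hne2, hen2, P2, Q2, hP20, hQ20, hP2, hQ2, hb2⟩ :=
    hcon (2 * ((8 * K * d) * e1))
  have he2 : (8 * K * d) * e1 ≤ e2 := by
    have : 2 * ((8 * K * d) * e1) ≤ 2 * e2 := le_trans hn2 hne2
    omega
  have he1pos : 0 < e1 := by omega
  obtain ⟨f1, f2⟩ := facts n1 e1 hdvd1 hne1 hen1
  obtain ⟨f3, f4⟩ := facts n2 e2 hdvd2 hne2 hen2
  set N := e2 / e1 with hN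
  set L := 4 * N / (d + 1) with hL
  have hN1 : 8 * K * d ≤ N := by
    rw [hN, Nat.le_div_iff_mul_le he1pos]; exact he2
  have hdpos : 16 ≤ d := by omega
  have hNpos : 1 ≤ N := by nlinarith
  have hNe1 : N * e1 ≤ e2 := Nat.div_mul_le_self e2 e1
  have hNe2 : e2 ≤ (N + 1) * e1 := by
    have := Nat.lt_succ_self (e2 / e1)
    have h := (Nat.div_lt_iff_lt_mul he1pos).1 this
    rw [← hN] at h
    exact h.le
  have hL1 : L * (d + 1) ≤ 4 * N := Nat.div_mul_le_self _ _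
  have hL2 : 4 * N < (d + 1) * (L + 1) := by
    have := Nat.lt_succ_self (4 * N / (d + 1))
    have h := (Nat.div_lt_iff_lt_mul (by omega : 0 < d + 1)).1 this
    rw [← hL] at h
    calc 4 * N < L.succ * (d + 1) := h
      _ = (d + 1) * (L + 1) := by rw [Nat.succ_eq_add_one]; ring
  have hLN : L < N := by
    by_contra hge
    push Not at hge
    have : N * (d + 1) ≤ L * (d + 1) := Nat.mul_le_mul_right _ hge
    nlinarith
  set m1 := n1 / 2 ^ (2 * y + 15) with hm1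
  set m2 := n2 / 2 ^ (2 * y + 15) with hm2
  have h2dN : 2 * d ≤ N := by
    have : 2 * d ≤ 8 * K * d := by nlinarith
    omega
  have hprodpos : 0 < N * e1 := Nat.mul_pos hNpos he1pos
  refine thue_two d N L (by omega) hNpos hLN hL2 P1 Q1 P2 Q2 hP10 hQ10 hP20 hQ20
    (3 ^ m1) (3 ^ m2) (by exact_mod_cast hP1.le) (by exact_mod_cast hQ1.le)
    (by exact_mod_cast hP2.le) (by exact_mod_cast hQ2.le) e1 e2 (n1 / 2 ^ y) (n2 / 2 ^ y)
    hb1 hb2 hNe1 hNe2 ?_ ?_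
  · refine ineqA K d N L e1 m1 m2 _ hNpos hLN (by omega) ?_ hN1 ?_ ?_ ?_ hprodpos
    · -- 4 K L ≤ N
      have h1 : 16 * K * L ≤ 4 * N := by
        calc 16 * K * L = L * (16 * K) := by ring
          _ ≤ L * (d + 1) := Nat.mul_le_mul_left _ (by omega)
          _ ≤ 4 * N := hL1
      have h2 : 16 * K * L = 4 * (4 * K * L) := by ring
      omega
    · have h1 : 64 * K * (d + 1) * m1 = 4 * (16 * K * (d + 1) * m1) := by ring
      omega
    · -- 16 K d m2 ≤ N e1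
      have h1 : 64 * K * (d + 1) * m2 ≤ 4 * (N * e1) := by
        calc 64 * K * (d + 1) * m2 ≤ 2 * e2 := f4
          _ ≤ 2 * ((N + 1) * e1) := Nat.mul_le_mul_left _ hNe2
          _ ≤ 4 * (N * e1) := by nlinarith
      have h2 : 64 * K * (d + 1) * m2 = 4 * (16 * K * d * m2) + 64 * K * m2 := by ring
      omega
    · -- N e1 ≤ K min
      rcases min_choice (n2 / 2 ^ y) (n1 / 2 ^ y * N) with h | h
      · rw [h]
        exact hNe1.trans f3
      · rw [h]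
        calc N * e1 ≤ N * (K * (n1 / 2 ^ y)) := Nat.mul_le_mul_left _ f1
          _ = K * (n1 / 2 ^ y * N) := by ring
  · intro c hc
    refine ineqB d N L e1 m1 c hNpos hLN h2dN (by omega) ?_ hc
    have h1 : 64 * K * (d + 1) * m1 = 4 * (16 * K * (d + 1) * m1) := by ring
    have h2 : 4 * m1 ≤ 8 * K * (d + 1) * m1 := by
      have : 4 ≤ 8 * K * (d + 1) := by nlinarith
      exact Nat.mul_le_mul_right _ this
    have h3 : 16 * K * (d + 1) * m1 = 2 * (8 * K * (d + 1) * m1) := by ring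
    omega

end Pool.Agent.Lib_ca68af
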