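import Pool.Agent.Lib_ca68af.Basic

/-!
Hausdorff dimension bounds from the counting function.
-/

namespace Pool.Agent.Lib_ca68af

open Finset MeasureTheory Filter

/-- The set of `x` for which all `2^a x`, `a ∈ A`, omit the digit `2`. -/
def XA (A : Finset ℕ) : Set (PadicInt 3) :=
  {x | ∀ a ∈ A, ∀ j : ℕ, ((2 : PadicInt 3) ^ a * x).appr (j + 1) / 3 ^ j % 3 ≠ 2}

theorem isC_appr (z : PadicInt 3) (h : ∀ j : ℕ, z.appr (j + 1) / 3 ^ j % 3 ≠ 2) (m : ℕ) :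
    IsC m (z.appr m) := by
  intro j hj
  have h1 : 3 ^ (j + 1) ∣ z.appr m - z.appr (j + 1) := PadicInt.dvd_appr_sub_appr z (j + 1) m hj
  have h2 : z.appr (j + 1) ≤ z.appr m := z.appr_mono hj
  have h3 : z.appr (j + 1) ≡ z.appr m [MOD 3 ^ (j + 1)] := (Nat.modEq_iff_dvd' h2).2 h1
  have h4 := digit_mod (j + 1) (z.appr m) j (by omega)
  have h5 := digit_mod (j + 1) (z.appr (j + 1)) j (by omega)
  have h6 : z.appr m % 3 ^ (j + 1) = z.appr (j + 1) % 3 ^ (j + 1) := h3.symm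
  rw [← h4, h6, h5]
  exact h j

theorem appr_mul (a m : ℕ) (x : PadicInt 3) :
    ((2 : PadicInt 3) ^ a * x).appr m ≡ 2 ^ a * x.appr m [MOD 3 ^ m] := by
  have h1 := PadicInt.appr_spec m ((2 : PadicInt 3) ^ a * x)
  have h2 : (2 : PadicInt 3) ^ a * x - ((2 ^ a * x.appr m : ℕ) : PadicInt 3)
      ∈ Ideal.span {((3 : ℕ) : PadicInt 3) ^ m} := by
    have h3 := Ideal.mul_mem_left _ ((2 : PadicInt 3) ^ a) (PadicInt.appr_spec m x)
    have h4 : (2 : PadicInt 3) ^ a * x - ((2 ^ a * x.appr m : ℕ) : PadicInt 3)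
        = (2 : PadicInt 3) ^ a * (x - x.appr m) := by
      push_cast; ring
    rw [h4]
    exact h3
  have h5 := PadicInt.zmod_congr_of_sub_mem_span m _ _ _ h1 h2
  exact (ZMod.natCast_eq_natCast_iff _ _ _).1 h5

theorem norm_sub_le_of_appr_eq (x y : PadicInt 3) (m : ℕ) (h : x.appr m = y.appr m) :
    ‖x - y‖ ≤ (1 / 3 : ℝ) ^ m := by
  have h1 := PadicInt.appr_spec m x
  have h2 := PadicInt.appr_spec m y
  have h3 : x - y ∈ Ideal.span {((3 : ℕ) : PadicInt 3) ^ m} := by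
    have h4 := Ideal.sub_mem _ h1 h2
    rw [h] at h4
    have h5 : x - (y.appr m : PadicInt 3) - (y - (y.appr m : PadicInt 3)) = x - y := by ring
    rwa [h5] at h4
  have h6 := (PadicInt.norm_le_pow_iff_mem_span_pow (x - y) m).2 h3
  refine h6.trans (le_of_eq ?_)
  rw [zpow_neg, zpow_natCast, one_div, inv_pow]
  norm_num

/-- the ratio `1/3` -/
noncomputable def rho : ENNReal := ENNReal.ofReal (1 / 3)

theorem dimH_XA_le (A : Finset ℕ) (m0 : ℕ) (hm0 : 1 ≤ m0) (d : NNReal)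
    (h : (NN A m0 : ENNReal) * (rho ^ m0) ^ (d : ℝ) ≤ 1) : dimH (XA A) ≤ d := by
  borelize (PadicInt 3)
  refine dimH_le_of_hausdorffMeasure_ne_top ?_
  set T : ℕ → Finset ℕ := fun J => (range (3 ^ (m0 * J))).filter
    (fun w => ∀ a ∈ A, IsC (m0 * J) ((fun _ => 0) a + 2 ^ a * w)) with hT
  have hTcard : ∀ J, (T J).card ≤ NN A m0 ^ J := fun J =>
    (cnt_le_NN A (fun _ => 0) (m0 * J)).trans (NN_mul A m0 J)
  set t : ∀ J : ℕ, {w // w ∈ T J} → Set (PadicInt 3) := fun J w =>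
    {x | x.appr (m0 * J) = w} with ht
  have hdiam : ∀ J, ∀ i : {w // w ∈ T J}, Metric.ediam (t J i) ≤ rho ^ (m0 * J) := by
    intro J i
    refine Metric.ediam_le ?_
    intro x hx y hy
    rw [edist_dist, dist_eq_norm, rho, ← ENNReal.ofReal_pow (by norm_num)]
    refine ENNReal.ofReal_le_ofReal ?_
    refine norm_sub_le_of_appr_eq x y (m0 * J) ?_
    have hx' : x.appr (m0 * J) = i := hx
    have hy' : y.appr (m0 * J) = i := hy
    rw [hx', hy']
  have hcover : ∀ J, XA A ⊆ ⋃ i, t J i := by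
    intro J x hx
    rw [Set.mem_iUnion]
    refine ⟨⟨x.appr (m0 * J), ?_⟩, rfl⟩
    rw [hT, Finset.mem_filter, Finset.mem_range]
    refine ⟨PadicInt.appr_lt x _, fun a ha => ?_⟩
    rw [zero_add]
    exact (isC_congr (appr_mul a (m0 * J) x)).1 (isC_appr _ (hx a ha) _)
  have hrho : rho < 1 := by
    unfold rho
    rw [ENNReal.ofReal_lt_one]
    norm_num
  have htend : Tendsto (fun J : ℕ => rho ^ (m0 * J)) atTop (nhds 0) := by
    have h1 : rho ^ m0 < 1 := pow_lt_one₀ zero_le hrho (by omega)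
    have h2 := ENNReal.tendsto_pow_atTop_nhds_zero_of_lt_one h1
    refine h2.congr fun J => ?_
    rw [pow_mul]
  have hmain := Measure.hausdorffMeasure_le_liminf_sum (d : ℝ) (XA A) (l := atTop)
    (fun J : ℕ => rho ^ (m0 * J)) htend t (Eventually.of_forall hdiam)
    (Eventually.of_forall hcover)
  have hle1 : ∀ J : ℕ, ∑ i : {w // w ∈ T J}, Metric.ediam (t J i) ^ (d : ℝ) ≤ 1 := by
    intro J
    calc ∑ i : {w // w ∈ T J}, Metric.ediam (t J i) ^ (d : ℝ)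
        ≤ ∑ _i : {w // w ∈ T J}, (rho ^ (m0 * J)) ^ (d : ℝ) :=
          Finset.sum_le_sum fun i _ => ENNReal.rpow_le_rpow (hdiam J i) d.2
      _ = (T J).card * (rho ^ (m0 * J)) ^ (d : ℝ) := by
          rw [Finset.sum_const, Finset.card_univ, Fintype.card_coe, nsmul_eq_mul]
      _ ≤ ((NN A m0 ^ J : ℕ) : ENNReal) * (rho ^ (m0 * J)) ^ (d : ℝ) := by
          gcongr
          exact_mod_cast hTcard J
      _ = ((NN A m0 : ENNReal) * (rho ^ m0) ^ (d : ℝ)) ^ J := by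
          rw [mul_pow, Nat.cast_pow, pow_mul]
          congr 1
          rw [← ENNReal.rpow_natCast (rho ^ m0) J, ← ENNReal.rpow_mul, mul_comm,
            ENNReal.rpow_mul, ENNReal.rpow_natCast]
      _ ≤ 1 := pow_le_one₀ zero_le h
  have hfin : liminf (fun J : ℕ => ∑ i : {w // w ∈ T J}, Metric.ediam (t J i) ^ (d : ℝ)) atTop ≤ 1 := by
    refine liminf_le_of_le (by isBoundedDefault) ?_
    intro b hb
    obtain ⟨J, hJ⟩ := hb.exists
    exact hJ.trans (hle1 J)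
  exact ne_top_of_le_ne_top ENNReal.one_ne_top (hmain.trans hfin)

theorem dimH_Ek_le (k : ℕ) (h : NNReal)
    (hG : ∀ A : Finset ℕ, A.card = k → ∃ m : ℕ, 1 ≤ m ∧ (NN A m : ℝ) ≤ Real.exp (h * m)) :
    dimH {x : PadicInt 3 |
          (k : ℕ∞) ≤ {n : ℕ | ∀ j : ℕ,
            ((2 : PadicInt 3) ^ n * x).appr (j + 1) / 3 ^ j % 3 ≠ 2}.encard} ≤ h := by
  have hsub : {x : PadicInt 3 | (k : ℕ∞) ≤ {n : ℕ | ∀ j : ℕ,
            ((2 : PadicInt 3) ^ n * x).appr (j + 1) / 3 ^ j % 3 ≠ 2}.encard}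
      ⊆ ⋃ A : {A : Finset ℕ // A.card = k}, XA A := by
    intro x hx
    obtain ⟨t, hts, htk⟩ := Set.exists_subset_encard_eq hx
    have htfin : t.Finite := Set.finite_of_encard_eq_coe htk
    rw [Set.mem_iUnion]
    refine ⟨⟨htfin.toFinset, ?_⟩, ?_⟩
    · rw [htfin.encard_eq_coe_toFinset_card] at htk
      exact_mod_cast htk
    · intro a ha j
      have h1 : a ∈ t := htfin.mem_toFinset.1 ha
      exact hts h1 j
  refine (dimH_mono hsub).trans ?_
  rw [dimH_iUnion]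
  refine iSup_le fun A => ?_
  obtain ⟨m, hm, hNN⟩ := hG A A.2
  refine dimH_XA_le A m hm h ?_
  have h1 : (NN (A : Finset ℕ) m : ENNReal) = ENNReal.ofReal (NN (A : Finset ℕ) m : ℝ) := by
    rw [ENNReal.ofReal_natCast]
  have h2 : (rho ^ m) ^ (h : ℝ) = ENNReal.ofReal (((1 / 3 : ℝ) ^ m) ^ (h : ℝ)) := by
    rw [rho, ← ENNReal.ofReal_pow (by norm_num), ENNReal.ofReal_rpow_of_pos (by positivity)]
  rw [h1, h2, ← ENNReal.ofReal_mul (by positivity), ← ENNReal.ofReal_one]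
  refine ENNReal.ofReal_le_ofReal ?_
  have h3 : ((1 / 3 : ℝ) ^ m) ^ (h : ℝ) ≤ Real.exp (-(h * m)) := by
    have h4 : (1 / 3 : ℝ) ≤ Real.exp (-1) := by
      rw [Real.exp_neg, one_div]
      have h5 := Real.exp_one_lt_d9
      apply inv_anti₀ (Real.exp_pos 1)
      linarith
    calc ((1 / 3 : ℝ) ^ m) ^ (h : ℝ) ≤ ((Real.exp (-1)) ^ m) ^ (h : ℝ) := by
          gcongr
      _ = Real.exp (-(h * m)) := by
          rw [← Real.exp_nat_mul, ← Real.exp_mul]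
          congr 1
          ring
  calc (NN (A : Finset ℕ) m : ℝ) * ((1 / 3 : ℝ) ^ m) ^ (h : ℝ)
      ≤ Real.exp (h * m) * Real.exp (-(h * m)) := by
        gcongr
    _ = 1 := by rw [← Real.exp_add, add_neg_cancel, Real.exp_zero]

theorem tendsto_of_G (hG : ∀ h : ℝ, 0 < h → ∃ k : ℕ, ∀ A : Finset ℕ, k ≤ A.card →
      ∃ m : ℕ, 1 ≤ m ∧ (NN A m : ℝ) ≤ Real.exp (h * m)) :
    Filter.Tendsto
      (fun k : ℕ =>
        dimH {x : PadicInt 3 |
          (k : ℕ∞) ≤ {n : ℕ | ∀ j : ℕ,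
            ((2 : PadicInt 3) ^ n * x).appr (j + 1) / 3 ^ j % 3 ≠ 2}.encard})
      Filter.atTop (nhds 0) := by
  rw [ENNReal.tendsto_nhds_zero]
  intro ε hε
  obtain ⟨h, hh0, hhε⟩ := ENNReal.lt_iff_exists_nnreal_btwn.1 hε
  have hhpos : 0 < (h : ℝ) := by exact_mod_cast hh0
  obtain ⟨k, hk⟩ := hG h hhpos
  rw [Filter.eventually_atTop]
  refine ⟨k, fun k' hk' => ?_⟩
  refine (dimH_Ek_le k' h fun A hA => hk A (by omega)).trans hhε.le

end Pool.Agent.Lib_ca68af
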