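import Pool.Agent.Lib_ca68af.Struct
import Pool.Agent.Lib_ca68af.Dioph

/-!
Logarithmic form of the structural inequality.
-/

namespace Pool.Agent.Lib_ca68af

open Finset

theorem log_form (A : Finset ℕ) (j s : ℕ) (hsA : s ∈ A) (hmin : ∀ a ∈ A, s ≤ a)
    (g l r t n m w Sn : ℕ) (lo hi : ℕ → ℕ) (X : ℝ) (hX : 1 ≤ X) (hr : 1 ≤ r) (ht : 1 ≤ t)
    (hSn : 1 ≤ Sn) (hn : n = 2 * r * (g + l)) (hl : l = m * w) (hm : 1 ≤ m)
    (hg : ∀ a ∈ A, a - s ≤ g)
    (hdisj : ∀ i < Sn, ∀ i' < Sn, i ≠ i' → hi i ≤ lo i' ∨ hi i' ≤ lo i)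
    (hlohi : ∀ i < Sn, lo i ≤ hi i)
    (hwin : ∀ k < r, ∀ i < Sn, k * (g + l) + g + hi i ≤ n)
    (hdio : ∀ i < Sn, ∀ P R : ℤ, P ≠ 0 → R ≠ 0 → |P| < 3 ^ (lo i) → |R| < 3 ^ (lo i) →
      ¬ (3 : ℤ) ^ (hi i) ∣ 2 ^ ((j - s) + (s - j)) * P - R)
    (hllo : ∀ i < Sn, l ≤ lo i)
    (h1 : 1 ≤ NN A l) (h2 : 1 ≤ NN A m) (h3 : 1 ≤ NN (insert j A) n) :
    Real.log (NN A l) ≤ ((t : ℝ) + 1) ^ r * (2 * r * g * Real.log 2 + 2 * r * A.card * Real.log 2
      + n * (Real.log (NN A m) / m) - Real.log (NN (insert j A) n))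
      + Real.log (r * Sn * t) + n / t * Real.log X + n / (r * Sn) * Real.log 3 + n * (2 / X) := by
  obtain ⟨c, hc⟩ := exists_cnt_eq (insert j A) n
  set a1 := n / (r * Sn) with ha1
  set b1 := n / t with hb1
  set PR : ℝ := X ^ b1 * 3 ^ a1 * (1 + 2 / X) ^ n with hPR
  have hX0 : 0 < X := by linarith
  have h2X : 0 < 2 / X := by positivity
  have hPR1 : 1 ≤ PR := by
    have e1 : 1 ≤ X ^ b1 := one_le_pow₀ hX
    have e2 : (1 : ℝ) ≤ 3 ^ a1 := one_le_pow₀ (by norm_num)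
    have e3 : 1 ≤ (1 + 2 / X) ^ n := one_le_pow₀ (by linarith)
    calc (1 : ℝ) = 1 * 1 * 1 := by ring
      _ ≤ X ^ b1 * 3 ^ a1 * (1 + 2 / X) ^ n := by gcongr
  have hPat : ∀ V : Finset (Fin n), V.card ≤ a1 → (patterns n V b1).card ≤ ⌊PR⌋₊ := by
    intro V hV
    refine Nat.le_floor ?_
    refine (patterns_card_le n V b1 X hX).trans ?_
    rw [hPR]
    have : (3 : ℝ) ^ V.card ≤ 3 ^ a1 := pow_le_pow_right₀ (by norm_num) hV
    gcongr
  have hstr := structural A s j hsA hmin c g l r t n hn hg Sn a1 b1 ⌊PR⌋₊ lo hi hdisj hlohi hwin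
    hdio hllo (by
      rw [ha1]
      have := Nat.lt_succ_self (n / (r * Sn))
      exact (Nat.div_lt_iff_lt_mul (by positivity)).1 this)
    (by
      rw [hb1]
      have := Nat.lt_succ_self (n / t)
      exact (Nat.div_lt_iff_lt_mul (by omega)).1 this) hPat h1
  rw [hc] at hstr
  set N' := NN (insert j A) n with hN'
  set Nl := NN A l with hNl
  set Nm := NN A m with hNm
  have hN'pos : (0 : ℝ) < N' := by exact_mod_cast h3
  have hNlpos : (0 : ℝ) < Nl := by exact_mod_cast h1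
  have hNmpos : (0 : ℝ) < Nm := by exact_mod_cast h2
  have hstrR : (N' : ℝ) ^ ((t + 1) ^ r) * (2 ^ A.card * Nl)
      ≤ ((2 ^ g) ^ (2 * r) * (2 ^ A.card * (Nl : ℝ)) ^ r) ^ ((t + 1) ^ r)
        * (r * Sn * t * PR) * (2 ^ A.card * (Nl : ℝ)) ^ (r * (t + 1) ^ r) := by
    have hR : (N' : ℝ) ^ ((t + 1) ^ r) * (2 ^ A.card * Nl)
      ≤ ((2 ^ g) ^ (2 * r) * (2 ^ A.card * (Nl : ℝ)) ^ r) ^ ((t + 1) ^ r)
        * (r * Sn * t * (⌊PR⌋₊ : ℝ)) * (2 ^ A.card * (Nl : ℝ)) ^ (r * (t + 1) ^ r) := by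
      exact_mod_cast hstr
    refine hR.trans ?_
    have hfl : (⌊PR⌋₊ : ℝ) ≤ PR := Nat.floor_le (by linarith)
    gcongr
  have hQpos : (0 : ℝ) < 2 ^ A.card * (Nl : ℝ) := by positivity
  have hrR : (0 : ℝ) < r := by exact_mod_cast hr
  have htR : (0 : ℝ) < t := by exact_mod_cast ht
  have hSnR : (0 : ℝ) < Sn := by exact_mod_cast hSn
  have hPRpos : (0 : ℝ) < PR := by linarith
  have hlog := Real.log_le_log (by positivity) hstrR
  rw [Real.log_mul (by positivity) (by positivity), Real.log_pow,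
    Real.log_mul (x := ((2 ^ g) ^ (2 * r) * (2 ^ A.card * (Nl : ℝ)) ^ r) ^ ((t + 1) ^ r)
        * (r * Sn * t * PR)) (by positivity) (by positivity),
    Real.log_mul (x := ((2 ^ g) ^ (2 * r) * (2 ^ A.card * (Nl : ℝ)) ^ r) ^ ((t + 1) ^ r))
      (by positivity) (by positivity),
    Real.log_pow, Real.log_mul (x := ((2 : ℝ) ^ g) ^ (2 * r)) (by positivity) (by positivity),
    Real.log_pow, Real.log_pow, Real.log_pow, Real.log_pow,
    Real.log_mul (x := (r * Sn * t : ℝ)) (by positivity) (by positivity)] at hlog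
  set q := Real.log (2 ^ A.card * (Nl : ℝ)) with hq
  have hqval : q = A.card * Real.log 2 + Real.log Nl := by
    rw [hq, Real.log_mul (by positivity) (by positivity), Real.log_pow]
  have hlog2 : 0 < Real.log 2 := Real.log_pos (by norm_num)
  have hlogX : 0 ≤ Real.log X := Real.log_nonneg hX
  have hlog3 : 0 < Real.log 3 := Real.log_pos (by norm_num)
  have hlogPR : Real.log PR ≤ n / t * Real.log X + n / (r * Sn) * Real.log 3 + n * (2 / X) := by
    rw [hPR, Real.log_mul (by positivity) (by positivity),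
      Real.log_mul (by positivity) (by positivity), Real.log_pow, Real.log_pow, Real.log_pow]
    have e1 : ((b1 : ℕ) : ℝ) ≤ n / t := by
      rw [hb1]; exact Nat.cast_div_le
    have e2 : ((a1 : ℕ) : ℝ) ≤ n / (r * Sn) := by
      rw [ha1]
      refine Nat.cast_div_le.trans (le_of_eq ?_)
      push_cast
      ring
    have e3 : Real.log (1 + 2 / X) ≤ 2 / X := by
      have := Real.log_le_sub_one_of_pos (by positivity : 0 < 1 + 2 / X)
      linarith
    gcongr
  have hNlw : Real.log Nl ≤ l * (Real.log Nm / m) := by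
    have e1 : (Nl : ℝ) ≤ (Nm : ℝ) ^ w := by
      have := NN_mul A m w
      rw [← hl] at this
      exact_mod_cast this
    have e2 := Real.log_le_log hNlpos e1
    rw [Real.log_pow] at e2
    have hmR : (0 : ℝ) < m := by exact_mod_cast hm
    refine e2.trans (le_of_eq ?_)
    rw [hl]
    push_cast
    field_simp
  have hE0 : 0 ≤ Real.log Nm / m := by
    have : 0 ≤ Real.log Nm := Real.log_nonneg (by exact_mod_cast h2)
    positivity
  have h2rl : 2 * (r : ℝ) * l ≤ n := by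
    have : 2 * r * l ≤ n := by rw [hn]; exact Nat.mul_le_mul_left _ (by omega)
    exact_mod_cast this
  have h2rq : 2 * (r : ℝ) * q ≤ 2 * r * A.card * Real.log 2 + n * (Real.log Nm / m) := by
    rw [hqval]
    have e1 : 2 * (r : ℝ) * Real.log Nl ≤ 2 * r * (l * (Real.log Nm / m)) := by gcongr
    have e2 : 2 * (r : ℝ) * (l * (Real.log Nm / m)) ≤ n * (Real.log Nm / m) := by
      calc 2 * (r : ℝ) * (l * (Real.log Nm / m)) = (2 * (r : ℝ) * l) * (Real.log Nm / m) := by ring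
        _ ≤ n * (Real.log Nm / m) := mul_le_mul_of_nonneg_right h2rl hE0
    nlinarith
  have hTr : (0 : ℝ) < ((t : ℝ) + 1) ^ r := by positivity
  have hNq : Real.log Nl ≤ q := by
    rw [hqval]
    have : 0 ≤ (A.card : ℝ) * Real.log 2 := by positivity
    linarith
  push_cast at hlog
  have hstep : q ≤ ((t : ℝ) + 1) ^ r * (2 * r * g * Real.log 2 + 2 * r * q - Real.log N')
      + Real.log (r * Sn * t) + Real.log PR := by
    nlinarith [hlog]
  have hstep2 : ((t : ℝ) + 1) ^ r * (2 * r * g * Real.log 2 + 2 * r * q - Real.log N')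
      ≤ ((t : ℝ) + 1) ^ r * (2 * r * g * Real.log 2 + 2 * r * A.card * Real.log 2
      + n * (Real.log Nm / m) - Real.log N') := by
    refine mul_le_mul_of_nonneg_left ?_ hTr.le
    linarith
  linarith

end Pool.Agent.Lib_ca68af
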