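import Mathlib

/-!
Selection of a subfamily with rapidly increasing scales.
-/

namespace Pool.Agent.Lib_ca68af

open Finset

/-- `j 0, ..., j K` have increasing scales `u i`. -/
def Scaled (G U K : ℕ) (j u : ℕ → ℕ) : Prop :=
  u 0 = 0 ∧ ∀ i < K, (j 0 + 2 ^ (u (i + 1)) ≤ j (i + 1) ∨ j (i + 1) + 2 ^ (u (i + 1)) ≤ j 0) ∧
    j (i + 1) < j 0 + 2 ^ (u (i + 1) + 1) ∧ j 0 < j (i + 1) + 2 ^ (u (i + 1) + 1) ∧
    U ≤ u (i + 1) ∧ u i + G ≤ u (i + 1)

theorem selection (G U : ℕ) (hGU : G ≤ U) : ∀ K : ℕ, ∃ k : ℕ, 1 ≤ k ∧ ∀ A : Finset ℕ, k ≤ A.card →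
    ∃ j u : ℕ → ℕ, (∀ i ≤ K, j i ∈ A) ∧ Scaled G U K j u := by
  intro K
  induction K with
  | zero =>
    refine ⟨1, le_refl _, fun A hA => ?_⟩
    obtain ⟨a, ha⟩ : A.Nonempty := Finset.card_pos.1 (by omega)
    exact ⟨fun _ => a, fun _ => 0, fun i _ => ha, rfl, fun i hi => by omega⟩
  | succ K ih =>
    obtain ⟨k, hk1, hk⟩ := ih
    have hp1 : 0 < 2 ^ (G + 3) := by positivity
    have hp2 : 0 < 2 ^ (U + 3) := by positivity
    have hp3 : 0 ≤ 2 ^ (G + 3) * k := Nat.zero_le _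
    refine ⟨2 ^ (G + 3) * k + (2 ^ (U + 3) + 2), Nat.le_add_left_of_le (Nat.le_add_left_of_le (by norm_num)),
      fun A hA => ?_⟩
    have hAne : A.Nonempty := Finset.card_pos.1 (lt_of_lt_of_le (by positivity) hA)
    set m0 := A.min' hAne with hm0
    set M0 := A.max' hAne with hM0
    have hm0A : m0 ∈ A := A.min'_mem hAne
    have hM0A : M0 ∈ A := A.max'_mem hAne
    have hle : ∀ a ∈ A, m0 ≤ a ∧ a ≤ M0 := fun a ha => ⟨A.min'_le a ha, A.le_max' a ha⟩
    have hmM : m0 ≤ M0 := (hle m0 hm0A).2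
    obtain ⟨D, hD⟩ : ∃ D, M0 = m0 + D := ⟨M0 - m0, by omega⟩
    have hcard : A.card ≤ D + 1 := by
      have hsub : A ⊆ Finset.Icc m0 M0 := fun a ha => Finset.mem_Icc.2 (hle a ha)
      have := Finset.card_le_card hsub
      rw [Nat.card_Icc] at this
      omega
    set q := D / 2 ^ (G + 3) + 1 with hq
    have hqpos : 0 < q := Nat.succ_pos _
    have hDq : D < q * 2 ^ (G + 3) := by
      rw [hq]
      have := Nat.lt_succ_self (D / 2 ^ (G + 3))
      exact (Nat.div_lt_iff_lt_mul (by positivity)).1 this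
    have hmaps : ∀ a ∈ A, (a - m0) / q ∈ range (2 ^ (G + 3)) := by
      intro a ha
      rw [Finset.mem_range, Nat.div_lt_iff_lt_mul hqpos]
      have h1 := hle a ha
      have h2 : a - m0 ≤ D := by omega
      calc a - m0 ≤ D := h2
        _ < q * 2 ^ (G + 3) := hDq
        _ = 2 ^ (G + 3) * q := mul_comm _ _
    obtain ⟨v, _, hv⟩ := Finset.exists_le_card_fiber_of_mul_le_card_of_maps_to (n := k) hmaps
      (by simp) (by rw [Finset.card_range]; omega)
    set A' := A.filter (fun a => (a - m0) / q = v) with hA'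
    have hclose : ∀ a ∈ A', ∀ b ∈ A', a < b + q := by
      intro a ha b hb
      rw [hA', Finset.mem_filter] at ha hb
      have h1 := Nat.div_add_mod (a - m0) q
      have h2 := Nat.div_add_mod (b - m0) q
      rw [ha.2] at h1
      rw [hb.2] at h2
      have h3 := Nat.mod_lt (a - m0) hqpos
      have h4 := hle a ha.1
      have h5 := hle b hb.1
      generalize q * v = z at h1 h2
      omega
    obtain ⟨j, u, hjA, hu0, hju⟩ := hk A' hv
    have hjA2 : ∀ i ≤ K, j i ∈ A := fun i hi => (Finset.mem_filter.1 (hjA i hi)).1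
    have hj0 := hle (j 0) (hjA2 0 (by omega))
    -- the far endpoint
    obtain ⟨x, hxA, hx1, hx2⟩ : ∃ x ∈ A, (j 0 ≤ x ∨ x ≤ j 0) ∧
        (D ≤ 2 * (x - j 0) ∨ D ≤ 2 * (j 0 - x)) := by
      by_cases h : D ≤ 2 * (j 0 - m0)
      · exact ⟨m0, hm0A, Or.inr hj0.1, Or.inr h⟩
      · exact ⟨M0, hM0A, Or.inl hj0.2, Or.inl (by omega)⟩
    set δ := (x - j 0) + (j 0 - x) with hδ
    have hδD : D ≤ 2 * δ := by omega
    have hU3 : 2 ^ (U + 3) + 1 ≤ D := by omega
    have hδpos : δ ≠ 0 := by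
      have : 0 < 2 ^ (U + 3) := by positivity
      omega
    set w := Nat.log 2 δ with hw
    have hw1 : 2 ^ w ≤ δ := Nat.pow_log_le_self 2 hδpos
    have hw2 : δ < 2 ^ (w + 1) := Nat.lt_pow_succ_log_self (by norm_num) δ
    have hw3 : D < 2 ^ (w + 2) := by
      have : 2 ^ (w + 2) = 2 * 2 ^ (w + 1) := by ring
      omega
    have hUw : U ≤ w := by
      by_contra hcon
      push Not at hcon
      have : 2 ^ (w + 2) ≤ 2 ^ (U + 3) := Nat.pow_le_pow_right (by norm_num) (by omega)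
      omega
    have hKw : u K + G ≤ w := by
      rcases Nat.eq_zero_or_pos K with h0 | hpos
      · rw [h0, hu0]; omega
      · obtain ⟨K', rfl⟩ : ∃ K', K = K' + 1 := ⟨K - 1, by omega⟩
        obtain ⟨h1, _, _, _, _⟩ := hju K' (by omega)
        have h2 := hclose (j (K' + 1)) (hjA _ (le_refl _)) (j 0) (hjA 0 (by omega))
        have h3 := hclose (j 0) (hjA 0 (by omega)) (j (K' + 1)) (hjA _ (le_refl _))
        have h4 : 2 ^ (u (K' + 1)) ≤ D / 2 ^ (G + 3) := by omega
        have h5 : 2 ^ (u (K' + 1)) * 2 ^ (G + 3) ≤ D := by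
          calc 2 ^ (u (K' + 1)) * 2 ^ (G + 3) ≤ D / 2 ^ (G + 3) * 2 ^ (G + 3) :=
                Nat.mul_le_mul_right _ h4
            _ ≤ D := Nat.div_mul_le_self _ _
        rw [← pow_add] at h5
        by_contra hcon
        push Not at hcon
        have : 2 ^ (w + 2) ≤ 2 ^ (u (K' + 1) + (G + 3)) :=
          Nat.pow_le_pow_right (by norm_num) (by omega)
        omega
    refine ⟨fun i => if i ≤ K then j i else x, fun i => if i ≤ K then u i else w, ?_, ?_, ?_⟩
    · intro i _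
      dsimp only
      split_ifs with h
      · exact hjA2 i h
      · exact hxA
    · simp [hu0]
    · intro i hi
      have h0 : (0 : ℕ) ≤ K := Nat.zero_le K
      by_cases hiK : i < K
      · have h1 : i + 1 ≤ K := by omega
        have h2 : i ≤ K := by omega
        simp only [h0, h1, h2, if_true]
        exact hju i hiK
      · have h1 : ¬ (i + 1 ≤ K) := by omega
        have h2 : i ≤ K := by omega
        have h3 : i = K := by omega
        simp only [h0, h1, h2, if_true, if_false]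
        rw [h3]
        refine ⟨?_, ?_, ?_, hUw, hKw⟩ <;> omega

end Pool.Agent.Lib_ca68af
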