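import Pool.Agent.Lib_ca68af.LogForm
import Pool.Agent.Lib_ca68af.Select
import Pool.Agent.Lib_ca68af.Haus

/-!
Assembly.
-/

namespace Pool.Agent.Lib_ca68af

open Finset

theorem exists_yseq : ∃ (y n0 : ℕ → ℕ), y 0 = 1 ∧ (∀ s, y s < y (s + 1)) ∧
    ∀ s, ∀ n ≥ n0 s, 2 ^ y (s + 1) ∣ n → ∀ e : ℕ, n ≤ 2 * e → e ≤ 4 * n →
    ∀ P Q : ℤ, P ≠ 0 → Q ≠ 0 → |P| < 3 ^ (n / 2 ^ y (s + 1)) → |Q| < 3 ^ (n / 2 ^ y (s + 1)) →
      ¬ (3 : ℤ) ^ (n / 2 ^ y s) ∣ 2 ^ e * P - Q := by
  choose f hf n0 hn0 using dioph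
  refine ⟨fun s => f^[s] 1, fun s => n0 (f^[s] 1), rfl, fun s => ?_, fun s n hn => ?_⟩
  · dsimp only
    rw [Function.iterate_succ_apply']
    exact hf _
  · dsimp only
    rw [Function.iterate_succ_apply']
    exact hn0 _ n hn

theorem exists_small_drop (E : ℕ → ℝ) (K : ℕ) (hK : 1 ≤ K) (h0 : E 0 ≤ 1) (hKpos : 0 < E K) :
    ∃ i < K, E i - E (i + 1) ≤ 1 / K := by
  by_contra hcon
  push Not at hcon
  have h1 : ∑ i ∈ range K, (1 / K : ℝ) < ∑ i ∈ range K, (E i - E (i + 1)) :=
    Finset.sum_lt_sum_of_nonempty (by simp; omega) fun i hi => hcon i (Finset.mem_range.1 hi)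
  rw [Finset.sum_range_sub', Finset.sum_const, Finset.card_range, nsmul_eq_mul] at h1
  have hKR : (K : ℝ) ≠ 0 := by
    have : (0 : ℝ) < K := by exact_mod_cast hK
    exact this.ne'
  rw [mul_one_div_cancel hKR] at h1
  linarith

theorem numeric (h rR T g l n AR Di L4 tR LX SnR X K ñ twoG : ℝ) (hh : 0 < h) (hr : 1 ≤ rR)
    (hT : 1 ≤ T) (ht : 0 < tR) (hSn : 0 < SnR) (hX : 0 < X) (hK : 0 < K)
    (hn : 0 < n) (log2 log3 : ℝ) (hlog2 : log2 ≤ 1) (hlog20 : 0 ≤ log2) (hlog3 : log3 ≤ 2)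
    (h2rl : 2 * rR * l = n - 2 * rR * g) (hg : g = 4 * ñ) (hñ : 0 ≤ ñ) (hñn : ñ * twoG ≤ n)
    (hI : h * l ≤ T * (2 * rR * g * log2 + 2 * rR * AR * log2 + Di) + L4 + n / tR * LX
      + n / (rR * SnR) * log3 + n * (2 / X))
    (c1 : 64 / h ≤ SnR) (c2 : 64 * rR / h ≤ X) (c3 : 32 * rR * LX / h ≤ tR)
    (c4 : 32 * rR * T / h ≤ K) (c5 : 256 * rR ^ 2 * T / h ≤ twoG) (c5b : 128 * rR ≤ twoG)
    (hAR0 : 0 ≤ AR)
    (c6 : 64 * rR ^ 2 * T * AR / h ≤ n) (c7 : 32 * rR * L4 / h ≤ n) (hDi : Di ≤ n / K) : False := by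
  rw [div_le_iff₀ hh] at c1 c2 c3 c4 c5 c6 c7
  have b5 : 2 * rR * g ≤ n / 16 := by
    have : ñ * (128 * rR) ≤ ñ * twoG := mul_le_mul_of_nonneg_left c5b hñ
    rw [hg]; linarith
  have T1 : 2 * rR * (T * (2 * rR * g * log2)) ≤ h * n / 16 := by
    have e1 : ñ * (256 * rR ^ 2 * T) ≤ ñ * (twoG * h) := mul_le_mul_of_nonneg_left c5 hñ
    have e2 : ñ * (twoG * h) ≤ n * h := by
      have := mul_le_mul_of_nonneg_right hñn hh.le
      linarith
    have e3 : 2 * rR * (T * (2 * rR * g * log2)) = (16 * (rR ^ 2 * T * ñ)) * log2 := by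
      rw [hg]; ring
    have e4 : 0 ≤ rR ^ 2 * T * ñ := by positivity
    rw [e3]
    nlinarith
  have T2 : 2 * rR * (T * (2 * rR * AR * log2)) ≤ h * n / 16 := by
    have e3 : 2 * rR * (T * (2 * rR * AR * log2)) = (4 * (rR ^ 2 * T * AR)) * log2 := by ring
    have e4 : 0 ≤ rR ^ 2 * T * AR := by positivity
    rw [e3]
    nlinarith
  have T3 : 2 * rR * (T * Di) ≤ h * n / 16 := by
    have e1 : 2 * rR * (T * Di) ≤ 2 * rR * (T * (n / K)) := by gcongr
    have e2 : 2 * rR * (T * (n / K)) = (32 * rR * T) * (n / K) / 16 := by ring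
    have e3 : (32 * rR * T) * (n / K) ≤ (K * h) * (n / K) := by gcongr
    have e4 : (K * h) * (n / K) = h * n := by field_simp
    linarith
  have T4 : 2 * rR * L4 ≤ h * n / 16 := by linarith
  have T5 : 2 * rR * (n / tR * LX) ≤ h * n / 16 := by
    have e2 : 2 * rR * (n / tR * LX) = (32 * rR * LX) * (n / tR) / 16 := by ring
    have e3 : (32 * rR * LX) * (n / tR) ≤ (tR * h) * (n / tR) := by gcongr
    have e4 : (tR * h) * (n / tR) = h * n := by field_simp
    linarith
  have T6 : 2 * rR * (n / (rR * SnR) * log3) ≤ h * n / 16 := by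
    have hrR : 0 < rR := by linarith
    have e1 : 2 * rR * (n / (rR * SnR) * log3) = 2 * log3 * (n / SnR) := by
      field_simp
    have e2 : 2 * log3 * (n / SnR) ≤ 4 * (n / SnR) := by
      have : 0 < n / SnR := by positivity
      nlinarith
    have e3 : 64 * (n / SnR) ≤ (SnR * h) * (n / SnR) := by gcongr
    have e4 : (SnR * h) * (n / SnR) = h * n := by field_simp
    linarith
  have T7 : 2 * rR * (n * (2 / X)) ≤ h * n / 16 := by
    have e2 : 2 * rR * (n * (2 / X)) = (64 * rR) * (n / X) / 16 := by ring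
    have e3 : (64 * rR) * (n / X) ≤ (X * h) * (n / X) := by gcongr
    have e4 : (X * h) * (n / X) = h * n := by field_simp
    linarith
  have hI2 : 2 * rR * (h * l) ≤ 2 * rR * (T * (2 * rR * g * log2 + 2 * rR * AR * log2 + Di) + L4
      + n / tR * LX + n / (rR * SnR) * log3 + n * (2 / X)) :=
    mul_le_mul_of_nonneg_left hI (by linarith)
  have hexp : 2 * rR * (T * (2 * rR * g * log2 + 2 * rR * AR * log2 + Di) + L4
      + n / tR * LX + n / (rR * SnR) * log3 + n * (2 / X))
      = 2 * rR * (T * (2 * rR * g * log2)) + 2 * rR * (T * (2 * rR * AR * log2))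
        + 2 * rR * (T * Di) + 2 * rR * L4 + 2 * rR * (n / tR * LX)
        + 2 * rR * (n / (rR * SnR) * log3) + 2 * rR * (n * (2 / X)) := by ring
  have hlhs : 2 * rR * (h * l) = h * (n - 2 * rR * g) := by rw [← h2rl]; ring
  have hlow : h * (n - 2 * rR * g) ≥ h * (n - n / 16) := by gcongr
  have hhn : 0 < h * n := by positivity
  rw [hlhs, hexp] at hI2
  nlinarith

theorem goalG (h : ℝ) (hh : 0 < h) : ∃ k : ℕ, ∀ A : Finset ℕ, k ≤ A.card →
      ∃ m : ℕ, 1 ≤ m ∧ (NN A m : ℝ) ≤ Real.exp (h * m) := by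
  obtain ⟨y, n0, hy0, hymono, hy⟩ := exists_yseq
  have hyM : StrictMono y := strictMono_nat_of_lt_succ hymono
  have hy1 : ∀ s, 1 ≤ y s := fun s => by
    have := hyM.monotone (Nat.zero_le s)
    omega
  obtain ⟨Sn0, hSn0⟩ := exists_nat_ge (64 / h)
  set Sn := Sn0 + 1 with hSn
  set r := 2 ^ (y Sn - 1) with hr
  have hr1 : 1 ≤ r := Nat.one_le_two_pow
  have h2r : 2 * r = 2 ^ y Sn := by
    rw [hr, ← pow_succ']
    congr 1
    have := hy1 Sn
    omega
  set X : ℝ := 64 * r / h + 1 with hX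
  have hX1 : 1 ≤ X := by
    have : 0 ≤ 64 * (r : ℝ) / h := by positivity
    linarith
  obtain ⟨t0, ht0⟩ := exists_nat_ge (32 * r * Real.log X / h)
  set t := t0 + 1 with ht
  set T : ℝ := ((t : ℝ) + 1) ^ r with hT
  have hT1 : 1 ≤ T := one_le_pow₀ (by
    have : (0 : ℝ) ≤ t := by positivity
    linarith)
  obtain ⟨K0, hK0⟩ := exists_nat_ge (32 * r * T / h)
  set K := K0 + 1 with hK
  obtain ⟨G0, hG0⟩ := exists_nat_ge (256 * (r : ℝ) ^ 2 * T / h)
  set G := G0 + 128 * r + y Sn + 3 with hG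
  obtain ⟨U0, hU0⟩ := exists_nat_ge (64 * (r : ℝ) ^ 2 * T * (K + 1) / h)
  obtain ⟨U1, hU1⟩ := exists_nat_ge (32 * r * Real.log (r * Sn * t) / h)
  set U := G + U0 + U1 + ∑ s ∈ range Sn, n0 s with hU
  obtain ⟨k, hk1, hk⟩ := selection G U (by omega) K
  refine ⟨k, fun 𝒜 h𝒜 => ?_⟩
  by_contra hcon
  push Not at hcon
  obtain ⟨j, u, hjA, hu0, hsc⟩ := hk 𝒜 h𝒜
  set B : ℕ → Finset ℕ := fun i => (range (i + 1)).image j with hB
  have hBsub : ∀ i ≤ K, B i ⊆ 𝒜 := by
    intro i hi a ha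
    rw [hB, Finset.mem_image] at ha
    obtain ⟨i', hi', rfl⟩ := ha
    exact hjA i' (by have := Finset.mem_range.1 hi'; omega)
  have hNNbig : ∀ i ≤ K, ∀ m : ℕ, 1 ≤ m → Real.exp (h * m) < NN (B i) m := by
    intro i hi m hm
    refine lt_of_lt_of_le (hcon m hm) ?_
    exact_mod_cast NN_mono (hBsub i hi) m
  have hNN1 : ∀ i ≤ K, ∀ m : ℕ, 1 ≤ m → 1 ≤ NN (B i) m := by
    intro i hi m hm
    have h1 := hNNbig i hi m hm
    have h2 : (0 : ℝ) < NN (B i) m := lt_trans (Real.exp_pos _) h1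
    have h3 : 0 < NN (B i) m := by exact_mod_cast h2
    exact h3
  have hlogbig : ∀ i ≤ K, ∀ m : ℕ, 1 ≤ m → h * m ≤ Real.log (NN (B i) m) := by
    intro i hi m hm
    have h1 := hNNbig i hi m hm
    have h2 := Real.log_le_log (Real.exp_pos _) h1.le
    rwa [Real.log_exp] at h2
  set E : ℕ → ℝ := fun i => Real.log (NN (B i) (2 ^ u i)) / ((2 ^ u i : ℕ) : ℝ) with hE
  have hlog2le : Real.log 2 ≤ 1 := by
    have := Real.log_le_sub_one_of_pos (by norm_num : (0 : ℝ) < 2)
    linarith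
  have hlog3le : Real.log 3 ≤ 2 := by
    have := Real.log_le_sub_one_of_pos (by norm_num : (0 : ℝ) < 3)
    linarith
  have hlog20 : 0 ≤ Real.log 2 := Real.log_nonneg (by norm_num)
  have hE0 : E 0 ≤ 1 := by
    have h1 : B 0 = {j 0} := by simp [hB]
    have h2 : E 0 = Real.log (NN {j 0} 1) := by
      simp only [hE]
      rw [h1, hu0]
      simp
    rw [h2]
    have h3 : NN {j 0} 1 ≤ 2 := NN_one_le (j 0)
    have h4 : 1 ≤ NN {j 0} 1 := by
      have := hNN1 0 (by omega) 1 (le_refl 1)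
      rwa [h1] at this
    have h5 : Real.log (NN {j 0} 1) ≤ Real.log 2 :=
      Real.log_le_log (by exact_mod_cast h4) (by exact_mod_cast h3)
    linarith
  have hEK : 0 < E K := by
    have h1 := hlogbig K (le_refl K) (2 ^ u K) Nat.one_le_two_pow
    have h2 : (0 : ℝ) < ((2 ^ u K : ℕ) : ℝ) := by positivity
    have h3 : 0 < Real.log (NN (B K) (2 ^ u K)) := lt_of_lt_of_le (by positivity) h1
    simp only [hE]
    positivity
  obtain ⟨i, hiK, hdrop⟩ := exists_small_drop E K (by omega) hE0 hEK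
  -- the scale
  have humono : ∀ a b, a ≤ b → b ≤ K → u a ≤ u b := by
    intro a b hab
    induction b with
    | zero => intro _; have : a = 0 := by omega
              rw [this]
    | succ b ih =>
      intro hbK
      rcases Nat.lt_or_ge b a with h1 | h1
      · have : a = b + 1 := by omega
        rw [this]
      · have h2 := ih h1 (by omega)
        have h3 := (hsc b (by omega)).2.2.2.2
        omega
  obtain ⟨hs1, hs2, hs3, hs4, hs5⟩ := hsc i hiK
  set n := 2 ^ u (i + 1) with hn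
  set m := 2 ^ u i with hm
  have hBclose : ∀ a ∈ B i, a < j 0 + 2 * m ∧ j 0 < a + 2 * m := by
    intro a ha
    rw [hB, Finset.mem_image] at ha
    obtain ⟨i', hi', rfl⟩ := ha
    have hi'' : i' ≤ i := by have := Finset.mem_range.1 hi'; omega
    have hmpos : 0 < m := by positivity
    rcases Nat.eq_zero_or_pos i' with h0 | hpos
    · rw [h0]; omega
    · obtain ⟨i2, rfl⟩ : ∃ i2, i' = i2 + 1 := ⟨i' - 1, by omega⟩
      obtain ⟨_, g2, g3, _, _⟩ := hsc i2 (by omega)
      have h1 : 2 ^ (u (i2 + 1) + 1) ≤ 2 * m := by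
        rw [hm, pow_succ']
        exact Nat.mul_le_mul_left 2 (Nat.pow_le_pow_right (by norm_num)
          (humono (i2 + 1) i hi'' (by omega)))
      omega
  have hBne : (B i).Nonempty := ⟨j 0, by rw [hB, Finset.mem_image]; exact ⟨0, by simp, rfl⟩⟩
  set s := (B i).min' hBne with hs
  have hsB : s ∈ B i := (B i).min'_mem hBne
  have hmin : ∀ a ∈ B i, s ≤ a := fun a ha => (B i).min'_le a ha
  have hmn : 2 ^ G * m ≤ n := by
    rw [hm, hn, ← pow_add]
    exact Nat.pow_le_pow_right (by norm_num) (by omega)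
  have hGbig : 8 ≤ 2 ^ G := by
    calc 8 = 2 ^ 3 := by norm_num
      _ ≤ 2 ^ G := Nat.pow_le_pow_right (by norm_num) (by omega)
  have h8mn : 8 * m ≤ n := (Nat.mul_le_mul_right m hGbig).trans hmn
  have hnU : 2 ^ U ≤ n := Nat.pow_le_pow_right (by norm_num) hs4
  set w := 2 ^ (u (i + 1) - u i - y Sn) - 4 with hw
  set l := m * w with hl
  have hwbig : 8 ≤ 2 ^ (u (i + 1) - u i - y Sn) := by
    calc 8 = 2 ^ 3 := by norm_num
      _ ≤ _ := Nat.pow_le_pow_right (by norm_num) (by omega)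
  have hgl : 4 * m + l = 2 ^ (u (i + 1) - y Sn) := by
    have e1 : 4 * m + l = m * 2 ^ (u (i + 1) - u i - y Sn) := by
      rw [hl, hw, Nat.mul_sub]
      have : m * 4 ≤ m * 2 ^ (u (i + 1) - u i - y Sn) := Nat.mul_le_mul_left _ (by omega)
      omega
    rw [e1, hm, ← pow_add]
    congr 1
    omega
  have hn2 : n = 2 * r * (4 * m + l) := by
    rw [hgl, h2r, ← pow_add, hn]
    congr 1
    omega
  have hyle : ∀ s' < Sn, y (s' + 1) ≤ y Sn := fun s' hs' => hyM.monotone hs'
  have hySnu : y Sn ≤ u (i + 1) := by omega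
  have hlog := log_form (B i) (j (i + 1)) s hsB hmin (4 * m) l r t n m w Sn
    (fun s' => n / 2 ^ y (s' + 1)) (fun s' => n / 2 ^ y s') X hX1 hr1 (by omega) (by omega)
    hn2 hl Nat.one_le_two_pow
    (by
      intro a ha
      have h1 := hBclose a ha
      have h2 := hBclose s hsB
      omega)
    (by
      intro a ha b hb hab
      rcases Nat.lt_or_gt_of_ne hab with h1 | h1
      · right
        exact Nat.div_le_div_left (Nat.pow_le_pow_right (by norm_num) (hyM.monotone h1))
          (by positivity)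
      · left
        exact Nat.div_le_div_left (Nat.pow_le_pow_right (by norm_num) (hyM.monotone h1))
          (by positivity))
    (by
      intro a ha
      exact Nat.div_le_div_left (Nat.pow_le_pow_right (by norm_num) (hymono a).le)
        (by positivity))
    (by
      intro k' hk' s' hs'
      have h1 : n / 2 ^ y s' ≤ n / 2 := by
        refine Nat.div_le_div_left ?_ (by norm_num)
        calc 2 = 2 ^ 1 := by norm_num
          _ ≤ 2 ^ y s' := Nat.pow_le_pow_right (by norm_num) (hy1 s')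
      have h2 : k' * (4 * m + l) + 4 * m ≤ r * (4 * m + l) := by
        calc k' * (4 * m + l) + 4 * m ≤ (k' + 1) * (4 * m + l) := by
              rw [add_mul, one_mul]; omega
          _ ≤ r * (4 * m + l) := Nat.mul_le_mul_right _ hk'
      have h3 : n = 2 * (r * (4 * m + l)) := by rw [hn2]; ring
      have h4 : n / 2 = r * (4 * m + l) := by omega
      show k' * (4 * m + l) + 4 * m + n / 2 ^ y s' ≤ n
      omega)
    (by
      intro s' hs' P R hP hR hPlt hRlt
      refine hy s' n ?_ ?_ _ ?_ ?_ P R hP hR hPlt hRlt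
      · have h1 : n0 s' ≤ ∑ s ∈ range Sn, n0 s :=
          Finset.single_le_sum (f := n0) (fun _ _ => Nat.zero_le _) (Finset.mem_range.2 hs')
        have h2 : U < 2 ^ U := Nat.lt_two_pow_self
        have h3 : n0 s' ≤ U := by omega
        omega
      · refine pow_dvd_pow 2 ?_
        exact (hyle s' hs').trans hySnu
      · have h1 := hBclose s hsB
        have h2 : 2 ^ (u (i + 1) + 1) = 2 * n := by rw [hn, pow_succ']
        omega
      · have h1 := hBclose s hsB
        have h2 : 2 ^ (u (i + 1) + 1) = 2 * n := by rw [hn, pow_succ']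
        omega)
    (by
      intro s' hs'
      have h1 : n / 2 ^ y Sn = 4 * m + l := by
        rw [hn2, h2r]
        exact Nat.mul_div_cancel_left _ (by positivity)
      calc l ≤ 4 * m + l := by omega
        _ = n / 2 ^ y Sn := h1.symm
        _ ≤ n / 2 ^ y (s' + 1) := Nat.div_le_div_left
            (Nat.pow_le_pow_right (by norm_num) (hyle s' hs')) (by positivity))
    (hNN1 i hiK.le l (by
      have : 1 ≤ m := Nat.one_le_two_pow
      have : 1 ≤ w := by omega
      rw [hl]; exact Nat.mul_pos (by omega) (by omega)))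
    (hNN1 i hiK.le m Nat.one_le_two_pow)
    (by
      have h1 : insert (j (i + 1)) (B i) = B (i + 1) := by
        simp only [hB]
        rw [Finset.range_add_one (n := i + 1), Finset.image_insert]
      rw [h1]
      exact hNN1 (i + 1) hiK n Nat.one_le_two_pow)
  have hins : insert (j (i + 1)) (B i) = B (i + 1) := by
    simp only [hB]
    rw [Finset.range_add_one (n := i + 1), Finset.image_insert]
  rw [hins] at hlog
  have hwpos : 1 ≤ w := by omega
  have hlpos : 1 ≤ l := by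
    rw [hl]; exact Nat.mul_pos (by positivity) (by omega)
  have hlow := hlogbig i hiK.le l hlpos
  have hcard : ((B i).card : ℝ) ≤ K + 1 := by
    have h1 : (B i).card ≤ i + 1 := by
      rw [hB]
      refine (Finset.card_image_le).trans ?_
      rw [Finset.card_range]
    have h2 : (B i).card ≤ K + 1 := by omega
    exact_mod_cast h2
  have hnpos : (0 : ℝ) < n := by
    have : 0 < n := by positivity
    exact_mod_cast this
  have hnU' : (U : ℝ) ≤ n := by
    have h2 : U < 2 ^ U := Nat.lt_two_pow_self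
    have h3 : U ≤ n := by omega
    exact_mod_cast h3
  have hrR : (1 : ℝ) ≤ r := by exact_mod_cast hr1
  have hEi : (n : ℝ) * (Real.log (NN (B i) m) / m) - Real.log (NN (B (i + 1)) n) ≤ n / K := by
    have h1 : E i = Real.log (NN (B i) m) / m := rfl
    have h2 : E (i + 1) = Real.log (NN (B (i + 1)) n) / n := rfl
    have h3 : Real.log (NN (B (i + 1)) n) = n * E (i + 1) := by
      rw [h2]; field_simp
    rw [← h1, h3, ← mul_sub, div_eq_mul_one_div]
    exact mul_le_mul_of_nonneg_left hdrop hnpos.le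
  refine numeric h r T (4 * m) l n (B i).card
    ((n : ℝ) * (Real.log (NN (B i) m) / m) - Real.log (NN (B (i + 1)) n))
    (Real.log (r * Sn * t)) t (Real.log X) Sn X K m (2 ^ G) hh hrR hT1 ?_ ?_ (by linarith) ?_
    hnpos (Real.log 2) (Real.log 3) hlog2le hlog20 hlog3le ?_ rfl (by positivity) ?_ ?_ ?_ ?_ ?_ ?_ ?_ ?_
    (by positivity) ?_ ?_ hEi
  · rw [ht]; push_cast; positivity
  · rw [hSn]; push_cast; positivity
  · rw [hK]; push_cast; positivity
  · have : (n : ℝ) = 2 * r * (4 * m + l) := by exact_mod_cast hn2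
    rw [this]; ring
  · have : ((2 ^ G * m : ℕ) : ℝ) ≤ n := by exact_mod_cast hmn
    push_cast at this
    linarith
  · refine hlow.trans (hlog.trans (le_of_eq ?_))
    push_cast
    ring
  · rw [hSn]; push_cast; linarith
  · rw [hX]; linarith
  · rw [ht]; push_cast; linarith
  · rw [hK]; push_cast; linarith
  · have h1 : (G : ℝ) ≤ 2 ^ G := by
      have : G < 2 ^ G := Nat.lt_two_pow_self
      exact_mod_cast this.le
    have h2 : (G0 : ℝ) ≤ G := by
      have : G0 ≤ G := by omega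
      exact_mod_cast this
    linarith
  · have h1 : (G : ℝ) ≤ 2 ^ G := by
      have : G < 2 ^ G := Nat.lt_two_pow_self
      exact_mod_cast this.le
    have h2 : ((128 * r : ℕ) : ℝ) ≤ G := by
      have : 128 * r ≤ G := by omega
      exact_mod_cast this
    push_cast at h2
    linarith
  · have h1 : (U0 : ℝ) ≤ U := by
      have : U0 ≤ U := by omega
      exact_mod_cast this
    have h2 : 64 * (r : ℝ) ^ 2 * T * (B i).card / h ≤ 64 * (r : ℝ) ^ 2 * T * (K + 1) / h := by
      gcongr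
    linarith
  · have h1 : (U1 : ℝ) ≤ U := by
      have : U1 ≤ U := by omega
      exact_mod_cast this
    linarith

end Pool.Agent.Lib_ca68af
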