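import Mathlib

/-!
Siegel's lemma application: a small integer polynomial vanishing to high order at `1`.
-/

namespace Pool.Agent.Lib_ca68af

open Finset

theorem siegel_nat {α β : Type*} [Fintype α] [Fintype β] (A : Matrix α β ℤ)
    (hn : 2 * Fintype.card α < Fintype.card β) (hm : 0 < Fintype.card α) (M : ℕ) (hM : 1 ≤ M)
    (hA : ∀ i j, |A i j| ≤ M) :
    ∃ t : β → ℤ, t ≠ 0 ∧ (∀ i, ∑ j, A i j * t j = 0) ∧ ∀ j, |t j| ≤ Fintype.card β * M := by
  letI : SeminormedAddCommGroup (Matrix α β ℤ) := Matrix.seminormedAddCommGroup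
  obtain ⟨t, ht0, ht1, ht2⟩ := Int.Matrix.exists_ne_zero_int_vec_norm_le A (by omega) hm
  refine ⟨t, ht0, fun i => ?_, fun j => ?_⟩
  · have := congrFun ht1 i
    simpa [Matrix.mulVec, dotProduct] using this
  · have hMr : (1 : ℝ) ≤ M := by exact_mod_cast hM
    have h1 : ‖A‖ ≤ M := by
      rw [Matrix.norm_le_iff (by linarith)]
      intro i j
      rw [Int.norm_eq_abs]
      exact_mod_cast hA i j
    have h2 : max 1 ‖A‖ ≤ M := max_le hMr h1
    have hcard : (1 : ℝ) ≤ Fintype.card β := by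
      have : 1 ≤ Fintype.card β := by omega
      exact_mod_cast this
    have h3 : (1 : ℝ) ≤ (Fintype.card β : ℝ) * max 1 ‖A‖ := by
      have : (1 : ℝ) ≤ max 1 ‖A‖ := le_max_left _ _
      nlinarith
    have h4 : ((Fintype.card α : ℝ) / (Fintype.card β - Fintype.card α)) ≤ 1 := by
      have h5 : (2 * Fintype.card α : ℝ) < Fintype.card β := by exact_mod_cast hn
      have h6 : (0 : ℝ) ≤ Fintype.card α := by positivity
      rw [div_le_one (by linarith)]
      linarith
    have h5 : ‖t‖ ≤ (Fintype.card β : ℝ) * M := by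
      calc ‖t‖ ≤ _ := ht2
        _ ≤ ((Fintype.card β : ℝ) * max 1 ‖A‖) ^ (1 : ℝ) := Real.rpow_le_rpow_of_exponent_le h3 h4
        _ = (Fintype.card β : ℝ) * max 1 ‖A‖ := Real.rpow_one _
        _ ≤ _ := by gcongr
    have h6 : ‖t j‖ ≤ ‖t‖ := norm_le_pi_norm t j
    have h7 : ‖t j‖ ≤ (Fintype.card β : ℝ) * M := h6.trans h5
    rw [Int.norm_eq_abs] at h7
    exact_mod_cast h7

/-- A small nonzero integer family `b` with `F = ∑ b j i X^(jN+i)` vanishing to order `2N` at
`1`. -/
theorem exists_siegel (d L N : ℕ) (hN : 1 ≤ N) (hLN : L ≤ N) (h : 4 * N < (d + 1) * (L + 1)) :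
    ∃ b : Fin (d + 1) × Fin (L + 1) → ℤ, b ≠ 0 ∧
      (∀ a < 2 * N, ∑ x, b x * ((x.1 : ℕ) * N + (x.2 : ℕ)).choose a = 0) ∧
      ∀ x, |b x| ≤ ((d + 1) * (L + 1) * 2 ^ ((d + 1) * N) : ℕ) := by
  obtain ⟨b, hb0, hb1, hb2⟩ := siegel_nat
    (fun (a : Fin (2 * N)) (x : Fin (d + 1) × Fin (L + 1)) =>
      ((((x.1 : ℕ) * N + (x.2 : ℕ)).choose a : ℕ) : ℤ))
    (by simp only [Fintype.card_prod, Fintype.card_fin]; omega)
    (by simp only [Fintype.card_fin]; omega) (2 ^ ((d + 1) * N)) (Nat.one_le_two_pow)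
    (fun a x => by
      rw [Nat.abs_cast]
      have h1 : ((x.1 : ℕ) * N + (x.2 : ℕ)) ≤ (d + 1) * N := by
        have h2 : (x.1 : ℕ) ≤ d := by have := x.1.2; omega
        have h3 : (x.2 : ℕ) ≤ L := by have := x.2.2; omega
        nlinarith
      have h2 : ((x.1 : ℕ) * N + (x.2 : ℕ)).choose a ≤ 2 ^ ((d + 1) * N) :=
        (Nat.choose_le_two_pow _ _).trans (Nat.pow_le_pow_right (by norm_num) h1)
      exact_mod_cast h2)
  refine ⟨b, hb0, fun a ha => ?_, fun x => ?_⟩
  · have := hb1 ⟨a, ha⟩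
    rw [← this]
    refine Finset.sum_congr rfl fun x _ => by ring
  · have := hb2 x
    simp only [Fintype.card_prod, Fintype.card_fin] at this
    refine this.trans (le_of_eq ?_)
    push_cast
    ring

/-- key binomial identity -/
theorem choose_shift (m a D : ℕ) (hm : m ≤ D) (x z : ℤ) :
    (m.choose a : ℤ) * x ^ (m - a) * z ^ (D - m)
      = ∑ k ∈ range (D + 1), ((a + k).choose a : ℤ) * (m.choose (a + k) : ℤ)
          * (x - z) ^ k * z ^ (D - a - k) := by
  by_cases ham : a ≤ m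
  · obtain ⟨q, rfl⟩ : ∃ q, m = a + q := ⟨m - a, by omega⟩
    have hx : x ^ q = ∑ k ∈ range (q + 1), (x - z) ^ k * z ^ (q - k) * (q.choose k : ℤ) := by
      conv_lhs => rw [show x = (x - z) + z by ring]
      rw [add_pow]
    have hsub : range (q + 1) ⊆ range (D + 1) := by
      intro i hi; rw [Finset.mem_range] at *; omega
    rw [← Finset.sum_subset hsub]
    · rw [Nat.add_sub_cancel_left, hx, Finset.mul_sum, Finset.sum_mul]
      refine Finset.sum_congr rfl fun k hk => ?_
      rw [Finset.mem_range] at hk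
      have h1 : ((a + q).choose (a + k)) * ((a + k).choose a) = (a + q).choose a * (q.choose k) := by
        rw [Nat.choose_mul (by omega)]
        congr 1
        congr 1 <;> omega
      have h1' : ((a + q).choose (a + k) : ℤ) * ((a + k).choose a : ℤ)
          = ((a + q).choose a : ℤ) * (q.choose k : ℤ) := by exact_mod_cast h1
      have h2 : D - a - k = (q - k) + (D - (a + q)) := by omega
      rw [h2, pow_add]
      linear_combination (-(x - z) ^ k * z ^ (q - k) * z ^ (D - (a + q))) * h1'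
    · intro k _ hk
      rw [Finset.mem_range, not_lt] at hk
      rw [Nat.choose_eq_zero_of_lt (by omega : a + q < a + k)]
      simp
  · push Not at ham
    rw [Nat.choose_eq_zero_of_lt ham]
    simp only [Nat.cast_zero, zero_mul]
    symm
    refine Finset.sum_eq_zero fun k _ => ?_
    rw [Nat.choose_eq_zero_of_lt (by omega : m < a + k)]
    simp

/-- divisibility of the homogenised derivative -/
theorem dvd_homog {ι : Type*} (s : Finset ι) (b : ι → ℤ) (e : ι → ℕ) (D K a : ℕ)
    (he : ∀ i ∈ s, e i ≤ D)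
    (hvan : ∀ a < K, ∑ i ∈ s, b i * ((e i).choose a : ℤ) = 0) (x z : ℤ) :
    (x - z) ^ (K - a) ∣ ∑ i ∈ s, b i * ((e i).choose a : ℤ) * x ^ (e i - a) * z ^ (D - e i) := by
  have h1 : ∑ i ∈ s, b i * ((e i).choose a : ℤ) * x ^ (e i - a) * z ^ (D - e i)
      = ∑ k ∈ range (D + 1), (x - z) ^ k * (((a + k).choose a : ℤ) * z ^ (D - a - k)
          * ∑ i ∈ s, b i * ((e i).choose (a + k) : ℤ)) := by
    have h2 : ∀ i ∈ s, b i * ((e i).choose a : ℤ) * x ^ (e i - a) * z ^ (D - e i)
        = ∑ k ∈ range (D + 1), b i * (((a + k).choose a : ℤ) * ((e i).choose (a + k) : ℤ)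
          * (x - z) ^ k * z ^ (D - a - k)) := by
      intro i hi
      rw [← Finset.mul_sum, ← choose_shift (e i) a D (he i hi) x z]
      ring
    rw [Finset.sum_congr rfl h2, Finset.sum_comm]
    refine Finset.sum_congr rfl fun k _ => ?_
    rw [Finset.mul_sum, Finset.mul_sum]
    refine Finset.sum_congr rfl fun i _ => by ring
  rw [h1]
  refine Finset.dvd_sum fun k _ => ?_
  by_cases hk : K - a ≤ k
  · exact (pow_dvd_pow _ hk).mul_right _
  · rw [hvan (a + k) (by omega), mul_zero, mul_zero]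
    exact dvd_zero _

end Pool.Agent.Lib_ca68af
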