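import Pool.Agent.Lib_ca68af.Cells
import Pool.Agent.Lib_ca68af.Core2

/-!
The structural step: from the digit condition to the core lemma.
-/

namespace Pool.Agent.Lib_ca68af

open Finset

theorem pigeon {α β : Type*} [DecidableEq β] (s : Finset α) (t : Finset β) (f : α → β)
    (hf : ∀ a ∈ s, f a ∈ t) (ht : t.Nonempty) :
    ∃ b ∈ t, s.card ≤ t.card * (s.filter (fun a => f a = b)).card := by
  by_contra hcon
  push Not at hcon
  have h1 : ∑ b ∈ t, t.card * (s.filter (fun a => f a = b)).card < ∑ _b ∈ t, s.card :=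
    Finset.sum_lt_sum_of_nonempty ht hcon
  rw [← Finset.mul_sum, ← Finset.card_eq_sum_card_fiberwise hf, Finset.sum_const,
    smul_eq_mul] at h1
  exact lt_irrefl _ h1

theorem mod_cast_eq (x m : ℕ) : ∃ q : ℤ, ((x % m : ℕ) : ℤ) = x - m * q :=
  ⟨((x / m : ℕ) : ℤ), by
    have h : ((x % m + m * (x / m) : ℕ) : ℤ) = (x : ℤ) := by rw [Nat.mod_add_div]
    rw [Nat.cast_add, Nat.cast_mul] at h
    linarith⟩

/-- carries determined by the buffers -/
def kap (c' : ℕ → ℕ) (s g l q b : ℕ) : ℕ → ℕ :=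
  fun a => (c' a + 2 ^ (a - s) * (3 ^ (q * (g + l)) * b)) / 3 ^ (q * (g + l) + g)

theorem structural (A : Finset ℕ) (s j : ℕ) (hsA : s ∈ A) (hmin : ∀ a ∈ A, s ≤ a) (c : ℕ → ℕ)
    (g l r t n : ℕ) (hn : n = 2 * r * (g + l)) (hg : ∀ a ∈ A, a - s ≤ g)
    (Sn a1 b1 Pat : ℕ) (lo hi : ℕ → ℕ)
    (hdisj : ∀ i < Sn, ∀ i' < Sn, i ≠ i' → hi i ≤ lo i' ∨ hi i' ≤ lo i)
    (hlohi : ∀ i < Sn, lo i ≤ hi i)
    (hwin : ∀ k < r, ∀ i < Sn, k * (g + l) + g + hi i ≤ n)
    (hdio : ∀ i < Sn, ∀ P R : ℤ, P ≠ 0 → R ≠ 0 → |P| < 3 ^ (lo i) → |R| < 3 ^ (lo i) →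
      ¬ (3 : ℤ) ^ (hi i) ∣ 2 ^ ((j - s) + (s - j)) * P - R)
    (hllo : ∀ i < Sn, l ≤ lo i)
    (ha : n < (a1 + 1) * (r * Sn)) (hb : n < (b1 + 1) * t)
    (hPat : ∀ V : Finset (Fin n), V.card ≤ a1 → (patterns n V b1).card ≤ Pat)
    (hNN : 1 ≤ NN A l) :
    cnt (insert j A) c n ^ ((t + 1) ^ r) * (2 ^ A.card * NN A l)
      ≤ ((2 ^ g) ^ (2 * r) * (2 ^ A.card * NN A l) ^ r) ^ ((t + 1) ^ r) * (r * Sn * t * Pat)
        * (2 ^ A.card * NN A l) ^ (r * (t + 1) ^ r) := by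
  set Q := 2 ^ A.card * NN A l with hQ
  have hQ1 : 1 ≤ Q := Nat.one_le_iff_ne_zero.2 (by positivity)
  set uu : ℕ → ℕ := fun w => (c s + 2 ^ s * w) % 3 ^ n with huu
  set yy : ℕ → ℕ := fun w => (c j + 2 ^ j * w) % 3 ^ n with hyy
  set c' : ℕ → ℕ := fun a => c a + (3 ^ n - 1) * (2 ^ (a - s) * c s) with hc'
  set S0 := (range (3 ^ n)).filter (fun w => ∀ a ∈ insert j A, IsC n (c a + 2 ^ a * w)) with hS0
  have hcnt : cnt (insert j A) c n = S0.card := rfl
  have huult : ∀ w, uu w < 3 ^ n := fun w => Nat.mod_lt _ (by positivity)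
  have hyylt : ∀ w, yy w < 3 ^ n := fun w => Nat.mod_lt _ (by positivity)
  have hIsCu : ∀ w ∈ S0, IsC n (uu w) := by
    intro w hw
    rw [hS0, Finset.mem_filter] at hw
    exact (isC_mod n _).2 (hw.2 s (Finset.mem_insert_of_mem hsA))
  have hIsCy : ∀ w ∈ S0, IsC n (yy w) := by
    intro w hw
    rw [hS0, Finset.mem_filter] at hw
    exact (isC_mod n _).2 (hw.2 j (Finset.mem_insert_self j A))
  have hadm : ∀ w ∈ S0, ∀ a ∈ A, IsC n (c' a + 2 ^ (a - s) * uu w) := by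
    intro w hw a haA
    rw [hS0, Finset.mem_filter] at hw
    refine (isC_congr ?_).1 (hw.2 a (Finset.mem_insert_of_mem haA))
    have h1 : c' a + 2 ^ (a - s) * uu w ≡ c' a + 2 ^ (a - s) * (c s + 2 ^ s * w) [MOD 3 ^ n] :=
      (Nat.ModEq.refl _).add ((Nat.ModEq.refl _).mul (Nat.mod_modEq _ _))
    have h2 : c' a + 2 ^ (a - s) * (c s + 2 ^ s * w)
        = c a + 2 ^ a * w + 3 ^ n * (2 ^ (a - s) * c s) := by
      have h3 : 2 ^ a = 2 ^ (a - s) * 2 ^ s := by
        rw [← pow_add]; congr 1; have := hmin a haA; omega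
      obtain ⟨z, hz⟩ : ∃ z, 3 ^ n = z + 1 := ⟨3 ^ n - 1, by
        have : 0 < 3 ^ n := by positivity
        omega⟩
      rw [hc', h3]
      simp only [hz, Nat.add_sub_cancel]
      ring
    rw [h2] at h1
    have h4 : c a + 2 ^ a * w + 3 ^ n * (2 ^ (a - s) * c s) ≡ c a + 2 ^ a * w [MOD 3 ^ n] := by
      rw [Nat.ModEq, Nat.add_mul_mod_self_left]
    exact (h1.trans h4).symm
  -- trivial case
  rcases S0.eq_empty_or_nonempty with hempty | hne
  · rw [hcnt, hempty, Finset.card_empty, zero_pow (by positivity), zero_mul]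
    exact Nat.zero_le _
  obtain ⟨w00, hw00⟩ := hne
  -- first pigeonhole: buffers
  obtain ⟨be, hbe, hbecard⟩ := pigeon S0 (Fintype.piFinset (fun _ : Fin (2 * r) => Cset g))
    (fun w => fun q : Fin (2 * r) => buf g l q (uu w)) (by
      intro w hw
      rw [Fintype.mem_piFinset]
      intro q
      refine buf_mem_Cset g l q n (uu w) ?_ (hIsCu w hw)
      rw [hn]
      have h1 : (q : ℕ) + 1 ≤ 2 * r := q.2
      calc (q : ℕ) * (g + l) + g ≤ ((q : ℕ) + 1) * (g + l) := by nlinarith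
        _ ≤ 2 * r * (g + l) := Nat.mul_le_mul_right _ h1)
    ⟨_, by
      rw [Fintype.mem_piFinset]
      intro q
      refine buf_mem_Cset g l q n (uu w00) ?_ (hIsCu w00 hw00)
      rw [hn]
      have h1 : (q : ℕ) + 1 ≤ 2 * r := q.2
      calc (q : ℕ) * (g + l) + g ≤ ((q : ℕ) + 1) * (g + l) := by nlinarith
        _ ≤ 2 * r * (g + l) := Nat.mul_le_mul_right _ h1⟩
  set S1 := S0.filter (fun w => (fun q : Fin (2 * r) => buf g l q (uu w)) = be) with hS1
  have hcardC : (Fintype.piFinset (fun _ : Fin (2 * r) => Cset g)).card ≤ (2 ^ g) ^ (2 * r) := by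
    rw [Fintype.card_piFinset, Finset.prod_const, Finset.card_univ, Fintype.card_fin]
    exact Nat.pow_le_pow_left (Cset_card g) _
  have hS1sub : ∀ w ∈ S1, w ∈ S0 := fun w hw => (Finset.mem_filter.1 hw).1
  have hS1buf : ∀ w ∈ S1, ∀ q (hq : q < 2 * r), buf g l q (uu w) = be ⟨q, hq⟩ := by
    intro w hw q hq
    have := (Finset.mem_filter.1 hw).2
    exact congrFun this ⟨q, hq⟩
  have hblk : ∀ w ∈ S1, ∀ q (hq : q < 2 * r),
      blk g l q (uu w) ∈ Om A s l (kap c' s g l q (be ⟨q, hq⟩)) := by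
    intro w hw q hq
    have h1 := blk_mem_Om A s g l q n c' (uu w) hg (by
      rw [hn]
      calc q * (g + l) + g + l = (q + 1) * (g + l) := by ring
        _ ≤ 2 * r * (g + l) := Nat.mul_le_mul_right _ hq) (hadm w (hS1sub w hw))
    rw [hS1buf w hw q hq] at h1
    exact h1
  have hS1ne : S1.Nonempty := by
    rw [Finset.nonempty_iff_ne_empty]
    intro h
    have h2 : 0 < S0.card := Finset.card_pos.2 ⟨w00, hw00⟩
    rw [h, Finset.card_empty, mul_zero] at hbecard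
    omega
  obtain ⟨w01, hw01⟩ := hS1ne
  -- second pigeonhole: last `r` blocks
  have hqr : ∀ k : Fin r, r + (k : ℕ) < 2 * r := fun k => by have := k.2; omega
  have hkr : ∀ k : Fin r, (k : ℕ) < 2 * r := fun k => by have := k.2; omega
  obtain ⟨zz, hzz, hzzcard⟩ := pigeon S1
    (Fintype.piFinset (fun k : Fin r => Om A s l (kap c' s g l (r + k) (be ⟨r + k, hqr k⟩))))
    (fun w => fun k : Fin r => blk g l (r + k) (uu w)) (by
      intro w hw
      rw [Fintype.mem_piFinset]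
      intro k
      exact hblk w hw (r + k) (hqr k))
    ⟨_, by
      rw [Fintype.mem_piFinset]
      intro k
      exact hblk w01 hw01 (r + k) (hqr k)⟩
  set S2 := S1.filter (fun w => (fun k : Fin r => blk g l (r + k) (uu w)) = zz) with hS2
  have hcardO : (Fintype.piFinset
      (fun k : Fin r => Om A s l (kap c' s g l (r + k) (be ⟨r + k, hqr k⟩)))).card ≤ Q ^ r := by
    rw [Fintype.card_piFinset]
    calc ∏ k : Fin r, (Om A s l (kap c' s g l (r + k) (be ⟨r + k, hqr k⟩))).card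
        ≤ ∏ _k : Fin r, Q := Finset.prod_le_prod' fun k _ => Om_card A s l hmin _
      _ = Q ^ r := by simp
  have hS2sub : ∀ w ∈ S2, w ∈ S1 := fun w hw => (Finset.mem_filter.1 hw).1
  -- differences
  have hdiff : ∀ w ∈ S2, ∀ w' ∈ S2, (uu w : ℤ) - uu w' = ∑ k : Fin r,
      ((blk g l k (uu w) : ℤ) - blk g l k (uu w')) * 3 ^ ((k : ℕ) * (g + l) + g) := by
    intro w hw w' hw'
    refine diff_cells g l r (uu w) (uu w') (by rw [← hn]; exact huult w)
      (by rw [← hn]; exact huult w') ?_ ?_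
    · intro q hq
      rw [hS1buf w (hS2sub w hw) q hq, hS1buf w' (hS2sub w' hw') q hq]
    · intro q hq1 hq2
      have h1 := congrFun (Finset.mem_filter.1 hw).2 ⟨q - r, by omega⟩
      have h2 := congrFun (Finset.mem_filter.1 hw').2 ⟨q - r, by omega⟩
      have h3 : r + (q - r) = q := by omega
      simp only [h3] at h1 h2
      rw [h1, h2]
  set F : ℕ → (Fin r → ℕ) := fun w => fun k : Fin r => blk g l k (uu w) with hF
  have hFinj : Set.InjOn F (S2 : Set ℕ) := by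
    intro w hw w' hw' hww'
    rw [Finset.mem_coe] at hw hw'
    have h1 := hdiff w hw w' hw'
    have h2 : ∑ k : Fin r,
      ((blk g l k (uu w) : ℤ) - blk g l k (uu w')) * 3 ^ ((k : ℕ) * (g + l) + g) = 0 := by
      refine Finset.sum_eq_zero fun k _ => ?_
      have h3 : blk g l k (uu w) = blk g l k (uu w') := congrFun hww' k
      rw [h3, sub_self, zero_mul]
    rw [h2] at h1
    have h3 : uu w = uu w' := by
      have : (uu w : ℤ) = uu w' := by linarith
      exact_mod_cast this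
    have h4 : c s + 2 ^ s * w ≡ c s + 2 ^ s * w' [MOD 3 ^ n] := h3
    have h5 : 2 ^ s * w ≡ 2 ^ s * w' [MOD 3 ^ n] := Nat.ModEq.add_left_cancel' _ h4
    have hcop : Nat.gcd (3 ^ n) (2 ^ s) = 1 := Nat.Coprime.pow _ _ (by norm_num)
    have h6 : w ≡ w' [MOD 3 ^ n] := Nat.ModEq.cancel_left_of_coprime hcop h5
    have h7 := hS1sub w (hS2sub w hw)
    have h8 := hS1sub w' (hS2sub w' hw')
    rw [hS0, Finset.mem_filter, Finset.mem_range] at h7 h8
    exact Nat.ModEq.eq_of_lt_of_lt h6 h7.1 h8.1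
  set 𝒮 := S2.image F with h𝒮
  have h𝒮card : 𝒮.card = S2.card := Finset.card_image_of_injOn hFinj
  set inv : (Fin r → ℕ) → ℕ := Function.invFunOn F (S2 : Set ℕ) with hinv
  have hinv1 : ∀ v ∈ 𝒮, inv v ∈ S2 := by
    intro v hv
    rw [h𝒮, Finset.mem_image] at hv
    obtain ⟨w, hw, hwv⟩ := hv
    exact Function.invFunOn_mem (f := F) (s := (S2 : Set ℕ)) ⟨w, hw, hwv⟩
  have hinv2 : ∀ v ∈ 𝒮, F (inv v) = v := by
    intro v hv
    rw [h𝒮, Finset.mem_image] at hv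
    obtain ⟨w, hw, hwv⟩ := hv
    exact Function.invFunOn_eq (f := F) (s := (S2 : Set ℕ)) ⟨w, hw, hwv⟩
  have hin0 : ∀ v ∈ 𝒮, inv v ∈ S0 := fun v hv => hS1sub _ (hS2sub _ (hinv1 v hv))
  set Y : (Fin r → ℕ) → ℕ → ℤ := fun v m => ((yy (inv v) / 3 ^ m % 3 : ℕ) : ℤ) with hY
  have hY01 : ∀ v ∈ 𝒮, ∀ m, Y v m = 0 ∨ Y v m = 1 := by
    intro v hv m
    have h1 : yy (inv v) / 3 ^ m % 3 = 0 ∨ yy (inv v) / 3 ^ m % 3 = 1 := by
      by_cases hm : m < n
      · have h2 := hIsCy _ (hin0 v hv) m hm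
        have h3 : yy (inv v) / 3 ^ m % 3 < 3 := Nat.mod_lt _ (by norm_num)
        omega
      · left
        have h2 : yy (inv v) < 3 ^ m :=
          lt_of_lt_of_le (hyylt _) (Nat.pow_le_pow_right (by norm_num) (by omega))
        rw [Nat.div_eq_of_lt h2]
    simp only [hY]
    rcases h1 with h | h
    · left; rw [h]; rfl
    · right; rw [h]; rfl
  have hYsum : ∀ v v' : Fin r → ℕ, ∑ m ∈ range n, (Y v m - Y v' m) * 3 ^ m
      = (yy (inv v) : ℤ) - yy (inv v') := by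
    intro v v'
    have h1 := sum_base 3 n (yy (inv v))
    have h2 := sum_base 3 n (yy (inv v'))
    rw [Nat.mod_eq_of_lt (hyylt _)] at h1 h2
    have e1 : ((yy (inv v) : ℕ) : ℤ) = ∑ m ∈ range n, Y v m * 3 ^ m := by
      have h3 := congrArg (Nat.cast : ℕ → ℤ) h1
      push_cast at h3
      simp only [hY]
      push_cast
      exact h3.symm
    have e2 : ((yy (inv v') : ℕ) : ℤ) = ∑ m ∈ range n, Y v' m * 3 ^ m := by
      have h3 := congrArg (Nat.cast : ℕ → ℤ) h2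
      push_cast at h3
      simp only [hY]
      push_cast
      exact h3.symm
    rw [e1, e2, ← Finset.sum_sub_distrib]
    refine Finset.sum_congr rfl fun m _ => by ring
  have hBsum : ∀ v ∈ 𝒮, ∀ v' ∈ 𝒮, ∑ k : Fin r, ((v k : ℤ) - v' k) * 3 ^ ((k : ℕ) * (g + l) + g)
      = (uu (inv v) : ℤ) - uu (inv v') := by
    intro v hv v' hv'
    rw [hdiff _ (hinv1 v hv) _ (hinv1 v' hv')]
    refine Finset.sum_congr rfl fun k _ => ?_
    have h1 : blk g l k (uu (inv v)) = v k := congrFun (hinv2 v hv) k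
    have h2 : blk g l k (uu (inv v')) = v' k := congrFun (hinv2 v' hv') k
    rw [h1, h2]
  have hyq : ∀ w, ∃ q : ℤ, (yy w : ℤ) = c j + 2 ^ j * w - 3 ^ n * q := by
    intro w
    obtain ⟨q, hq⟩ := mod_cast_eq (c j + 2 ^ j * w) (3 ^ n)
    refine ⟨q, ?_⟩
    simp only [hyy]
    rw [hq]
    push_cast
    ring
  have huq : ∀ w, ∃ q : ℤ, (uu w : ℤ) = c s + 2 ^ s * w - 3 ^ n * q := by
    intro w
    obtain ⟨q, hq⟩ := mod_cast_eq (c s + 2 ^ s * w) (3 ^ n)
    refine ⟨q, ?_⟩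
    simp only [huu]
    rw [hq]
    push_cast
    ring
  -- apply the core lemma
  have hΩ : 𝒮 ⊆ Fintype.piFinset (fun k : Fin r => Om A s l (kap c' s g l k (be ⟨k, hkr k⟩))) := by
    intro v hv
    rw [h𝒮, Finset.mem_image] at hv
    obtain ⟨w, hw, rfl⟩ := hv
    rw [Fintype.mem_piFinset]
    intro k
    exact hblk w (hS2sub w hw) k (hkr k)
  have hcore : 𝒮.card ^ ((t + 1) ^ r) * Q ≤ (r * Sn * t * Pat) * Q ^ (r * (t + 1) ^ r) := by
    have h23 : IsCoprime (2 : ℤ) 3 := ⟨-1, 1, by norm_num⟩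
    have hw' : ∀ v ∈ 𝒮, ∀ k, ∀ i < Sn, v k < 3 ^ (lo i) := by
      intro v hv k i hi'
      have h1 : blk g l k (uu (inv v)) = v k := congrFun (hinv2 v hv) k
      rw [← h1]
      exact lt_of_lt_of_le (blk_lt g l k _) (Nat.pow_le_pow_right (by norm_num) (hllo i hi'))
    by_cases hjs : s ≤ j
    · refine core_lemma 𝒮 Y (2 ^ (j - s)) 1 (fun k : Fin r => (k : ℕ) * (g + l) + g)
        _ Q (fun k => Om_card A s l hmin _) hQ1 hΩ hY01 (h23.pow_left) isCoprime_one_left ?_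
        Sn a1 b1 Pat lo hi hdisj hlohi (fun k i hi' => hwin k k.2 i hi') ?_ hw' ha hb hPat
      · intro v hv v' hv'
        rw [hYsum v v', hBsum v hv v' hv']
        obtain ⟨q1, h1⟩ := hyq (inv v)
        obtain ⟨q2, h2⟩ := hyq (inv v')
        obtain ⟨q3, h3⟩ := huq (inv v)
        obtain ⟨q4, h4⟩ := huq (inv v')
        rw [h1, h2, h3, h4]
        have h5 : (2 : ℤ) ^ j = 2 ^ (j - s) * 2 ^ s := by rw [← pow_add]; congr 1; omega
        rw [h5]
        exact ⟨-(q1 - q2) + 2 ^ (j - s) * (q3 - q4), by ring⟩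
      · intro i hi' P R hP hR hP' hR' hdvd
        apply hdio i hi' P R hP hR hP' hR'
        have h6 : j - s + (s - j) = j - s := by omega
        rw [h6]
        have h7 : (2 : ℤ) ^ (j - s) * P - R = -(1 * R - 2 ^ (j - s) * P) := by ring
        rw [h7]
        exact (dvd_neg).2 hdvd
    · push Not at hjs
      refine core_lemma 𝒮 Y 1 (2 ^ (s - j)) (fun k : Fin r => (k : ℕ) * (g + l) + g)
        _ Q (fun k => Om_card A s l hmin _) hQ1 hΩ hY01 isCoprime_one_left (h23.pow_left) ?_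
        Sn a1 b1 Pat lo hi hdisj hlohi (fun k i hi' => hwin k k.2 i hi') ?_ hw' ha hb hPat
      · intro v hv v' hv'
        rw [hYsum v v', hBsum v hv v' hv']
        obtain ⟨q1, h1⟩ := hyq (inv v)
        obtain ⟨q2, h2⟩ := hyq (inv v')
        obtain ⟨q3, h3⟩ := huq (inv v)
        obtain ⟨q4, h4⟩ := huq (inv v')
        rw [h1, h2, h3, h4]
        have h5 : (2 : ℤ) ^ s = 2 ^ (s - j) * 2 ^ j := by rw [← pow_add]; congr 1; omega
        rw [h5]
        exact ⟨-(2 ^ (s - j) * (q1 - q2)) + (q3 - q4), by ring⟩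
      · intro i hi' P R hP hR hP' hR' hdvd
        apply hdio i hi' R P hR hP hR' hP'
        have h6 : j - s + (s - j) = s - j := by omega
        rw [h6]
        simpa using hdvd
  -- combine
  have hS0le : S0.card ≤ ((2 ^ g) ^ (2 * r) * Q ^ r) * 𝒮.card := by
    calc S0.card ≤ (Fintype.piFinset (fun _ : Fin (2 * r) => Cset g)).card * S1.card := hbecard
      _ ≤ (2 ^ g) ^ (2 * r) * (Q ^ r * S2.card) := by
          refine Nat.mul_le_mul hcardC (hzzcard.trans ?_)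
          exact Nat.mul_le_mul_right _ hcardO
      _ = ((2 ^ g) ^ (2 * r) * Q ^ r) * 𝒮.card := by rw [h𝒮card]; ring
  rw [hcnt]
  calc S0.card ^ ((t + 1) ^ r) * Q
      ≤ (((2 ^ g) ^ (2 * r) * Q ^ r) * 𝒮.card) ^ ((t + 1) ^ r) * Q :=
        Nat.mul_le_mul_right _ (Nat.pow_le_pow_left hS0le _)
    _ = ((2 ^ g) ^ (2 * r) * Q ^ r) ^ ((t + 1) ^ r) * (𝒮.card ^ ((t + 1) ^ r) * Q) := by
        rw [mul_pow]; ring
    _ ≤ ((2 ^ g) ^ (2 * r) * Q ^ r) ^ ((t + 1) ^ r) *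
        ((r * Sn * t * Pat) * Q ^ (r * (t + 1) ^ r)) := Nat.mul_le_mul_left _ hcore
    _ = _ := by ring

end Pool.Agent.Lib_ca68af
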