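import Mathlib

/-!
Zero estimate: an integer combination of integer polynomials with pairwise distinct degrees
cannot vanish to a high order at a rational point of large height.
-/

namespace Pool.Agent.Lib_ca68af

open Finset Polynomial

/-- The polynomial of absolute values of the coefficients. -/
noncomputable def absP (p : ℤ[X]) : ℤ[X] := ∑ i ∈ p.support, monomial i |p.coeff i|

theorem absP_coeff (p : ℤ[X]) (k : ℕ) : (absP p).coeff k = |p.coeff k| := by
  unfold absP
  rw [finsetSum_coeff]
  simp only [coeff_monomial]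
  rw [Finset.sum_ite_eq']
  split_ifs with h
  · rfl
  · rw [notMem_support_iff.1 h, abs_zero]

/-- Sum of absolute values of the coefficients. -/
noncomputable def plen (p : ℤ[X]) : ℤ := (absP p).eval 1

theorem plen_eq (p : ℤ[X]) (n : ℕ) (h : p.natDegree < n) : plen p = ∑ i ∈ range n, |p.coeff i| := by
  unfold plen
  have h1 : (absP p).natDegree < n := by
    refine lt_of_le_of_lt ?_ h
    rw [natDegree_le_iff_coeff_eq_zero]
    intro N hN
    rw [absP_coeff, coeff_eq_zero_of_natDegree_lt hN, abs_zero]
  rw [eval_eq_sum_range' h1]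
  refine Finset.sum_congr rfl fun i _ => by rw [absP_coeff, one_pow, mul_one]

theorem plen_le_of_dom (p P : ℤ[X]) (h : ∀ k, |p.coeff k| ≤ P.coeff k) : plen p ≤ P.eval 1 := by
  set n := max p.natDegree P.natDegree + 1 with hn
  rw [plen_eq p n (by have := le_max_left p.natDegree P.natDegree; omega),
    eval_eq_sum_range' (n := n) (by have := le_max_right p.natDegree P.natDegree; omega)]
  refine Finset.sum_le_sum fun i _ => ?_
  rw [one_pow, mul_one]
  exact h i

theorem plen_nonneg (p : ℤ[X]) : 0 ≤ plen p := by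
  rw [plen_eq p _ (Nat.lt_succ_self _)]
  exact Finset.sum_nonneg fun i _ => abs_nonneg _

theorem abs_coeff_le_plen (p : ℤ[X]) (k : ℕ) : |p.coeff k| ≤ plen p := by
  rw [plen_eq p (max p.natDegree k + 1) (by have := le_max_left p.natDegree k; omega)]
  exact Finset.single_le_sum (f := fun i => |p.coeff i|) (fun i _ => abs_nonneg _)
    (Finset.mem_range.2 (by have := le_max_right p.natDegree k; omega))

theorem plen_mul_le (p q : ℤ[X]) : plen (p * q) ≤ plen p * plen q := by
  have h : plen p * plen q = (absP p * absP q).eval 1 := by rw [eval_mul]; rfl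
  rw [h]
  refine plen_le_of_dom _ _ fun k => ?_
  rw [coeff_mul, coeff_mul]
  refine (Finset.abs_sum_le_sum_abs _ _).trans (Finset.sum_le_sum fun x _ => ?_)
  rw [absP_coeff, absP_coeff, abs_mul]

theorem plen_sub_le (p q : ℤ[X]) : plen (p - q) ≤ plen p + plen q := by
  have h : plen p + plen q = (absP p + absP q).eval 1 := by rw [eval_add]; rfl
  rw [h]
  refine plen_le_of_dom _ _ fun k => ?_
  rw [coeff_sub, coeff_add, absP_coeff, absP_coeff]
  exact abs_sub _ _

theorem plen_derivative_le (p : ℤ[X]) (D : ℕ) (hD : p.natDegree ≤ D) :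
    plen (derivative p) ≤ D * plen p := by
  rw [plen_eq (derivative p) (D + 1) (by
    have := natDegree_derivative_le p
    omega), plen_eq p (D + 2) (by omega)]
  rw [Finset.sum_range_succ' (fun i => |p.coeff i|) (D + 1), mul_add, Finset.mul_sum]
  have h1 : ∑ i ∈ range (D + 1), |(derivative p).coeff i|
      ≤ ∑ i ∈ range (D + 1), (D : ℤ) * |p.coeff (i + 1)| := by
    refine Finset.sum_le_sum fun i _ => ?_
    rw [coeff_derivative, abs_mul, mul_comm]
    by_cases hi : i + 1 ≤ D
    · have h2 : |(i : ℤ) + 1| ≤ D := by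
        rw [abs_of_nonneg (by positivity)]
        exact_mod_cast hi
      exact mul_le_mul_of_nonneg_right h2 (abs_nonneg _)
    · rw [coeff_eq_zero_of_natDegree_lt (by omega : p.natDegree < i + 1)]
      simp
  have h3 : (0 : ℤ) ≤ D * |p.coeff 0| := by positivity
  linarith

/-- exact degree of the Wronskian-like combination -/
theorem wronsk_natDegree (p q : ℤ[X]) (hp : p ≠ 0) (hq : q ≠ 0)
    (hne : p.natDegree ≠ q.natDegree) :
    (p * derivative q - derivative p * q).natDegree = p.natDegree + q.natDegree - 1 ∧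
      p * derivative q - derivative p * q ≠ 0 := by
  set m := p.natDegree with hm
  set n := q.natDegree with hn
  have hmn : 1 ≤ m + n := by omega
  have h1 : (p * derivative q).coeff (m + n - 1) = (n : ℤ) * (p.leadingCoeff * q.leadingCoeff) := by
    rcases Nat.eq_zero_or_pos n with h0 | hpos
    · have : derivative q = 0 := by
        rw [eq_C_of_natDegree_eq_zero (hn ▸ h0 : q.natDegree = 0), derivative_C]
      rw [this, h0]; simp
    · have e : m + n - 1 = m + (n - 1) := by omega
      rw [e, coeff_mul_add_eq_of_natDegree_le (le_of_eq hm.symm)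
        (by have := natDegree_derivative_le q; omega), coeff_derivative]
      have e2 : n - 1 + 1 = n := by omega
      rw [e2]
      have e3 : ((n - 1 : ℕ) : ℤ) + 1 = n := by omega
      rw [e3, Polynomial.leadingCoeff, Polynomial.leadingCoeff, ← hm, ← hn]
      ring
  have h2 : (derivative p * q).coeff (m + n - 1) = (m : ℤ) * (p.leadingCoeff * q.leadingCoeff) := by
    rcases Nat.eq_zero_or_pos m with h0 | hpos
    · have : derivative p = 0 := by
        rw [eq_C_of_natDegree_eq_zero (hm ▸ h0 : p.natDegree = 0), derivative_C]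
      rw [this, h0]; simp
    · have e : m + n - 1 = (m - 1) + n := by omega
      rw [e, coeff_mul_add_eq_of_natDegree_le (by have := natDegree_derivative_le p; omega)
        (le_of_eq hn.symm), coeff_derivative]
      have e2 : m - 1 + 1 = m := by omega
      rw [e2]
      have e3 : ((m - 1 : ℕ) : ℤ) + 1 = m := by omega
      rw [e3, Polynomial.leadingCoeff, Polynomial.leadingCoeff, ← hm, ← hn]
      ring
  have h3 : (p * derivative q - derivative p * q).coeff (m + n - 1) ≠ 0 := by
    rw [coeff_sub, h1, h2, ← sub_mul]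
    refine mul_ne_zero ?_ (mul_ne_zero (leadingCoeff_ne_zero.2 hp) (leadingCoeff_ne_zero.2 hq))
    intro h
    apply hne
    have : (n : ℤ) = m := by linarith
    exact_mod_cast this.symm
  have h4 : (p * derivative q - derivative p * q).natDegree ≤ m + n - 1 := by
    refine (natDegree_sub_le _ _).trans (max_le ?_ ?_)
    · rcases Nat.eq_zero_or_pos n with h0 | hpos
      · have : derivative q = 0 := by
          rw [eq_C_of_natDegree_eq_zero (hn ▸ h0 : q.natDegree = 0), derivative_C]
        rw [this]; simp
      · refine natDegree_mul_le.trans ?_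
        have := natDegree_derivative_le q
        omega
    · rcases Nat.eq_zero_or_pos m with h0 | hpos
      · have : derivative p = 0 := by
          rw [eq_C_of_natDegree_eq_zero (hm ▸ h0 : p.natDegree = 0), derivative_C]
        rw [this]; simp
      · refine natDegree_mul_le.trans ?_
        have := natDegree_derivative_le p
        omega
  refine ⟨natDegree_eq_of_le_of_coeff_ne_zero h4 h3, ?_⟩
  intro h
  rw [h, coeff_zero] at h3
  exact h3 rfl

/-- the linear polynomial `v X - u` -/
noncomputable def linq (u v : ℤ) : ℤ[X] := C v * X - C u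

theorem linq_isPrimitive (u v : ℤ) (h : IsCoprime u v) : (linq u v).IsPrimitive := by
  intro r hr
  rw [C_dvd_iff_dvd_coeff] at hr
  have h0 := hr 0
  have h1 := hr 1
  unfold linq at h0 h1
  simp only [coeff_sub, coeff_C_mul, coeff_X_zero, mul_zero, coeff_C_zero, zero_sub, dvd_neg,
    coeff_X_one, mul_one, coeff_C_succ, sub_zero] at h0 h1
  exact h.isUnit_of_dvd' h0 h1

theorem isPrimitive_pow (q : ℤ[X]) (hq : q.IsPrimitive) (M : ℕ) : (q ^ M).IsPrimitive := by
  induction M with
  | zero => rw [pow_zero]; exact isPrimitive_one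
  | succ M ih => rw [pow_succ]; exact ih.mul hq

theorem linq_trailing (u v : ℤ) (hu : u ≠ 0) : (linq u v).trailingCoeff = -u := by
  have h0 : (linq u v).coeff 0 = -u := by
    unfold linq
    simp
  have h1 : (linq u v).natTrailingDegree = 0 := by
    rw [natTrailingDegree_eq_zero]
    right
    rw [h0]; exact neg_ne_zero.2 hu
  rw [trailingCoeff, h1, h0]

theorem abs_trailing_pow (q : ℤ[X]) (M : ℕ) : (q ^ M).trailingCoeff = q.trailingCoeff ^ M := by
  induction M with
  | zero => simp [trailingCoeff]
  | succ M ih => rw [pow_succ, trailingCoeff_mul, ih, pow_succ]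

theorem base_bound (u v : ℤ) (hu : u ≠ 0) (huv : IsCoprime u v) (φ : ℤ[X]) (hφ : φ ≠ 0)
    (lam : ℤ) (hlam : lam ≠ 0) (M : ℕ) (h : linq u v ^ M ∣ C lam * φ) : |u| ^ M ≤ plen φ := by
  have hprim := isPrimitive_pow _ (linq_isPrimitive u v huv) M
  obtain ⟨g, hg⟩ := h
  have h1 : C lam ∣ g := by
    rw [← dvd_content_iff_C_dvd]
    have h2 : (linq u v ^ M * g).content = g.content := by
      rw [content_mul, hprim.content_eq_one, one_mul]
    rw [← h2, ← hg, dvd_content_iff_C_dvd]
    exact Dvd.intro _ rfl
  obtain ⟨g', rfl⟩ := h1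
  have h3 : φ = linq u v ^ M * g' := by
    have h4 : C lam * φ = C lam * (linq u v ^ M * g') := by rw [hg]; ring
    exact mul_left_cancel₀ (C_ne_zero.2 hlam) h4
  have hg' : g' ≠ 0 := by
    rintro rfl
    rw [mul_zero] at h3
    exact hφ h3
  have h5 : φ.trailingCoeff = (-u) ^ M * g'.trailingCoeff := by
    rw [h3, trailingCoeff_mul, abs_trailing_pow, linq_trailing u v hu]
  have h6 : 1 ≤ |g'.trailingCoeff| := Int.one_le_abs (by
    rw [Ne, trailingCoeff_eq_zero]; exact hg')
  have h7 : |φ.trailingCoeff| ≤ plen φ := abs_coeff_le_plen φ _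
  rw [h5, abs_mul, abs_pow, abs_neg] at h7
  have h8 : 0 ≤ |u| ^ M := by positivity
  nlinarith

/-- The zero estimate. -/
theorem zero_est {ι : Type*} [DecidableEq ι] (u v : ℤ) (hu : u ≠ 0) (huv : IsCoprime u v) :
    ∀ (s : ℕ) (J : Finset ι) (φ : ι → ℤ[X]) (lam : ι → ℤ) (D : ℕ) (H : ℤ) (M : ℕ),
      J.card = s + 1 → (∀ j ∈ J, φ j ≠ 0) → (∀ j ∈ J, lam j ≠ 0) →
      (∀ i ∈ J, ∀ j ∈ J, (φ i).natDegree = (φ j).natDegree → i = j) →
      1 ≤ D → (∀ j ∈ J, (φ j).natDegree ≤ D) → (∀ j ∈ J, plen (φ j) ≤ H) →
      linq u v ^ M ∣ ∑ j ∈ J, C (lam j) * φ j →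
      |u| ^ (M - s) ≤ (4 * D * H) ^ (2 ^ s) := by
  intro s
  induction s with
  | zero =>
    intro J φ lam D H M hJ hφ hlam _ hD _ hH hdvd
    obtain ⟨j, rfl⟩ := Finset.card_eq_one.1 hJ
    rw [Finset.sum_singleton] at hdvd
    have h1 := base_bound u v hu huv (φ j) (hφ j (Finset.mem_singleton_self j)) (lam j)
      (hlam j (Finset.mem_singleton_self j)) M hdvd
    have h2 := hH j (Finset.mem_singleton_self j)
    have h3 : (1 : ℤ) ≤ D := by exact_mod_cast hD
    have h4 := plen_nonneg (φ j)
    rw [Nat.sub_zero, pow_zero, pow_one]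
    nlinarith
  | succ s ih =>
    intro J φ lam D H M hJ hφ hlam hdeg hD hDeg hH hdvd
    obtain ⟨j1, hj1⟩ : J.Nonempty := Finset.card_pos.1 (by omega)
    set φ' : ι → ℤ[X] := fun j => φ j1 * derivative (φ j) - derivative (φ j1) * φ j with hφ'
    have hmem : ∀ j ∈ J.erase j1, j ∈ J ∧ j ≠ j1 := fun j hj =>
      ⟨Finset.mem_of_mem_erase hj, Finset.ne_of_mem_erase hj⟩
    have hw : ∀ j ∈ J.erase j1, (φ' j).natDegree = (φ j1).natDegree + (φ j).natDegree - 1 ∧
        φ' j ≠ 0 := by
      intro j hj
      exact wronsk_natDegree _ _ (hφ j1 hj1) (hφ j (hmem j hj).1)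
        (fun h => (hmem j hj).2 (hdeg j1 hj1 j (hmem j hj).1 h).symm)
    have hH0 : 0 ≤ H := (plen_nonneg _).trans (hH j1 hj1)
    have hdvd' : linq u v ^ (M - 1) ∣ ∑ j ∈ J.erase j1, C (lam j) * φ' j := by
      have h1 : ∑ j ∈ J.erase j1, C (lam j) * φ' j
          = φ j1 * derivative (∑ j ∈ J, C (lam j) * φ j)
            - derivative (φ j1) * ∑ j ∈ J, C (lam j) * φ j := by
        have h2 : ∑ j ∈ J.erase j1, C (lam j) * φ' j = ∑ j ∈ J, C (lam j) * φ' j := by
          rw [← Finset.add_sum_erase J _ hj1]
          have : φ' j1 = 0 := by simp only [hφ']; ring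
          rw [this, mul_zero, zero_add]
        rw [h2, derivative_sum, Finset.mul_sum, Finset.mul_sum, ← Finset.sum_sub_distrib]
        refine Finset.sum_congr rfl fun j _ => ?_
        simp only [hφ', derivative_C_mul]
        ring
      rw [h1]
      refine dvd_sub ?_ ?_
      · exact (pow_sub_one_dvd_derivative_of_pow_dvd hdvd).mul_left _
      · exact ((pow_dvd_pow _ (Nat.sub_le M 1)).trans hdvd).mul_left _
    have h := ih (J.erase j1) φ' lam (2 * D) (2 * D * H ^ 2) (M - 1)
      (by rw [Finset.card_erase_of_mem hj1]; omega)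
      (fun j hj => (hw j hj).2) (fun j hj => hlam j (hmem j hj).1)
      (by
        intro i hi j hj hij
        rw [(hw i hi).1, (hw j hj).1] at hij
        refine hdeg i (hmem i hi).1 j (hmem j hj).1 ?_
        have h1 : (φ i).natDegree ≠ (φ j1).natDegree := fun h =>
          (hmem i hi).2 (hdeg i (hmem i hi).1 j1 hj1 h)
        have h2 : (φ j).natDegree ≠ (φ j1).natDegree := fun h =>
          (hmem j hj).2 (hdeg j (hmem j hj).1 j1 hj1 h)
        omega)
      (by omega)
      (by
        intro j hj
        rw [(hw j hj).1]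
        have h1 := hDeg j1 hj1
        have h2 := hDeg j (hmem j hj).1
        omega)
      (by
        intro j hj
        have h1 := hH j1 hj1
        have h2 := hH j (hmem j hj).1
        have h3 := plen_nonneg (φ j1)
        have h4 := plen_nonneg (φ j)
        have h5 := plen_derivative_le (φ j1) D (hDeg j1 hj1)
        have h6 := plen_derivative_le (φ j) D (hDeg j (hmem j hj).1)
        have h7 := plen_nonneg (derivative (φ j1))
        have h8 := plen_nonneg (derivative (φ j))
        calc plen (φ' j) ≤ plen (φ j1 * derivative (φ j)) + plen (derivative (φ j1) * φ j) :=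
              plen_sub_le _ _
          _ ≤ plen (φ j1) * plen (derivative (φ j)) + plen (derivative (φ j1)) * plen (φ j) :=
              add_le_add (plen_mul_le _ _) (plen_mul_le _ _)
          _ ≤ H * (D * H) + (D * H) * H := by
              refine add_le_add ?_ ?_
              · refine mul_le_mul h1 (h6.trans ?_) h8 hH0
                exact mul_le_mul_of_nonneg_left h2 (by positivity)
              · refine mul_le_mul (h5.trans ?_) h2 h4 (by positivity)
                exact mul_le_mul_of_nonneg_left h1 (by positivity)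
          _ = 2 * D * H ^ 2 := by ring)
      hdvd'
    have e1 : M - 1 - s = M - (s + 1) := by omega
    rw [e1] at h
    refine h.trans (le_of_eq ?_)
    push_cast
    rw [pow_succ 2 s, mul_comm (2 ^ s) 2, pow_mul]
    congr 1
    ring

end Pool.Agent.Lib_ca68af
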