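import Pool.Agent.Lib_ca68af.Siegel
import Pool.Agent.Lib_ca68af.ZeroEst

/-!
The Thue-Siegel argument with two solutions.
-/

namespace Pool.Agent.Lib_ca68af

open Finset Polynomial

/-- exponent attached to an index -/
def EX (N : ℕ) {d L : ℕ} (x : Fin (d + 1) × Fin (L + 1)) : ℕ := (x.1 : ℕ) * N + (x.2 : ℕ)

theorem EX_le (N : ℕ) {d L : ℕ} (x : Fin (d + 1) × Fin (L + 1)) : EX N x ≤ d * N + L := by
  unfold EX
  have h1 : (x.1 : ℕ) ≤ d := by have := x.1.2; omega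
  have h2 : (x.2 : ℕ) ≤ L := by have := x.2.2; omega
  nlinarith

/-- the auxiliary integers -/
def GG (d N L : ℕ) (b : Fin (d + 1) × Fin (L + 1) → ℤ) (x1 z1 x2 z2 : ℤ) (a : ℕ) : ℤ :=
  ∑ x, b x * ((EX N x).choose a : ℤ) * x1 ^ (EX N x - a) * z1 ^ (d * N + L - EX N x)
    * (x2 ^ (d - (x.1 : ℕ)) * z2 ^ (x.1 : ℕ))

theorem three_dvd (d N L : ℕ) (b : Fin (d + 1) × Fin (L + 1) → ℤ)
    (hvan : ∀ a < 2 * N, ∑ x, b x * ((EX N x).choose a : ℤ) = 0)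
    (x1 z1 x2 z2 : ℤ) (g1 g2 a : ℕ) (ha : a ≤ N) (h1 : (3 : ℤ) ^ g1 ∣ x1 - z1)
    (h2 : (3 : ℤ) ^ g2 ∣ x2 - z2) : (3 : ℤ) ^ (min g2 (g1 * N)) ∣ GG d N L b x1 z1 x2 z2 a := by
  set Ha := ∑ x, b x * ((EX N x).choose a : ℤ) * x1 ^ (EX N x - a) * z1 ^ (d * N + L - EX N x)
    with hHa
  have hH : (3 : ℤ) ^ (min g2 (g1 * N)) ∣ Ha := by
    have h3 := dvd_homog (Finset.univ) b (fun x => EX N x) (d * N + L) (2 * N) a
      (fun x _ => EX_le N x) hvan x1 z1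
    refine dvd_trans ?_ h3
    refine dvd_trans ?_ (pow_dvd_pow_of_dvd h1 (2 * N - a))
    rw [← pow_mul]
    refine pow_dvd_pow 3 ((min_le_right _ _).trans ?_)
    exact Nat.mul_le_mul_left g1 (by omega)
  have hdiff : (3 : ℤ) ^ (min g2 (g1 * N)) ∣ GG d N L b x1 z1 x2 z2 a - z2 ^ d * Ha := by
    have h4 : GG d N L b x1 z1 x2 z2 a - z2 ^ d * Ha
        = ∑ x, b x * ((EX N x).choose a : ℤ) * x1 ^ (EX N x - a) * z1 ^ (d * N + L - EX N x)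
          * ((x2 ^ (d - (x.1 : ℕ)) - z2 ^ (d - (x.1 : ℕ))) * z2 ^ (x.1 : ℕ)) := by
      unfold GG
      rw [hHa, Finset.mul_sum, ← Finset.sum_sub_distrib]
      refine Finset.sum_congr rfl fun x _ => ?_
      have h5 : z2 ^ d = z2 ^ (d - (x.1 : ℕ)) * z2 ^ (x.1 : ℕ) := by
        rw [← pow_add]
        congr 1
        have := x.1.2
        omega
      rw [h5]; ring
    rw [h4]
    refine Finset.dvd_sum fun x _ => ?_
    refine Dvd.dvd.mul_left ?_ _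
    refine Dvd.dvd.mul_right ?_ _
    refine dvd_trans (pow_dvd_pow 3 (min_le_left _ _)) ?_
    exact h2.trans (sub_dvd_pow_sub_pow x2 z2 _)
  have h6 := dvd_add hdiff (hH.mul_left (z2 ^ d))
  rwa [sub_add_cancel] at h6

theorem two_dvd (d N L : ℕ) (hd : 1 ≤ d) (b : Fin (d + 1) × Fin (L + 1) → ℤ)
    (P1 z1 P2 z2 : ℤ) (e1 e2 a : ℕ) (ha : a ≤ N) (he : N * e1 ≤ e2) :
    (2 : ℤ) ^ (e1 * (d * N - a)) ∣ GG d N L b (2 ^ e1 * P1) z1 (2 ^ e2 * P2) z2 a := by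
  unfold GG
  refine Finset.dvd_sum fun x _ => ?_
  by_cases hE : a ≤ EX N x
  · have h1 : (2 : ℤ) ^ (e1 * (EX N x - a)) ∣ (2 ^ e1 * P1) ^ (EX N x - a) := by
      rw [mul_pow, ← pow_mul]; exact Dvd.intro _ rfl
    have h2 : (2 : ℤ) ^ (e2 * (d - (x.1 : ℕ))) ∣ (2 ^ e2 * P2) ^ (d - (x.1 : ℕ)) := by
      rw [mul_pow, ← pow_mul]; exact Dvd.intro _ rfl
    have h3 : e1 * (d * N - a) ≤ e1 * (EX N x - a) + e2 * (d - (x.1 : ℕ)) := by
      have h4 : (x.1 : ℕ) ≤ d := by have := x.1.2; omega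
      have h5 : d * N - a ≤ (EX N x - a) + N * (d - (x.1 : ℕ)) := by
        have h6 : d * N = (x.1 : ℕ) * N + N * (d - (x.1 : ℕ)) := by
          rw [mul_comm N, ← add_mul]
          congr 1
          omega
        unfold EX at hE ⊢
        omega
      calc e1 * (d * N - a) ≤ e1 * ((EX N x - a) + N * (d - (x.1 : ℕ))) :=
            Nat.mul_le_mul_left _ h5
        _ = e1 * (EX N x - a) + (N * e1) * (d - (x.1 : ℕ)) := by ring
        _ ≤ e1 * (EX N x - a) + e2 * (d - (x.1 : ℕ)) := by gcongr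
    refine dvd_trans (pow_dvd_pow 2 h3) ?_
    rw [pow_add]
    have h7 : b x * ((EX N x).choose a : ℤ) * (2 ^ e1 * P1) ^ (EX N x - a)
          * z1 ^ (d * N + L - EX N x) * ((2 ^ e2 * P2) ^ (d - (x.1 : ℕ)) * z2 ^ (x.1 : ℕ))
        = ((2 ^ e1 * P1) ^ (EX N x - a) * (2 ^ e2 * P2) ^ (d - (x.1 : ℕ)))
          * (b x * ((EX N x).choose a : ℤ) * z1 ^ (d * N + L - EX N x) * z2 ^ (x.1 : ℕ)) := by
      ring
    rw [h7]
    exact (mul_dvd_mul h1 h2).mul_right _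
  · rw [Nat.choose_eq_zero_of_lt (by omega)]
    simp

theorem GG_size (d N L : ℕ) (hd : 1 ≤ d) (hLN : L ≤ N) (b : Fin (d + 1) × Fin (L + 1) → ℤ)
    (Bb : ℕ) (hb : ∀ x, |b x| ≤ Bb)
    (P1 z1 P2 z2 : ℤ) (B1 B2 : ℕ) (hB1 : 1 ≤ B1) (hP1 : |P1| ≤ B1) (hz1 : |z1| ≤ B1)
    (hP2 : |P2| ≤ B2) (hz2 : |z2| ≤ B2) (e1 e2 a : ℕ) (ha : a ≤ N) (he : e2 ≤ (N + 1) * e1) :
    |GG d N L b (2 ^ e1 * P1) z1 (2 ^ e2 * P2) z2 a| ≤
      (((d + 1) * (L + 1)) * (Bb * 2 ^ ((d + 1) * N) * (2 ^ (e1 * (d * N - a)) *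
        2 ^ (e1 * (L + d)) * B1 ^ ((d + 1) * N) * B2 ^ d)) : ℕ) := by
  unfold GG
  refine (Finset.abs_sum_le_sum_abs _ _).trans ?_
  have hterm : ∀ x ∈ (Finset.univ : Finset (Fin (d + 1) × Fin (L + 1))),
      |b x * ((EX N x).choose a : ℤ) * (2 ^ e1 * P1) ^ (EX N x - a)
          * z1 ^ (d * N + L - EX N x) * ((2 ^ e2 * P2) ^ (d - (x.1 : ℕ)) * z2 ^ (x.1 : ℕ))|
        ≤ ((Bb * 2 ^ ((d + 1) * N) * (2 ^ (e1 * (d * N - a)) *
        2 ^ (e1 * (L + d)) * B1 ^ ((d + 1) * N) * B2 ^ d) : ℕ) : ℤ) := by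
    intro x _
    by_cases hE : a ≤ EX N x
    · have hEle := EX_le N x
      have hj : (x.1 : ℕ) ≤ d := by have := x.1.2; omega
      have hi : (x.2 : ℕ) ≤ L := by have := x.2.2; omega
      simp only [abs_mul, abs_pow, Nat.abs_cast, Nat.abs_ofNat]
      have c1 : ((EX N x).choose a : ℤ) ≤ 2 ^ ((d + 1) * N) := by
        have h1 : (EX N x).choose a ≤ 2 ^ ((d + 1) * N) :=
          (Nat.choose_le_two_pow _ _).trans (Nat.pow_le_pow_right (by norm_num) (by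
            have h2 : (d + 1) * N = d * N + N := by ring
            omega))
        exact_mod_cast h1
      have c2 : ((2 : ℤ) ^ e1 * |P1|) ^ (EX N x - a)
          ≤ 2 ^ (e1 * (EX N x - a)) * (B1 : ℤ) ^ (EX N x - a) := by
        rw [mul_pow, ← pow_mul]
        gcongr
      have c3 : |z1| ^ (d * N + L - EX N x) ≤ (B1 : ℤ) ^ (d * N + L - EX N x) := by gcongr
      have c4 : ((2 : ℤ) ^ e2 * |P2|) ^ (d - (x.1 : ℕ))
          ≤ 2 ^ (e2 * (d - (x.1 : ℕ))) * (B2 : ℤ) ^ (d - (x.1 : ℕ)) := by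
        rw [mul_pow, ← pow_mul]
        gcongr
      have c5 : |z2| ^ (x.1 : ℕ) ≤ (B2 : ℤ) ^ (x.1 : ℕ) := by gcongr
      calc |b x| * ((EX N x).choose a : ℤ) * ((2 : ℤ) ^ e1 * |P1|) ^ (EX N x - a)
            * |z1| ^ (d * N + L - EX N x)
            * (((2 : ℤ) ^ e2 * |P2|) ^ (d - (x.1 : ℕ)) * |z2| ^ (x.1 : ℕ))
          ≤ Bb * 2 ^ ((d + 1) * N) * (2 ^ (e1 * (EX N x - a)) * (B1 : ℤ) ^ (EX N x - a))
            * (B1 : ℤ) ^ (d * N + L - EX N x)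
            * ((2 ^ (e2 * (d - (x.1 : ℕ))) * (B2 : ℤ) ^ (d - (x.1 : ℕ))) * (B2 : ℤ) ^ (x.1 : ℕ)) := by
            have hbx := hb x
            gcongr
        _ = Bb * 2 ^ ((d + 1) * N) * (2 ^ (e1 * (EX N x - a) + e2 * (d - (x.1 : ℕ)))
            * (B1 : ℤ) ^ ((EX N x - a) + (d * N + L - EX N x))
            * (B2 : ℤ) ^ ((d - (x.1 : ℕ)) + (x.1 : ℕ))) := by
            rw [pow_add 2, pow_add (B1 : ℤ), pow_add (B2 : ℤ)]; ring
        _ ≤ Bb * 2 ^ ((d + 1) * N) * (2 ^ (e1 * (d * N - a) + e1 * (L + d))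
            * (B1 : ℤ) ^ ((d + 1) * N) * (B2 : ℤ) ^ d) := by
            have hB1' : (1 : ℤ) ≤ B1 := by exact_mod_cast hB1
            have f1 : e1 * (EX N x - a) + e2 * (d - (x.1 : ℕ))
                ≤ e1 * (d * N - a) + e1 * (L + d) := by
              have h5 : (EX N x - a) + (N + 1) * (d - (x.1 : ℕ)) ≤ (d * N - a) + (L + d) := by
                have h6 : d * N = (x.1 : ℕ) * N + N * (d - (x.1 : ℕ)) := by
                  rw [mul_comm N, ← add_mul]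
                  congr 1
                  omega
                have h7 : N ≤ d * N := by nlinarith
                have h8 : (N + 1) * (d - (x.1 : ℕ)) = N * (d - (x.1 : ℕ)) + (d - (x.1 : ℕ)) := by
                  ring
                unfold EX at hE ⊢
                omega
              calc e1 * (EX N x - a) + e2 * (d - (x.1 : ℕ))
                  ≤ e1 * (EX N x - a) + ((N + 1) * e1) * (d - (x.1 : ℕ)) := by gcongr
                _ = e1 * ((EX N x - a) + (N + 1) * (d - (x.1 : ℕ))) := by ring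
                _ ≤ e1 * ((d * N - a) + (L + d)) := Nat.mul_le_mul_left _ h5
                _ = _ := by ring
            have f2 : (EX N x - a) + (d * N + L - EX N x) ≤ (d + 1) * N := by
              have h2 : (d + 1) * N = d * N + N := by ring
              omega
            have f3 : (d - (x.1 : ℕ)) + (x.1 : ℕ) = d := by omega
            rw [f3]
            have k1 : (2 : ℤ) ^ (e1 * (EX N x - a) + e2 * (d - (x.1 : ℕ)))
                ≤ 2 ^ (e1 * (d * N - a) + e1 * (L + d)) := pow_le_pow_right₀ (by norm_num) f1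
            have k2 : (B1 : ℤ) ^ ((EX N x - a) + (d * N + L - EX N x)) ≤ (B1 : ℤ) ^ ((d + 1) * N) :=
              pow_le_pow_right₀ hB1' f2
            gcongr
        _ = ((Bb * 2 ^ ((d + 1) * N) * (2 ^ (e1 * (d * N - a)) *
              2 ^ (e1 * (L + d)) * B1 ^ ((d + 1) * N) * B2 ^ d) : ℕ) : ℤ) := by
            push_cast
            rw [pow_add]
    · rw [Nat.choose_eq_zero_of_lt (by omega)]
      simp only [Nat.cast_zero, mul_zero, zero_mul, abs_zero]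
      positivity
  refine (Finset.sum_le_card_nsmul _ _ _ hterm).trans (le_of_eq ?_)
  rw [Finset.card_univ, Fintype.card_prod, Fintype.card_fin, Fintype.card_fin, nsmul_eq_mul]
  push_cast
  ring

theorem GG_eq_zero (d N L : ℕ) (hd : 1 ≤ d) (hLN : L ≤ N)
    (b : Fin (d + 1) × Fin (L + 1) → ℤ)
    (hvan : ∀ a < 2 * N, ∑ x, b x * ((EX N x).choose a : ℤ) = 0)
    (hb : ∀ x, |b x| ≤ ((d + 1) * (L + 1) * 2 ^ ((d + 1) * N) : ℕ))
    (P1 Q1 P2 Q2 : ℤ) (B1 B2 : ℕ) (hB1 : 1 ≤ B1) (hP1 : |P1| ≤ B1) (hQ1 : |Q1| ≤ B1)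
    (hP2 : |P2| ≤ B2) (hQ2 : |Q2| ≤ B2) (e1 e2 g1 g2 : ℕ)
    (h1 : (3 : ℤ) ^ g1 ∣ 2 ^ e1 * P1 - Q1) (h2 : (3 : ℤ) ^ g2 ∣ 2 ^ e2 * P2 - Q2)
    (he : N * e1 ≤ e2) (he' : e2 ≤ (N + 1) * e1)
    (hA : ((d + 1) * (L + 1)) * ((d + 1) * (L + 1)) * 2 ^ (2 * ((d + 1) * N))
      * 2 ^ (e1 * (L + d)) * B1 ^ ((d + 1) * N) * B2 ^ d < 3 ^ (min g2 (g1 * N)))
    (a : ℕ) (ha : a ≤ N) : GG d N L b (2 ^ e1 * P1) Q1 (2 ^ e2 * P2) Q2 a = 0 := by
  by_contra hne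
  have d3 := three_dvd d N L b hvan (2 ^ e1 * P1) Q1 (2 ^ e2 * P2) Q2 g1 g2 a ha h1 h2
  have d2 := two_dvd d N L hd b P1 Q1 P2 Q2 e1 e2 a ha he
  have hcop : IsCoprime ((2 : ℤ) ^ (e1 * (d * N - a))) ((3 : ℤ) ^ (min g2 (g1 * N))) := by
    apply IsCoprime.pow
    exact ⟨-1, 1, by norm_num⟩
  have d6 := hcop.mul_dvd d2 d3
  have hle : (2 : ℤ) ^ (e1 * (d * N - a)) * 3 ^ (min g2 (g1 * N))
      ≤ |GG d N L b (2 ^ e1 * P1) Q1 (2 ^ e2 * P2) Q2 a| :=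
    Int.le_of_dvd (abs_pos.2 hne) ((dvd_abs _ _).2 d6)
  have hsz := GG_size d N L hd hLN b _ hb P1 Q1 P2 Q2 B1 B2 hB1 hP1 hQ1 hP2 hQ2 e1 e2 a ha he'
  have hfin := hle.trans hsz
  have hfin' : 2 ^ (e1 * (d * N - a)) * 3 ^ (min g2 (g1 * N)) ≤
      (((d + 1) * (L + 1)) * (((d + 1) * (L + 1) * 2 ^ ((d + 1) * N)) * 2 ^ ((d + 1) * N)
        * (2 ^ (e1 * (d * N - a)) * 2 ^ (e1 * (L + d)) * B1 ^ ((d + 1) * N) * B2 ^ d))) := by
    exact_mod_cast hfin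
  have hlt : 2 ^ (e1 * (d * N - a)) * (((d + 1) * (L + 1)) * ((d + 1) * (L + 1))
      * 2 ^ (2 * ((d + 1) * N)) * 2 ^ (e1 * (L + d)) * B1 ^ ((d + 1) * N) * B2 ^ d)
      < 2 ^ (e1 * (d * N - a)) * 3 ^ (min g2 (g1 * N)) :=
    Nat.mul_lt_mul_of_pos_left hA (by positivity)
  have heq : (((d + 1) * (L + 1)) * (((d + 1) * (L + 1) * 2 ^ ((d + 1) * N)) * 2 ^ ((d + 1) * N)
        * (2 ^ (e1 * (d * N - a)) * 2 ^ (e1 * (L + d)) * B1 ^ ((d + 1) * N) * B2 ^ d)))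
      = 2 ^ (e1 * (d * N - a)) * (((d + 1) * (L + 1)) * ((d + 1) * (L + 1))
      * 2 ^ (2 * ((d + 1) * N)) * 2 ^ (e1 * (L + d)) * B1 ^ ((d + 1) * N) * B2 ^ d) := by
    rw [two_mul ((d + 1) * N), pow_add 2 ((d + 1) * N)]
    ring
  omega

end Pool.Agent.Lib_ca68af
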