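import Pool.Agent.Lib_ca68af.Thue

/-!
The Thue-Siegel argument with two solutions: conclusion.
-/

namespace Pool.Agent.Lib_ca68af

open Finset Polynomial

/-- `φ_j = ∑_i b (j,i) X^(jN+i)` -/
noncomputable def phi (N : ℕ) {d L : ℕ} (b : Fin (d + 1) × Fin (L + 1) → ℤ) (j : Fin (d + 1)) :
    ℤ[X] := ∑ i : Fin (L + 1), monomial ((j : ℕ) * N + (i : ℕ)) (b (j, i))

theorem phi_coeff (N : ℕ) {d L : ℕ} (b : Fin (d + 1) × Fin (L + 1) → ℤ) (j : Fin (d + 1))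
    (i : Fin (L + 1)) : (phi N b j).coeff ((j : ℕ) * N + (i : ℕ)) = b (j, i) := by
  unfold phi
  rw [finsetSum_coeff]
  simp only [coeff_monomial]
  rw [Finset.sum_eq_single i]
  · simp
  · intro i' _ hi'
    rw [if_neg]
    intro h
    apply hi'
    exact Fin.ext (by omega)
  · intro h; exact absurd (Finset.mem_univ i) h

theorem phi_coeff_zero (N : ℕ) {d L : ℕ} (b : Fin (d + 1) × Fin (L + 1) → ℤ) (j : Fin (d + 1))
    (k : ℕ) (hk : k < (j : ℕ) * N ∨ (j : ℕ) * N + L < k) : (phi N b j).coeff k = 0 := by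
  unfold phi
  rw [finsetSum_coeff]
  refine Finset.sum_eq_zero fun i _ => ?_
  rw [coeff_monomial, if_neg]
  have := i.2
  omega

theorem phi_natDegree_le (N : ℕ) {d L : ℕ} (b : Fin (d + 1) × Fin (L + 1) → ℤ)
    (j : Fin (d + 1)) : (phi N b j).natDegree ≤ (j : ℕ) * N + L := by
  rw [natDegree_le_iff_coeff_eq_zero]
  intro k hk
  exact phi_coeff_zero N b j k (Or.inr hk)

theorem le_phi_natDegree (N : ℕ) {d L : ℕ} (b : Fin (d + 1) × Fin (L + 1) → ℤ)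
    (j : Fin (d + 1)) (h : phi N b j ≠ 0) : (j : ℕ) * N ≤ (phi N b j).natDegree := by
  by_contra hcon
  push Not at hcon
  have := phi_coeff_zero N b j _ (Or.inl hcon)
  rw [coeff_natDegree, leadingCoeff_eq_zero] at this
  exact h this

theorem phi_plen (N : ℕ) {d L : ℕ} (b : Fin (d + 1) × Fin (L + 1) → ℤ) (Bb : ℕ)
    (hb : ∀ x, |b x| ≤ Bb) (j : Fin (d + 1)) : plen (phi N b j) ≤ ((L + 1) * Bb : ℕ) := by
  have h := plen_le_of_dom (phi N b j)
    (∑ i : Fin (L + 1), monomial ((j : ℕ) * N + (i : ℕ)) |b (j, i)|) (fun k => by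
      unfold phi
      rw [finsetSum_coeff, finsetSum_coeff]
      refine (Finset.abs_sum_le_sum_abs _ _).trans (Finset.sum_le_sum fun i _ => ?_)
      rw [coeff_monomial, coeff_monomial]
      split_ifs <;> simp)
  refine h.trans ?_
  rw [eval_finsetSum]
  simp only [eval_monomial, one_pow, mul_one]
  refine (Finset.sum_le_card_nsmul _ _ _ (fun i _ => hb (j, i))).trans (le_of_eq ?_)
  rw [Finset.card_univ, Fintype.card_fin, nsmul_eq_mul]
  push_cast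
  ring

theorem sum_phi (N : ℕ) {d L : ℕ} (b : Fin (d + 1) × Fin (L + 1) → ℤ) (lam : Fin (d + 1) → ℤ) :
    ∑ j, C (lam j) * phi N b j = ∑ x, monomial (EX N x) (lam x.1 * b x) := by
  rw [Fintype.sum_prod_type]
  refine Finset.sum_congr rfl fun j _ => ?_
  unfold phi EX
  rw [Finset.mul_sum]
  refine Finset.sum_congr rfl fun i _ => ?_
  rw [C_mul_monomial]

/-- vanishing of the `GG`'s gives divisibility -/
theorem dvd_of_GG (d N L : ℕ) (hd : 1 ≤ d) (b : Fin (d + 1) × Fin (L + 1) → ℤ)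
    (u v γ x2 z2 : ℤ) (hu : u ≠ 0) (hv : v ≠ 0) (hγ : γ ≠ 0) (huv : IsCoprime u v)
    (hG : ∀ a ≤ N, GG d N L b (u * γ) (v * γ) x2 z2 a = 0) :
    linq u v ^ (N + 1) ∣ ∑ j : Fin (d + 1), C (x2 ^ (d - (j : ℕ)) * z2 ^ (j : ℕ)) * phi N b j := by
  rw [IsPrimitive.Int.dvd_iff_map_cast_dvd_map_cast _ _
    (isPrimitive_pow _ (linq_isPrimitive u v huv) _)]
  set ξ : ℚ := (u : ℚ) / v with hξ
  have hvQ : (v : ℚ) ≠ 0 := by exact_mod_cast hv
  have hγQ : (γ : ℚ) ≠ 0 := by exact_mod_cast hγ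
  have hmap : (linq u v ^ (N + 1)).map (Int.castRingHom ℚ)
      = C ((v : ℚ) ^ (N + 1)) * (X - C ξ) ^ (N + 1) := by
    unfold linq
    rw [Polynomial.map_pow, Polynomial.map_sub, Polynomial.map_mul, map_C, map_C, map_X,
      C_pow, ← mul_pow]
    congr 1
    rw [mul_sub, ← C_mul, hξ, mul_div_cancel₀ _ hvQ]
    simp
  rw [hmap]
  rw [IsUnit.mul_left_dvd (isUnit_C.2 (IsUnit.mk0 _ (pow_ne_zero _ hvQ)))]
  rw [X_sub_C_pow_dvd_iff, ← taylor_apply, X_pow_dvd_iff]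
  intro a ha
  rw [taylor_coeff, sum_phi N b (fun j => x2 ^ (d - (j : ℕ)) * z2 ^ (j : ℕ)),
    Polynomial.map_sum]
  simp only [map_monomial]
  rw [map_sum, eval_finsetSum]
  simp only [hasseDeriv_monomial, eval_monomial]
  have hG' := hG a (by omega)
  have hz1 : ((v : ℚ) * γ) ≠ 0 := mul_ne_zero hvQ hγQ
  have key : ((v : ℚ) * γ) ^ (d * N + L - a) * ∑ x : Fin (d + 1) × Fin (L + 1),
      (((EX N x).choose a : ℕ) : ℚ) * ((Int.castRingHom ℚ)
        (x2 ^ (d - (x.1 : ℕ)) * z2 ^ (x.1 : ℕ) * b x)) * ξ ^ (EX N x - a)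
      = ((GG d N L b (u * γ) (v * γ) x2 z2 a : ℤ) : ℚ) := by
    unfold GG
    rw [Finset.mul_sum, Int.cast_sum]
    refine Finset.sum_congr rfl fun x _ => ?_
    by_cases hE : a ≤ EX N x
    · have hEle := EX_le N x
      have h1 : ((v : ℚ) * γ) ^ (d * N + L - a) * ξ ^ (EX N x - a)
          = ((u : ℚ) * γ) ^ (EX N x - a) * ((v : ℚ) * γ) ^ (d * N + L - EX N x) := by
        have h2 : d * N + L - a = (EX N x - a) + (d * N + L - EX N x) := by omega
        rw [h2, pow_add]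
        have h3 : ((v : ℚ) * γ) ^ (EX N x - a) * ξ ^ (EX N x - a) = ((u : ℚ) * γ) ^ (EX N x - a) := by
          rw [← mul_pow]
          congr 1
          rw [hξ]
          field_simp
        linear_combination ((v : ℚ) * γ) ^ (d * N + L - EX N x) * h3
      push_cast
      simp only [eq_intCast]
      push_cast
      linear_combination (((EX N x).choose a : ℚ) * ((x2 : ℚ) ^ (d - (x.1 : ℕ)) * (z2 : ℚ) ^ (x.1 : ℕ) * (b x : ℚ))) * h1
    · rw [Nat.choose_eq_zero_of_lt (by omega)]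
      simp
  rw [hG', Int.cast_zero] at key
  rcases mul_eq_zero.1 key with h | h
  · exact absurd h (pow_ne_zero _ hz1)
  · exact h

/-- Two solutions lead to a contradiction. -/
theorem thue_two (d N L : ℕ) (hd : 1 ≤ d) (hN : 1 ≤ N) (hLN : L < N)
    (h4 : 4 * N < (d + 1) * (L + 1))
    (P1 Q1 P2 Q2 : ℤ) (hP10 : P1 ≠ 0) (hQ10 : Q1 ≠ 0) (hP20 : P2 ≠ 0) (hQ20 : Q2 ≠ 0)
    (B1 B2 : ℕ) (hP1 : |P1| ≤ B1) (hQ1 : |Q1| ≤ B1)
    (hP2 : |P2| ≤ B2) (hQ2 : |Q2| ≤ B2) (e1 e2 g1 g2 : ℕ)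
    (h1 : (3 : ℤ) ^ g1 ∣ 2 ^ e1 * P1 - Q1) (h2 : (3 : ℤ) ^ g2 ∣ 2 ^ e2 * P2 - Q2)
    (he : N * e1 ≤ e2) (he' : e2 ≤ (N + 1) * e1)
    (hA : ((d + 1) * (L + 1)) * ((d + 1) * (L + 1)) * 2 ^ (2 * ((d + 1) * N))
      * 2 ^ (e1 * (L + d)) * B1 ^ ((d + 1) * N) * B2 ^ d < 3 ^ (min g2 (g1 * N)))
    (hB : ∀ c : ℕ, 2 ^ e1 ≤ c * B1 →
      (4 * ((d + 1) * N) * ((L + 1) * ((d + 1) * (L + 1) * 2 ^ ((d + 1) * N)))) ^ (2 ^ d)
        < c ^ (N + 1 - d)) : False := by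
  have hB1 : 1 ≤ B1 := by
    have : (0 : ℤ) < |P1| := abs_pos.2 hP10
    have h : (0 : ℤ) < B1 := lt_of_lt_of_le this hP1
    exact_mod_cast h
  obtain ⟨b, hb0, hvan, hb⟩ := exists_siegel d L N hN hLN.le h4
  have hvan' : ∀ a < 2 * N, ∑ x, b x * ((EX N x).choose a : ℤ) = 0 := hvan
  have hG := GG_eq_zero d N L hd hLN.le b hvan' hb P1 Q1 P2 Q2 B1 B2 hB1 hP1 hQ1 hP2 hQ2
    e1 e2 g1 g2 h1 h2 he he' hA
  -- lowest terms
  set x1 : ℤ := 2 ^ e1 * P1 with hx1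
  have hx10 : x1 ≠ 0 := mul_ne_zero (by positivity) hP10
  obtain ⟨γ, u, v, hγ, huv, hu, hv⟩ : ∃ γ u v : ℤ, γ ≠ 0 ∧ IsCoprime u v ∧ x1 = u * γ ∧
      Q1 = v * γ := by
    refine ⟨(Int.gcd x1 Q1 : ℤ), x1 / Int.gcd x1 Q1, Q1 / Int.gcd x1 Q1, ?_, ?_, ?_, ?_⟩
    · have : Int.gcd x1 Q1 ≠ 0 := by
        intro h
        exact hx10 (Int.gcd_eq_zero_iff.1 h).1
      exact_mod_cast this
    · rw [Int.isCoprime_iff_gcd_eq_one]
      exact Int.gcd_ediv_gcd_ediv_gcd (Int.gcd_pos_iff.2 (Or.inl hx10))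
    · exact (Int.ediv_mul_cancel (Int.gcd_dvd_left ..)).symm
    · exact (Int.ediv_mul_cancel (Int.gcd_dvd_right ..)).symm
  have hu0 : u ≠ 0 := by rintro rfl; exact hx10 (by rw [hu, zero_mul])
  have hv0 : v ≠ 0 := by rintro rfl; exact hQ10 (by rw [hv, zero_mul])
  rw [hu, hv] at hG
  set x2 : ℤ := 2 ^ e2 * P2 with hx2
  have hx20 : x2 ≠ 0 := mul_ne_zero (by positivity) hP20
  have hdvd := dvd_of_GG d N L hd b u v γ x2 Q2 hu0 hv0 hγ huv hG
  -- the index set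
  set J : Finset (Fin (d + 1)) := Finset.univ.filter (fun j => phi N b j ≠ 0) with hJ
  have hJne : J.Nonempty := by
    by_contra hcon
    rw [Finset.not_nonempty_iff_eq_empty] at hcon
    apply hb0
    funext x
    have h5 : x.1 ∉ J := by rw [hcon]; exact Finset.notMem_empty _
    rw [hJ, Finset.mem_filter] at h5
    have h6 : phi N b x.1 = 0 := by
      by_contra h7
      exact h5 ⟨Finset.mem_univ _, h7⟩
    have h7 := phi_coeff N b x.1 x.2
    rw [h6, coeff_zero] at h7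
    exact h7.symm
  obtain ⟨s, hs⟩ : ∃ s, J.card = s + 1 := ⟨J.card - 1, by
    have := Finset.card_pos.2 hJne; omega⟩
  have hsd : s ≤ d := by
    have h5 : J.card ≤ (Finset.univ : Finset (Fin (d + 1))).card := Finset.card_le_card (Finset.filter_subset _ _)
    rw [Finset.card_univ, Fintype.card_fin] at h5
    omega
  have hdvdJ : linq u v ^ (N + 1) ∣ ∑ j ∈ J, C (x2 ^ (d - (j : ℕ)) * Q2 ^ (j : ℕ)) * phi N b j := by
    have h5 : ∑ j ∈ J, C (x2 ^ (d - (j : ℕ)) * Q2 ^ (j : ℕ)) * phi N b j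
        = ∑ j : Fin (d + 1), C (x2 ^ (d - (j : ℕ)) * Q2 ^ (j : ℕ)) * phi N b j := by
      refine Finset.sum_subset (Finset.subset_univ _) ?_
      intro j _ hj
      have h6 : phi N b j = 0 := by
        by_contra h7
        exact hj (by rw [hJ, Finset.mem_filter]; exact ⟨Finset.mem_univ _, h7⟩)
      rw [h6, mul_zero]
    rw [h5]; exact hdvd
  have hz := zero_est u v hu0 huv s J (phi N b) (fun j => x2 ^ (d - (j : ℕ)) * Q2 ^ (j : ℕ))
    ((d + 1) * N) ((L + 1) * ((d + 1) * (L + 1) * 2 ^ ((d + 1) * N)) : ℕ) (N + 1) hs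
    (fun j hj => (Finset.mem_filter.1 hj).2)
    (fun j _ => mul_ne_zero (pow_ne_zero _ hx20) (pow_ne_zero _ hQ20))
    (by
      intro i hi j hj hij
      have a1 := phi_natDegree_le N b i
      have a2 := phi_natDegree_le N b j
      have a3 := le_phi_natDegree N b i (Finset.mem_filter.1 hi).2
      have a4 := le_phi_natDegree N b j (Finset.mem_filter.1 hj).2
      apply Fin.ext
      rcases lt_trichotomy (i : ℕ) (j : ℕ) with h | h | h
      · exfalso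
        have : (i : ℕ) * N + N ≤ (j : ℕ) * N := by nlinarith
        omega
      · exact h
      · exfalso
        have : (j : ℕ) * N + N ≤ (i : ℕ) * N := by nlinarith
        omega)
    (by nlinarith)
    (by
      intro j _
      refine (phi_natDegree_le N b j).trans ?_
      have : (j : ℕ) ≤ d := by have := j.2; omega
      nlinarith)
    (fun j _ => phi_plen N b _ hb j) hdvdJ
  -- compare
  have hub : 2 ^ e1 ≤ u.natAbs * B1 := by
    have h5 : |x1| = |u| * |γ| := by rw [hu, abs_mul]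
    have h6 : |γ| ≤ B1 := by
      have h7 : |Q1| = |v| * |γ| := by rw [hv, abs_mul]
      have h8 : 1 ≤ |v| := Int.one_le_abs hv0
      have h9 : 0 ≤ |γ| := abs_nonneg γ
      nlinarith
    have h7 : (2 : ℤ) ^ e1 ≤ |x1| := by
      rw [hx1, abs_mul, abs_of_pos (by positivity : (0 : ℤ) < 2 ^ e1)]
      have h8 : 1 ≤ |P1| := Int.one_le_abs hP10
      have h9 : (0 : ℤ) < 2 ^ e1 := by positivity
      nlinarith
    have h8 : (2 : ℤ) ^ e1 ≤ |u| * B1 := by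
      have h9 : 0 ≤ |u| := abs_nonneg u
      calc (2 : ℤ) ^ e1 ≤ |u| * |γ| := by rw [← h5]; exact h7
        _ ≤ |u| * B1 := mul_le_mul_of_nonneg_left h6 h9
    have h9 : |u| = (u.natAbs : ℤ) := Int.abs_eq_natAbs u
    rw [h9] at h8
    exact_mod_cast h8
  have hBc := hB u.natAbs hub
  have hu1 : 1 ≤ u.natAbs := Int.natAbs_pos.2 hu0
  have hz' : u.natAbs ^ (N + 1 - s)
      ≤ (4 * ((d + 1) * N) * ((L + 1) * ((d + 1) * (L + 1) * 2 ^ ((d + 1) * N)))) ^ (2 ^ s) := by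
    have h9 : |u| = (u.natAbs : ℤ) := Int.abs_eq_natAbs u
    rw [h9] at hz
    exact_mod_cast hz
  have hone : 1 ≤ 4 * ((d + 1) * N) * ((L + 1) * ((d + 1) * (L + 1) * 2 ^ ((d + 1) * N))) :=
    Nat.one_le_iff_ne_zero.2 (by positivity)
  have h10 : u.natAbs ^ (N + 1 - d) ≤ u.natAbs ^ (N + 1 - s) :=
    Nat.pow_le_pow_right hu1 (by omega)
  have h11 : (4 * ((d + 1) * N) * ((L + 1) * ((d + 1) * (L + 1) * 2 ^ ((d + 1) * N)))) ^ (2 ^ s)
      ≤ (4 * ((d + 1) * N) * ((L + 1) * ((d + 1) * (L + 1) * 2 ^ ((d + 1) * N)))) ^ (2 ^ d) :=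
    Nat.pow_le_pow_right hone (Nat.pow_le_pow_right (by norm_num) hsd)
  exact absurd (h10.trans (hz'.trans h11)) (not_le.2 hBc)

end Pool.Agent.Lib_ca68af
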